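import Pool.Agent.Lib.PCel.Defs

/-!
# Amo: amalgamation, cross pairs get colour 1

PROOF. `k ≤ n` indices: `e`, `f` are strictly increasing below `n`, equal below `m`, and all values of
`e` at indices in `[m, n)` are below all values of `f` at indices in `[m, n)`. So for `k, l < n`:
`e k = f l` implies `k = l < m` (if `k, l ≥ m` then `e k < f l`; if `k < m ≤ l` then `e k = f k < f l`; if
`l < m ≤ k` then `f l = e l < e k`; if `k, l < m` then `e k = f k`, strictness).
Let `C = {(x, y), (y, x) | x = e k, y = f l, k, l ∈ s, m ≤ k, m ≤ l}` (a `Finset`), `r.c = p.c ∪ q.c ∪ C`,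
`r.z = p.z ∪ q.z`, `r.h = p.h ∪ q.h`. A pair `(e k, f l)` with `m ≤ k, l < n` has `e k` not among the values of `f` and
`f l` not among those of `e`, so it is neither in `p.c, p.z` (`hp`: second coordinate by symmetry `csym`, `zsym`) nor in
`q.c, q.z`. `r.disj`: `C` against `p.z`, `q.z`: just said; `p.c` against `q.z`: both elements are common values,
`(e k, e l) ∈ p.c`, `(f k, f l) = (e k, e l)`, use `hpat.c` and `q.disj`; similarly `q.c` against `p.z`.
`r.hfun`: `((d, t), a) ∈ p.h`, `((d, t), a') ∈ q.h`: `d = e k = f k`, `k < m`; all elements of `t` are `< d` (`hlt`), and are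
values `e l` with `l < k` (strictness), `e l = f l`; so with `t' = {l < k | e l ∈ t}`, `t = t'.image e = t'.image f`, and
`hpat.h` gives `((d, t), a) ∈ q.h`, `a = a'`. `r.hom` for `((d, t), a) ∈ p.h`, `((d, u), a) ∈ q.h`: again `d = e k = f k`,
`k < m`, `t = t'.image e = t'.image f` with `t' ⊆ {l | l < k}`; `hpat.h`: `((d, t), a) ∈ q.h`; now `q.hom` (`r.z ⊇ q.z`). The case
with `p`, `q` exchanged: `u = u'.image f = u'.image e` in the same way, `hpat.h` gives `((d, u), a) ∈ p.h`, `p.hom`.
Last claim: `x ≠ y` in `s.image e ∪ s.image f`: both in `s.image e`: `hc` (`x = e k`, `y = e l`, `k ≠ l`); both in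
`s.image f`: `(f k, f l) ∈ q.c` by `hpat.c` and `hc`; `x = e k`, `y = f l`: if `k < m` then `x = f k`, both in the image of
`f`; if `l < m` then `y = e l`, both in the image of `e`; otherwise `(x, y) ∈ C`. The other order by symmetry.
-/

set_option autoImplicit false

namespace Pool.Agent.PCel

/-- A label at a common element is a label of the other condition. -/
private theorem trans_aux {X : Type} [LinearOrder X] {n m : ℕ} (hm : m ≤ n) {e f : ℕ → X}
    {p q : Cd X} (he : ∀ k l, k < l → l < n → e k < e l) (hp : p.Sub {x | ∃ k < n, e k = x})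
    (hpat : ∀ k < n, ∀ s : Finset ℕ, (∀ l ∈ s, l < n) → ∀ m,
      ((e k, s.image e), m) ∈ p.h → ((f k, s.image f), m) ∈ q.h)
    (hhead : ∀ k < m, e k = f k) {d : X} {t : Finset X} {a : ℕ} (h : ((d, t), a) ∈ p.h)
    (hk : ∃ k, k < m ∧ e k = d) : ((d, t), a) ∈ q.h := by
  classical
  obtain ⟨k, hk, rfl⟩ := hk
  have hlt : ∀ l, l < n → e l ∈ t → l < k := by
    intro l hl hlt
    by_contra hc
    have h1 := p.hlt _ _ _ h _ hlt
    rcases (not_lt.1 hc).eq_or_lt with h2 | h2
    · rw [h2] at h1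
      exact lt_irrefl _ h1
    · exact lt_asymm h1 (he k l h2 hl)
  let t' : Finset ℕ := (Finset.range n).filter fun l => e l ∈ t
  have ht' : ∀ l, l ∈ t' ↔ l < n ∧ e l ∈ t := by
    intro l
    rw [Finset.mem_filter, Finset.mem_range]
  have h1 : t'.image e = t := by
    ext x
    rw [Finset.mem_image]
    constructor
    · rintro ⟨l, hl, rfl⟩
      exact ((ht' l).1 hl).2
    · intro hx
      obtain ⟨l, hl, rfl⟩ := hp.hs _ _ _ h x hx
      exact ⟨l, (ht' l).2 ⟨hl, hx⟩, rfl⟩
  have h2 : t'.image f = t := by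
    rw [← h1]
    refine Finset.image_congr ?_
    intro l hl
    have hl' := (ht' l).1 hl
    exact (hhead l ((hlt l hl'.1 hl'.2).trans hk)).symm
  have h3 := hpat k (lt_of_lt_of_le hk hm) t' (fun l hl => ((ht' l).1 hl).1) a
  rw [h1, h2, ← hhead k hk] at h3
  exact h3 h

theorem amo {X : Type} [LinearOrder X] (n m : ℕ) (hm : m ≤ n) (e f : ℕ → X) (p q : Cd X)
    (he : ∀ k l, k < l → l < n → e k < e l) (hf : ∀ k l, k < l → l < n → f k < f l)
    (hp : p.Sub {x | ∃ k < n, e k = x}) (hq : q.Sub {x | ∃ k < n, f k = x})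
    (hpat : Pat n e p f q) (hhead : ∀ k < m, e k = f k)
    (htail : ∀ k l, m ≤ k → k < n → m ≤ l → l < n → e k < f l)
    (s : Finset ℕ) (hs : ∀ k ∈ s, k < n) (hc : ∀ k ∈ s, ∀ l ∈ s, k ≠ l → (e k, e l) ∈ p.c) :
    ∃ r, Le r p ∧ Le r q ∧ ∀ x ∈ s.image e ∪ s.image f, ∀ y ∈ s.image e ∪ s.image f, x ≠ y →
      (x, y) ∈ r.c := by
  classical
  -- common values
  have hinj : ∀ k l, k < n → l < n → f k = f l → k = l := by
    intro k l hk hl h
    rcases lt_trichotomy k l with h1 | h1 | h1
    · exact absurd h (hf k l h1 hl).ne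
    · exact h1
    · exact absurd h (hf l k h1 hk).ne'
  have hef : ∀ k l, k < n → l < n → e k = f l → k = l ∧ k < m := by
    intro k l hk hl h
    by_cases hkm : k < m
    · rw [hhead k hkm] at h
      exact ⟨hinj k l hk hl h, hkm⟩
    · exfalso
      rw [not_lt] at hkm
      by_cases hlm : l < m
      · rw [← hhead l hlm] at h
        exact absurd h (he l k (lt_of_lt_of_le hlm hkm) hk).ne'
      · rw [not_lt] at hlm
        exact absurd h (htail k l hkm hk hlm hl).ne
  have pc : ∀ x y, (x, y) ∈ p.c → (∃ k < n, e k = x) ∧ ∃ l < n, e l = y := fun x y h =>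
    ⟨hp.c x y h, hp.c y x (p.csym x y h)⟩
  have pz : ∀ x y, (x, y) ∈ p.z → (∃ k < n, e k = x) ∧ ∃ l < n, e l = y := fun x y h =>
    ⟨hp.z x y h, hp.z y x (p.zsym x y h)⟩
  have qc : ∀ x y, (x, y) ∈ q.c → (∃ k < n, f k = x) ∧ ∃ l < n, f l = y := fun x y h =>
    ⟨hq.c x y h, hq.c y x (q.csym x y h)⟩
  have qz : ∀ x y, (x, y) ∈ q.z → (∃ k < n, f k = x) ∧ ∃ l < n, f l = y := fun x y h =>
    ⟨hq.z x y h, hq.z y x (q.zsym x y h)⟩
  -- transfer of labels
  have tpq : ∀ d t a, ((d, t), a) ∈ p.h → (∃ k < n, f k = d) → ((d, t), a) ∈ q.h := by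
    intro d t a h hk
    obtain ⟨k, hk, hkd⟩ := hk
    obtain ⟨l, hl, hld⟩ := hp.hd d t a h
    have h1 := hef l k hl hk (hld.trans hkd.symm)
    exact trans_aux hm he hp (fun k hk s hs m => (hpat.h k hk s hs m).1) hhead h ⟨l, h1.2, hld⟩
  have tqp : ∀ d t a, ((d, t), a) ∈ q.h → (∃ k < n, e k = d) → ((d, t), a) ∈ p.h := by
    intro d t a h hk
    obtain ⟨k, hk, hkd⟩ := hk
    obtain ⟨l, hl, hld⟩ := hq.hd d t a h
    have h1 := hef k l hk hl (hkd.trans hld.symm)
    exact trans_aux hm hf hq (fun k hk s hs m => (hpat.h k hk s hs m).2)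
      (fun k hk => (hhead k hk).symm) h ⟨l, h1.1 ▸ h1.2, hld⟩
  -- the cross pairs
  let s' : Finset ℕ := s.filter fun k => m ≤ k
  let C : Finset (X × X) := (s' ×ˢ s').image (fun kl => (e kl.1, f kl.2)) ∪
    (s' ×ˢ s').image (fun kl => (f kl.2, e kl.1))
  have hC : ∀ x y, (x, y) ∈ C ↔ ∃ k l, k ∈ s ∧ l ∈ s ∧ m ≤ k ∧ m ≤ l ∧
      ((x = e k ∧ y = f l) ∨ (x = f l ∧ y = e k)) := by
    intro x y
    rw [Finset.mem_union, Finset.mem_image, Finset.mem_image]
    constructor
    · rintro (⟨⟨k, l⟩, hkl, h⟩ | ⟨⟨k, l⟩, hkl, h⟩)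
      · rw [Finset.mem_product, Finset.mem_filter, Finset.mem_filter] at hkl
        rw [Prod.mk.injEq] at h
        exact ⟨k, l, hkl.1.1, hkl.2.1, hkl.1.2, hkl.2.2, Or.inl ⟨h.1.symm, h.2.symm⟩⟩
      · rw [Finset.mem_product, Finset.mem_filter, Finset.mem_filter] at hkl
        rw [Prod.mk.injEq] at h
        exact ⟨k, l, hkl.1.1, hkl.2.1, hkl.1.2, hkl.2.2, Or.inr ⟨h.1.symm, h.2.symm⟩⟩
    · rintro ⟨k, l, hk, hl, hk', hl', h | h⟩
      · refine Or.inl ⟨(k, l), ?_, ?_⟩
        · rw [Finset.mem_product, Finset.mem_filter, Finset.mem_filter]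
          exact ⟨⟨hk, hk'⟩, ⟨hl, hl'⟩⟩
        · rw [h.1, h.2]
      · refine Or.inr ⟨(k, l), ?_, ?_⟩
        · rw [Finset.mem_product, Finset.mem_filter, Finset.mem_filter]
          exact ⟨⟨hk, hk'⟩, ⟨hl, hl'⟩⟩
        · rw [h.1, h.2]
  have hnf : ∀ k ∈ s, m ≤ k → ∀ l < n, f l ≠ e k := by
    intro k hk hmk l hl h
    exact absurd (hef k l (hs k hk) hl h.symm).2 (not_lt.2 hmk)
  have hne : ∀ l ∈ s, m ≤ l → ∀ k < n, e k ≠ f l := by
    intro l hl hml k hk h
    have h1 := hef k l hk (hs l hl) h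
    exact absurd (h1.1 ▸ h1.2) (not_lt.2 hml)
  let r : Cd X :=
    { c := p.c ∪ q.c ∪ C
      z := p.z ∪ q.z
      h := p.h ∪ q.h
      csym := by
        intro x y h
        rw [Finset.mem_union, Finset.mem_union] at h ⊢
        rcases h with (h | h) | h
        · exact Or.inl (Or.inl (p.csym x y h))
        · exact Or.inl (Or.inr (q.csym x y h))
        · refine Or.inr ?_
          rw [hC] at h ⊢
          obtain ⟨k, l, hk, hl, hk', hl', h⟩ := h
          exact ⟨k, l, hk, hl, hk', hl', h.elim (fun h => Or.inr ⟨h.2, h.1⟩)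
            (fun h => Or.inl ⟨h.2, h.1⟩)⟩
      zsym := by
        intro x y h
        rw [Finset.mem_union] at h ⊢
        exact h.elim (fun h => Or.inl (p.zsym x y h)) (fun h => Or.inr (q.zsym x y h))
      disj := by
        intro x y h h'
        rw [Finset.mem_union, Finset.mem_union] at h
        rw [Finset.mem_union] at h'
        rcases h with (h | h) | h
        · rcases h' with h' | h'
          · exact p.disj x y h h'
          · obtain ⟨⟨k, hk, hkx⟩, ⟨l, hl, hly⟩⟩ := pc x y h
            obtain ⟨⟨k', hk', hkx'⟩, ⟨l', hl', hly'⟩⟩ := qz x y h'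
            have h1 := hef k k' hk hk' (hkx.trans hkx'.symm)
            have h2 := hef l l' hl hl' (hly.trans hly'.symm)
            have h3 := (hpat.c k hk l hl).1 (by rw [hkx, hly]; exact h)
            rw [h1.1, h2.1, hkx', hly'] at h3
            exact q.disj x y h3 h'
        · rcases h' with h' | h'
          · obtain ⟨⟨k', hk', hkx'⟩, ⟨l', hl', hly'⟩⟩ := qc x y h
            obtain ⟨⟨k, hk, hkx⟩, ⟨l, hl, hly⟩⟩ := pz x y h'
            have h1 := hef k k' hk hk' (hkx.trans hkx'.symm)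
            have h2 := hef l l' hl hl' (hly.trans hly'.symm)
            have h3 := (hpat.c k hk l hl).2 (by rw [h1.1, h2.1, hkx', hly']; exact h)
            rw [hkx, hly] at h3
            exact p.disj x y h3 h'
          · exact q.disj x y h h'
        · rw [hC] at h
          obtain ⟨k, l, hk, hl, hk', hl', ⟨rfl, rfl⟩ | ⟨rfl, rfl⟩⟩ := h
          · rcases h' with h' | h'
            · obtain ⟨j, hj, hj'⟩ := (pz _ _ h').2
              exact hne l hl hl' j hj hj'
            · obtain ⟨j, hj, hj'⟩ := (qz _ _ h').1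
              exact hnf k hk hk' j hj hj'
          · rcases h' with h' | h'
            · obtain ⟨j, hj, hj'⟩ := (pz _ _ h').1
              exact hne l hl hl' j hj hj'
            · obtain ⟨j, hj, hj'⟩ := (qz _ _ h').2
              exact hnf k hk hk' j hj hj'
      hfun := by
        intro d t a a' h h'
        rw [Finset.mem_union] at h h'
        rcases h with h | h
        · rcases h' with h' | h'
          · exact p.hfun d t a a' h h'
          · exact q.hfun d t a a' (tpq d t a h (hq.hd d t a' h')) h'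
        · rcases h' with h' | h'
          · exact q.hfun d t a a' h (tpq d t a' h' (hq.hd d t a h))
          · exact q.hfun d t a a' h h'
      hlt := by
        intro d t a h
        rw [Finset.mem_union] at h
        exact h.elim (fun h => p.hlt d t a h) (fun h => q.hlt d t a h)
      hom := by
        intro d t u a h h' x hx y hy hxy
        rw [Finset.mem_union] at h h' ⊢
        rcases h with h | h
        · rcases h' with h' | h'
          · exact Or.inl (p.hom d t u a h h' x hx y hy hxy)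
          · exact Or.inr (q.hom d t u a (tpq d t a h (hq.hd d u a h')) h' x hx y hy hxy)
        · rcases h' with h' | h'
          · exact Or.inr (q.hom d t u a h (tpq d u a h' (hq.hd d t a h)) x hx y hy hxy)
          · exact Or.inr (q.hom d t u a h h' x hx y hy hxy) }
  have hrp : Le r p := ⟨fun _ h => Finset.mem_union_left _ (Finset.mem_union_left _ h),
    fun _ h => Finset.mem_union_left _ h, fun _ h => Finset.mem_union_left _ h⟩
  have hrq : Le r q := ⟨fun _ h => Finset.mem_union_left _ (Finset.mem_union_right _ h),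
    fun _ h => Finset.mem_union_right _ h, fun _ h => Finset.mem_union_right _ h⟩
  -- pairs of values of `e`, pairs of values of `f`
  have ee : ∀ k ∈ s, ∀ l ∈ s, e k ≠ e l → (e k, e l) ∈ r.c := by
    intro k hk l hl hkl
    exact hrp.1 (hc k hk l hl fun h => hkl (by rw [h]))
  have ff : ∀ k ∈ s, ∀ l ∈ s, f k ≠ f l → (f k, f l) ∈ r.c := by
    intro k hk l hl hkl
    exact hrq.1 ((hpat.c k (hs k hk) l (hs l hl)).1 (hc k hk l hl fun h => hkl (by rw [h])))
  have efc : ∀ k ∈ s, ∀ l ∈ s, e k ≠ f l → (e k, f l) ∈ r.c := by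
    intro k hk l hl hkl
    by_cases hkm : k < m
    · rw [hhead k hkm] at hkl ⊢
      exact ff k hk l hl hkl
    · by_cases hlm : l < m
      · rw [← hhead l hlm] at hkl ⊢
        exact ee k hk l hl hkl
      · refine Finset.mem_union_right _ ((hC _ _).2 ?_)
        exact ⟨k, l, hk, hl, not_lt.1 hkm, not_lt.1 hlm, Or.inl ⟨rfl, rfl⟩⟩
  refine ⟨r, hrp, hrq, ?_⟩
  intro x hx y hy hxy
  rw [Finset.mem_union, Finset.mem_image, Finset.mem_image] at hx hy
  rcases hx with ⟨k, hk, rfl⟩ | ⟨k, hk, rfl⟩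
  · rcases hy with ⟨l, hl, rfl⟩ | ⟨l, hl, rfl⟩
    · exact ee k hk l hl hxy
    · exact efc k hk l hl hxy
  · rcases hy with ⟨l, hl, rfl⟩ | ⟨l, hl, rfl⟩
    · exact r.csym _ _ (efc l hl k hk hxy.symm)
    · exact ff k hk l hl hxy

end Pool.Agent.PCel
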