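import Pool.Agent.Lib.PCel.Defs

/-!
# Amz: amalgamation, cross pairs get colour 0

PROOF. Write `A = {e k | k < n}`, `B = {f k | k < n}` (finite). Let
`Z = {(x, y) | (x ∈ A, y ∈ B or x ∈ B, y ∈ A), (x, y) ∉ p.c, (x, y) ∉ q.c}` (as a `Finset`, filter of the product of
the images of `range n`; it is symmetric since `p.c`, `q.c` are), and
`r.c = p.c ∪ q.c`, `r.z = p.z ∪ q.z ∪ Z`, `r.h = p.h ∪ q.h`.
`r.disj`: if `(x, y) ∈ p.c`, `(x, y) ∈ q.z`: then `x, y ∈ A ∩ B` (`Cd.Sub`, `csym`/`zsym` for the second coordinate),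
`x = e k = f k'`, `k = k'` by `hroot`, `y = e l = f l`, so `(e k, e l) ∈ p.c`, hence `(f k, f l) ∈ q.c` by `hpat.c`,
contradiction to `q.disj`. Similarly for `q.c`, `p.z` (`hpat.z`). `Z` is disjoint from `p.c`, `q.c` by definition.
`r.hfun`: `((d, s), m) ∈ p.h`, `((d, s), m') ∈ q.h`: `d` and all elements of `s` are in `A ∩ B`; `d = e k = f k`,
`s = s'.image e` with `s' = {l < n | e l ∈ s}`, and also `s = s'.image f` (for `x ∈ s`, `x = e l = f l'`, `l = l'`; conversely
`l ∈ s'`: `e l ∈ s ⊆ B`, so `e l = f l'`, `l = l'`), so `hpat.h` gives `((d, s), m) ∈ q.h` and `m = m'`. `r.hlt` is clear.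
`r.hom`: only the case `((d, s), m) ∈ p.h`, `((d, t), m) ∈ q.h` (or with `p`, `q` exchanged; it is good to prove a lemma
symmetric in `(p, e), (q, f)`) is new. `d = e k = f k`. `s = s'.image e`, `t = t'.image f` with `s', t' ⊆ {l | l < n}`.
By `hpat.h`: `((f k, s'.image f), m) ∈ q.h` and `((e k, t'.image e), m) ∈ p.h`. Let `x ≠ y`, `x, y ∈ s ∪ t`.
Both in `s`, or both in `t`: `p.hom`, `q.hom`. `x ∈ s`, `y ∈ t` (the other case by symmetry of `z`): `x = e l`,
`y = f l'`, `l ∈ s'`, `l' ∈ t'`. If `(x, y) ∉ p.c` and `(x, y) ∉ q.c` then `(x, y) ∈ Z`. If `(x, y) ∈ p.c`: `y ∈ A`, `y = e l''`, so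
`l'' = l'` and `y = e l' ∈ t'.image e`; `p.hom` for `s` and `t'.image e` gives `(x, y) ∈ p.z`, a contradiction to
`p.disj`. If `(x, y) ∈ q.c`: `x ∈ B`, so `x = f l ∈ s'.image f`, and `q.hom` gives `(x, y) ∈ q.z`.
-/

set_option autoImplicit false

namespace Pool.Agent.PCel

private theorem pat_symm {X : Type} [LinearOrder X] {n : ℕ} {e f : ℕ → X} {p q : Cd X}
    (h : Pat n e p f q) : Pat n f q e p :=
  ⟨fun k hk l hl => (h.c k hk l hl).symm, fun k hk l hl => (h.z k hk l hl).symm,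
    fun k hk s hs m => (h.h k hk s hs m).symm⟩

private theorem both {X : Type} {n : ℕ} {e f : ℕ → X}
    (hroot : ∀ k < n, ∀ l < n, e k = f l → k = l) {x : X} (hx : ∃ k < n, e k = x)
    (hy : ∃ k < n, f k = x) : ∃ k < n, e k = x ∧ f k = x := by
  obtain ⟨k, hk, h1⟩ := hx
  obtain ⟨l, hl, h2⟩ := hy
  have := hroot k hk l hl (h1.trans h2.symm)
  subst this
  exact ⟨k, hk, h1, h2⟩

private theorem root_symm {X : Type} {n : ℕ} {e f : ℕ → X}
    (hroot : ∀ k < n, ∀ l < n, e k = f l → k = l) : ∀ k < n, ∀ l < n, f k = e l → k = l :=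
  fun k hk l hl h => (hroot l hl k hk h.symm).symm

private theorem key1 {X : Type} [LinearOrder X] {n : ℕ} {e f : ℕ → X} {p q : Cd X}
    (hp : p.Sub {x | ∃ k < n, e k = x}) (hq : q.Sub {x | ∃ k < n, f k = x})
    (hpat : Pat n e p f q) (hroot : ∀ k < n, ∀ l < n, e k = f l → k = l) {x y : X}
    (h1 : (x, y) ∈ p.c) (h2 : (x, y) ∈ q.z) : False := by
  obtain ⟨k, hk, hk1, hk2⟩ := both hroot (hp.c x y h1) (hq.z x y h2)
  obtain ⟨l, hl, hl1, hl2⟩ := both hroot (hp.c y x (p.csym _ _ h1)) (hq.z y x (q.zsym _ _ h2))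
  subst hk1
  subst hl1
  have h3 := (hpat.c k hk l hl).1 h1
  rw [← hk2, ← hl2] at h2
  exact q.disj _ _ h3 h2

private theorem img {X : Type} [DecidableEq X] {n : ℕ} {e : ℕ → X} {s : Finset X} (hs : ∀ x ∈ s, ∃ k < n, e k = x) :
    s = ((Finset.range n).filter fun l => e l ∈ s).image e := by
  ext x
  rw [Finset.mem_image]
  constructor
  · intro hx
    obtain ⟨k, hk, h1⟩ := hs x hx
    exact ⟨k, Finset.mem_filter.2 ⟨Finset.mem_range.2 hk, by rw [h1]; exact hx⟩, h1⟩
  · rintro ⟨k, hk, h1⟩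
    rw [← h1]
    exact (Finset.mem_filter.1 hk).2

private theorem key2 {X : Type} [LinearOrder X] {n : ℕ} {e f : ℕ → X} {p q : Cd X}
    (hp : p.Sub {x | ∃ k < n, e k = x}) (hq : q.Sub {x | ∃ k < n, f k = x})
    (hpat : Pat n e p f q) (hroot : ∀ k < n, ∀ l < n, e k = f l → k = l) {d : X} {s : Finset X}
    {m m' : ℕ} (h1 : ((d, s), m) ∈ p.h) (h2 : ((d, s), m') ∈ q.h) : m = m' := by
  classical
  obtain ⟨k, hk, hk1, hk2⟩ := both hroot (hp.hd d s m h1) (hq.hd d s m' h2)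
  have hs1 : ∀ x ∈ s, ∃ k < n, e k = x := fun x hx => hp.hs d s m h1 x hx
  have hs2 : ∀ x ∈ s, ∃ k < n, f k = x := fun x hx => hq.hs d s m' h2 x hx
  have e1 := img hs1
  have e2 : s = ((Finset.range n).filter fun l => e l ∈ s).image f := by
    ext x
    rw [Finset.mem_image]
    constructor
    · intro hx
      obtain ⟨l, hl, hl1, hl2⟩ := both hroot (hs1 x hx) (hs2 x hx)
      exact ⟨l, Finset.mem_filter.2 ⟨Finset.mem_range.2 hl, by rw [hl1]; exact hx⟩, hl2⟩
    · rintro ⟨l, hl, h3⟩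
      obtain ⟨hl1, hl2⟩ := Finset.mem_filter.1 hl
      obtain ⟨l', hl', h4⟩ := hs2 _ hl2
      have := hroot l (Finset.mem_range.1 hl1) l' hl' h4.symm
      subst this
      rw [← h3, h4]
      exact hl2
  have h3 := (hpat.h k hk ((Finset.range n).filter fun l => e l ∈ s)
    (fun l hl => Finset.mem_range.1 (Finset.mem_filter.1 hl).1) m).1 (by rw [← e1, hk1]; exact h1)
  rw [← e2, hk2] at h3
  exact q.hfun _ _ _ _ h3 h2

private theorem key3 {X : Type} [LinearOrder X] {n : ℕ} {e f : ℕ → X} {p q : Cd X}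
    (hp : p.Sub {x | ∃ k < n, e k = x}) (hq : q.Sub {x | ∃ k < n, f k = x})
    (hpat : Pat n e p f q) (hroot : ∀ k < n, ∀ l < n, e k = f l → k = l) {d : X} {s t : Finset X}
    {m : ℕ} (h1 : ((d, s), m) ∈ p.h) (h2 : ((d, t), m) ∈ q.h) {x y : X} (hx : x ∈ s) (hy : y ∈ t)
    (hxy : x ≠ y) (hc : (x, y) ∈ p.c) : False := by
  classical
  obtain ⟨k, hk, hk1, hk2⟩ := both hroot (hp.hd d s m h1) (hq.hd d t m h2)
  have ht2 : ∀ x ∈ t, ∃ k < n, f k = x := fun x hx => hq.hs d t m h2 x hx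
  have e2 := img ht2
  have h3 := (hpat.h k hk ((Finset.range n).filter fun l => f l ∈ t)
    (fun l hl => Finset.mem_range.1 (Finset.mem_filter.1 hl).1) m).2 (by rw [← e2, hk2]; exact h2)
  rw [hk1] at h3
  obtain ⟨l, hl, hl1, hl2⟩ := both hroot (hp.c y x (p.csym _ _ hc)) (ht2 y hy)
  have h4 : y ∈ ((Finset.range n).filter fun l => f l ∈ t).image e := by
    rw [Finset.mem_image]
    exact ⟨l, Finset.mem_filter.2 ⟨Finset.mem_range.2 hl, by rw [hl2]; exact hy⟩, hl1⟩
  exact p.disj _ _ hc (p.hom d s _ m h1 h3 x (Or.inl hx) y (Or.inr h4) hxy)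

theorem amz {X : Type} [LinearOrder X] (n : ℕ) (e f : ℕ → X) (p q : Cd X)
    (hp : p.Sub {x | ∃ k < n, e k = x}) (hq : q.Sub {x | ∃ k < n, f k = x})
    (hpat : Pat n e p f q) (hroot : ∀ k < n, ∀ l < n, e k = f l → k = l) :
    ∃ r, Le r p ∧ Le r q := by
  classical
  have hpat' := pat_symm hpat
  have hroot' := root_symm hroot
  set FA : Finset X := (Finset.range n).image e with hFA
  set FB : Finset X := (Finset.range n).image f with hFB
  have hA : ∀ x, (∃ k < n, e k = x) → x ∈ FA := by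
    rintro x ⟨k, hk, rfl⟩
    exact Finset.mem_image_of_mem _ (Finset.mem_range.2 hk)
  have hB : ∀ x, (∃ k < n, f k = x) → x ∈ FB := by
    rintro x ⟨k, hk, rfl⟩
    exact Finset.mem_image_of_mem _ (Finset.mem_range.2 hk)
  set Z : Finset (X × X) := ((FA ×ˢ FB) ∪ (FB ×ˢ FA)).filter
    (fun xy => xy ∉ p.c ∧ xy ∉ q.c) with hZ
  have hmemZ : ∀ x y, (x, y) ∈ Z ↔ ((x ∈ FA ∧ y ∈ FB) ∨ (x ∈ FB ∧ y ∈ FA)) ∧
      ((x, y) ∉ p.c ∧ (x, y) ∉ q.c) := by
    intro x y
    rw [hZ, Finset.mem_filter, Finset.mem_union, Finset.mem_product, Finset.mem_product]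
  have hcross : ∀ d s t m, ((d, s), m) ∈ p.h → ((d, t), m) ∈ q.h → ∀ x ∈ s, ∀ y ∈ t, x ≠ y →
      (x, y) ∈ Z := by
    intro d s t m h1 h2 x hx y hy hxy
    rw [hmemZ]
    refine ⟨Or.inl ⟨hA _ (hp.hs d s m h1 x hx), hB _ (hq.hs d t m h2 y hy)⟩, ?_, ?_⟩
    · exact fun hc => key3 hp hq hpat hroot h1 h2 hx hy hxy hc
    · exact fun hc => key3 hq hp hpat' hroot' h2 h1 hy hx hxy.symm (q.csym _ _ hc)
  have hZs : ∀ x y, (x, y) ∈ Z → (y, x) ∈ Z := by
    intro x y h
    rw [hmemZ] at h ⊢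
    obtain ⟨h1, h2, h3⟩ := h
    refine ⟨h1.elim (fun h => Or.inr ⟨h.2, h.1⟩) (fun h => Or.inl ⟨h.2, h.1⟩), ?_, ?_⟩
    · exact fun h => h2 (p.csym _ _ h)
    · exact fun h => h3 (q.csym _ _ h)
  refine ⟨{ c := p.c ∪ q.c, z := p.z ∪ q.z ∪ Z, h := p.h ∪ q.h, csym := ?_, zsym := ?_,
            disj := ?_, hfun := ?_, hlt := ?_, hom := ?_ }, ?_, ?_⟩
  · intro x y h
    rw [Finset.mem_union] at h ⊢
    exact h.imp (p.csym _ _) (q.csym _ _)
  · intro x y h
    rw [Finset.mem_union, Finset.mem_union] at h ⊢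
    exact h.imp (fun h => h.imp (p.zsym _ _) (q.zsym _ _)) (hZs x y)
  · intro x y h h'
    rw [Finset.mem_union] at h
    rw [Finset.mem_union, Finset.mem_union] at h'
    rcases h with h | h
    · rcases h' with (h' | h') | h'
      · exact p.disj _ _ h h'
      · exact key1 hp hq hpat hroot h h'
      · exact ((hmemZ _ _).1 h').2.1 h
    · rcases h' with (h' | h') | h'
      · exact key1 hq hp hpat' hroot' h h'
      · exact q.disj _ _ h h'
      · exact ((hmemZ _ _).1 h').2.2 h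
  · intro d s m m' h h'
    rw [Finset.mem_union] at h h'
    rcases h with h | h
    · rcases h' with h' | h'
      · exact p.hfun _ _ _ _ h h'
      · exact key2 hp hq hpat hroot h h'
    · rcases h' with h' | h'
      · exact key2 hq hp hpat' hroot' h h'
      · exact q.hfun _ _ _ _ h h'
  · intro d s m h
    rw [Finset.mem_union] at h
    exact h.elim (p.hlt d s m) (q.hlt d s m)
  · intro d s t m h h' x hx y hy hxy
    rw [Finset.mem_union] at h h'
    rw [Finset.mem_union, Finset.mem_union]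
    rcases h with h | h
    · rcases h' with h' | h'
      · exact Or.inl (Or.inl (p.hom d s t m h h' x hx y hy hxy))
      · rcases hx with hx | hx
        · rcases hy with hy | hy
          · exact Or.inl (Or.inl (p.hom d s s m h h x (Or.inl hx) y (Or.inl hy) hxy))
          · exact Or.inr (hcross d s t m h h' x hx y hy hxy)
        · rcases hy with hy | hy
          · exact Or.inr (hZs _ _ (hcross d s t m h h' y hy x hx hxy.symm))
          · exact Or.inl (Or.inr (q.hom d t t m h' h' x (Or.inl hx) y (Or.inl hy) hxy))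
    · rcases h' with h' | h'
      · rcases hx with hx | hx
        · rcases hy with hy | hy
          · exact Or.inl (Or.inr (q.hom d s s m h h x (Or.inl hx) y (Or.inl hy) hxy))
          · exact Or.inr (hZs _ _ (hcross d t s m h' h y hy x hx hxy.symm))
        · rcases hy with hy | hy
          · exact Or.inr (hcross d t s m h' h x hx y hy hxy)
          · exact Or.inl (Or.inl (p.hom d t t m h' h' x (Or.inl hx) y (Or.inl hy) hxy))
      · exact Or.inl (Or.inr (q.hom d s t m h h' x hx y hy hxy))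
  · exact ⟨Finset.subset_union_left, Finset.subset_union_left.trans Finset.subset_union_left,
      Finset.subset_union_left⟩
  · exact ⟨Finset.subset_union_right, Finset.subset_union_right.trans Finset.subset_union_left,
      Finset.subset_union_right⟩

end Pool.Agent.PCel
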