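import Pool.Agent.Lib.PCel.Cmpa

/-!
# BCc: the `L`-chain condition

PROOF. Like `BKn`: `top_iff_Ap`, `Ap_iInf`, `Ap_himp`, `ap_fun`; then by `Ap_loc` it is enough to find below each `q' ≤ q` some `r ≤ q'` with
`Ap r` of the formula: `FCC` at `q'` gives `r`, `i < j`, `y`, `z`, `u`; give the witnesses `chk i`, `chk j`, `chk y`, `chk z`
(`bEx_all`, `le_iSup`, `le_iff_Ap`), `ap_comp`.
-/

set_option autoImplicit false

namespace Pool.Agent.PCel

open Pool.Agent.Lib.BVM Pool.Agent.Lib.BVM.BSet Pool.Agent.PolB Pool.Agent.PolF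

variable {P : Type} {le : P → P → Prop} {L : Type} [LinearOrder L] [WellFoundedLT L]

private theorem wit {v : ℕ → BSet (RO (Fsp le))} {i : ℕ} (h : v i = chkAll (RO (Fsp le)) L)
    (φ : Fm) (a : L) (p : P) (ha : Ap p (bval φ (scons (chk (RO (Fsp le)) a) v))) :
    Ap p (bval (bEx i φ) v) := by
  rw [bEx_all h]
  exact le_iff_Ap.1 (le_iSup (fun a : L => bval φ (scons (chk (RO (Fsp le)) a) v)) a) p ha

theorem bval_cc (hr : ∀ p, le p p) (ht : ∀ p q r, le p q → le q r → le p r)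
    {v : ℕ → BSet (RO (Fsp le))} {l S R : ℕ} (O : L × L → Set P)
    (hl : v l = chkAll (RO (Fsp le)) L) (hS : v S = chkAll (RO (Fsp le)) L)
    (hR : v R = relN (fun z : L × L => toB le O z)) (h : FCC le L O) :
    bval (fCC l S R) v = ⊤ := by
  rw [top_iff_Ap]
  intro p
  unfold fCC
  rw [bval]
  refine (Ap_iInf hr ht _ _).2 fun f => ?_
  rw [bval]
  refine (Ap_himp hr ht _ _ _).2 fun q _ h1 => ?_
  rw [ap_fun (I := L) (J := L) hr ht (v := scons f v) (l := l + 1) (S := S + 1) (f := 0) hl hS] at h1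
  refine Ap_loc hr ht fun q' hq' => ?_
  have hF' : IsF le (nm le L L (scons f v 0)) q' :=
    ⟨fun i s hs => h1.1 i s (ht _ _ _ hs hq'),
      fun i x y hxy s hs => h1.2 i x y hxy s (ht _ _ _ hs hq')⟩
  obtain ⟨r, hrq, i, j, hij, y, z, u, hy, hz, huy, huz⟩ := h _ q' hF'
  refine ⟨r, hrq, ?_⟩
  refine wit (v := scons f v) (i := l + 1) hl _ i r ?_
  refine wit (v := scons (chk (RO (Fsp le)) i) (scons f v)) (i := l + 2) hl _ j r ?_
  rw [bval]
  refine (Ap_inf _ _ _).2 ⟨?_, ?_⟩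
  · have e : bval (.mem 1 0) (scons (chk (RO (Fsp le)) j) (scons (chk (RO (Fsp le)) i)
        (scons f v))) = (⊤ : RO (Fsp le)) := chk_mem_of_lt hij
    rw [e]
    exact Ap_top _
  refine wit (i := S + 3) hS _ y r ?_
  refine wit (i := S + 4) hS _ z r ?_
  rw [bval, bval_fPin]
  refine (Ap_inf _ _ _).2 ⟨(mem_nm hr ht f i y r).1 hy, ?_⟩
  rw [bval, bval_fPin]
  refine (Ap_inf _ _ _).2 ⟨(mem_nm hr ht f j z r).1 hz, ?_⟩
  rw [ap_comp hr ht O (S := S + 5) (R := R + 5) (x := 1) (y := 0) hS hR y z rfl rfl]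
  intro s hs
  exact ⟨s, hr s, u, fun t hts => huy t (ht _ _ _ hts hs), fun t hts => huz t (ht _ _ _ hts hs)⟩

end Pool.Agent.PCel
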