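import Pool.Agent.Lib.PCel.Cmpa

/-!
# BDe: no small dense set

PROOF. If the value is not `⊥` some `p` has `Ap p (bval (fDen ..) v)`; `Ap_iSup`: `q ≤ p` and `f : BSet` with `Ap q (fFun ..)`, i.e.
`IsF le (nm le W L f) q` (`ap_fun`); `FDen` gives `a : L`; the second conjunct at `a` (`bAll_all`, `Ap_iInf`) gives `r ≤ q`, `i`, `y` with
`Mem le (nm le W L f) (i, y) r` and `Mem le O (y, a) r` (`mem_nm`, `bval_fPin`, `ap_rel`), a contradiction.
-/

set_option autoImplicit false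

namespace Pool.Agent.PCel

open Pool.Agent.Lib.BVM Pool.Agent.Lib.BVM.BSet Pool.Agent.PolB Pool.Agent.PolF

variable {P : Type} {le : P → P → Prop} {W L : Type} [LinearOrder W] [WellFoundedLT W]
  [LinearOrder L] [WellFoundedLT L]

private theorem bde_and (φ ψ : Fm) (v : ℕ → BSet (RO (Fsp le))) (p : P) :
    Ap p (bval (.and φ ψ) v) ↔ Ap p (bval φ v) ∧ Ap p (bval ψ v) := by
  rw [bval]
  exact Ap_inf p _ _

private theorem bde_ex (hr : ∀ p, le p p) (ht : ∀ p q r, le p q → le q r → le p r)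
    (φ : Fm) (v : ℕ → BSet (RO (Fsp le))) (p : P) :
    Ap p (bval (.ex φ) v) ↔ ∀ q, le q p → ∃ r, le r q ∧ ∃ x, Ap r (bval φ (scons x v)) := by
  rw [bval]
  exact Ap_iSup hr ht p _

theorem bval_den (hr : ∀ p, le p p) (ht : ∀ p q r, le p q → le q r → le p r)
    {v : ℕ → BSet (RO (Fsp le))} {k S R : ℕ} (O : L × L → Set P)
    (hk : v k = chkAll (RO (Fsp le)) W) (hS : v S = chkAll (RO (Fsp le)) L)
    (hR : v R = relN (fun z : L × L => toB le O z)) (h : FDen le W L O) :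
    bval (fDen k S R) v = ⊥ := by
  rw [← le_bot_iff, le_iff_Ap]
  intro p hp
  exfalso
  rw [fDen, bde_ex hr ht] at hp
  obtain ⟨q, hq, f, hf⟩ := hp p (hr p)
  rw [bde_and] at hf
  obtain ⟨hF, h2⟩ := hf
  have hI := (ap_fun hr ht (v := scons f v) (l := k + 1) (S := S + 1) (f := 0) hk hS q).1 hF
  obtain ⟨a, ha⟩ := h _ q hI
  rw [bAll_all (I := L) (i := S + 1) (v := scons f v) hS, Ap_iInf hr ht] at h2
  have h3 := h2 a
  rw [bEx_all (I := W) (i := k + 2) (v := scons (chk (RO (Fsp le)) a) (scons f v)) hk,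
    Ap_iSup hr ht] at h3
  obtain ⟨r, hrq, i, h4⟩ := h3 q (hr q)
  rw [bEx_all (I := L) (i := S + 3) (v := scons (chk (RO (Fsp le)) i)
    (scons (chk (RO (Fsp le)) a) (scons f v))) hS, Ap_iSup hr ht] at h4
  obtain ⟨s, hsr, y, h5⟩ := h4 r (hr r)
  rw [bde_and] at h5
  obtain ⟨h6, h7⟩ := h5
  rw [bval_fPin] at h6
  refine ha i y s (ht _ _ _ hsr hrq) ((mem_nm hr ht f i y s).2 h6) ?_
  exact (ap_rel hr ht (v := scons (chk (RO (Fsp le)) y) (scons (chk (RO (Fsp le)) i)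
    (scons (chk (RO (Fsp le)) a) (scons f v)))) O (R := R + 4) (x := 0) (y := 2)
    hR y a rfl rfl s).1 h7

end Pool.Agent.PCel
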