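import Pool.Agent.Lib.PCel.Cmpa

/-!
# BIn: the product has an antichain of length `L`
-/

set_option autoImplicit false

namespace Pool.Agent.PCel

open Pool.Agent.Lib.BVM Pool.Agent.Lib.BVM.BSet Pool.Agent.PolB Pool.Agent.PolF

variable {P : Type} {le : P → P → Prop} {L : Type} [LinearOrder L] [WellFoundedLT L]

private theorem bin_ex (hr : ∀ p, le p p) (ht : ∀ p q r, le p q → le q r → le p r)
    {v : ℕ → BSet (RO (Fsp le))} {i : ℕ} (h : v i = chkAll (RO (Fsp le)) L) {φ : Fm} {p : P}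
    (hp : Ap p (bval (bEx i φ) v)) :
    ∃ q, le q p ∧ ∃ a : L, Ap q (bval φ (scons (chk (RO (Fsp le)) a) v)) := by
  rw [bEx_all h] at hp
  exact (Ap_iSup hr ht _ _).1 hp p (hr p)

private theorem bin_and {v : ℕ → BSet (RO (Fsp le))} {φ ψ : Fm} {p : P}
    (hp : Ap p (bval (.and φ ψ) v)) : Ap p (bval φ v) ∧ Ap p (bval ψ v) := by
  rw [bval] at hp
  exact hp

private theorem bin_gr {v : ℕ → BSet (RO (Fsp le))} {f x y : ℕ} {σ : L → L}
    (hf : v f = gr (RO (Fsp le)) σ) {i j : L} (hx : v x = chk (RO (Fsp le)) i)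
    (hy : v y = chk (RO (Fsp le)) j) {p : P} (hp : Ap p (bval (fPin f x y) v)) : j = σ i := by
  classical
  rw [bval_fPin, hf, hx, hy, mem_gr] at hp
  by_contra hne
  rw [if_neg hne] at hp
  exact Ap_bot p hp

theorem bval_pcc (hr : ∀ p, le p p) (ht : ∀ p q r, le p q → le q r → le p r)
    {v : ℕ → BSet (RO (Fsp le))} {l S R T Q : ℕ} (O O' : L × L → Set P) (σ : L → L)
    (hl : v l = chkAll (RO (Fsp le)) L) (hS : v S = chkAll (RO (Fsp le)) L)
    (hR : v R = relN (fun z : L × L => toB le O z)) (hT : v T = chkAll (RO (Fsp le)) L)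
    (hQ : v Q = relN (fun z : L × L => toB le O' z)) (h : FInc le O O' σ) :
    bval (fPCC l S R T Q) v = ⊥ := by
  rw [eq_bot_iff, le_iff_Ap]
  intro p hp
  exfalso
  unfold fPCC at hp
  rw [bval] at hp
  have h1 := (Ap_iInf hr ht _ _).1 hp (gr (RO (Fsp le)) σ)
  rw [bval] at h1
  have h2 := (Ap_iInf hr ht _ _).1 h1 (gr (RO (Fsp le)) σ)
  rw [bval] at h2
  have h3 := (Ap_himp hr ht _ _ _).1 h2 p (hr p) (ap_fun_gr hr ht (l := l + 2) (S := S + 2)
    (f := 1) hl hS σ rfl p)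
  rw [bval] at h3
  have h4 := (Ap_himp hr ht _ _ _).1 h3 p (hr p) (ap_fun_gr hr ht (l := l + 2) (S := T + 2)
    (f := 0) hl hT σ rfl p)
  obtain ⟨q1, -, i, h5⟩ := bin_ex (L := L) (i := l + 2) hr ht hl h4
  obtain ⟨q2, -, j, h6⟩ := bin_ex (L := L) (i := l + 3) hr ht hl h5
  obtain ⟨h7, h8⟩ := bin_and h6
  have hij : i < j := by
    by_contra hn
    rw [bval] at h7
    have h7' : Ap q2 (bMem (chk (RO (Fsp le)) i) (chk (RO (Fsp le)) j)) := h7
    rw [chk_mem_of_not_lt hn] at h7'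
    exact Ap_bot _ h7'
  obtain ⟨q3, -, y, h9⟩ := bin_ex (L := L) (i := S + 4) hr ht hS h8
  obtain ⟨q4, -, z, h10⟩ := bin_ex (L := L) (i := S + 5) hr ht hS h9
  obtain ⟨q5, -, u, h11⟩ := bin_ex (L := L) (i := T + 6) hr ht hT h10
  obtain ⟨q6, -, w, h12⟩ := bin_ex (L := L) (i := T + 7) hr ht hT h11
  obtain ⟨a1, h13⟩ := bin_and h12
  obtain ⟨a2, h14⟩ := bin_and h13
  obtain ⟨a3, h15⟩ := bin_and h14
  obtain ⟨a4, h16⟩ := bin_and h15
  obtain ⟨a5, a6⟩ := bin_and h16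
  have e1 := bin_gr (σ := σ) (i := i) (j := y) rfl rfl rfl a1
  have e2 := bin_gr (σ := σ) (i := j) (j := z) rfl rfl rfl a2
  have e3 := bin_gr (σ := σ) (i := i) (j := u) rfl rfl rfl a3
  have e4 := bin_gr (σ := σ) (i := j) (j := w) rfl rfl rfl a4
  have b5 := (ap_comp hr ht (S := S + 8) (R := R + 8) (x := 3) (y := 2) O hS hR y z rfl rfl q6).1 a5
  have b6 := (ap_comp hr ht (S := T + 8) (R := Q + 8) (x := 1) (y := 0) O' hT hQ u w rfl rfl q6).1 a6
  obtain ⟨r, hrq, a, c1, c2⟩ := b5 q6 (hr q6)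
  obtain ⟨s, hs, b, d1, d2⟩ := b6 r hrq
  rw [e1] at c1
  rw [e2] at c2
  rw [e3] at d1
  rw [e4] at d2
  exact h i j hij s a b (fun t htt => c1 t (ht _ _ _ htt hs))
    (fun t htt => c2 t (ht _ _ _ htt hs)) d1 d2

end Pool.Agent.PCel
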