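import Pool.Agent.Lib.PCel.Cmpa
import Pool.Agent.Lib.PolF.Bas

/-!
# BKn: Knaster's property
-/

set_option autoImplicit false

namespace Pool.Agent.PCel

open Pool.Agent.Lib.BVM Pool.Agent.Lib.BVM.BSet Pool.Agent.PolB Pool.Agent.PolF

variable {P : Type} {le : P → P → Prop} {W L : Type} [LinearOrder W] [WellFoundedLT W]
  [LinearOrder L] [WellFoundedLT L]

private theorem ap_ex_intro (x : ℕ) {v : ℕ → BSet (RO (Fsp le))} {I : Type} [LinearOrder I]
    [WellFoundedLT I] (h : v x = chkAll (RO (Fsp le)) I) (φ : Fm) (a : I) {p : P}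
    (ha : Ap p (bval φ (scons (chk (RO (Fsp le)) a) v))) : Ap p (bval (bEx x φ) v) := by
  rw [bEx_all h]
  exact le_iff_Ap.1 (le_iSup (fun a : I => bval φ (scons (chk (RO (Fsp le)) a) v)) a) p ha

private theorem mem_toB_nm (hr : ∀ p, le p p) (ht : ∀ p q r, le p q → le q r → le p r)
    {I J : Type} [LinearOrder I] [WellFoundedLT I] [LinearOrder J] [WellFoundedLT J]
    (e : I × J → Set P) (z : I × J) (s : P) :
    Mem le e z s ↔ Mem le (nm le I J (relN (fun z : I × J => toB le e z))) z s := by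
  obtain ⟨i, j⟩ := z
  rw [mem_nm hr ht, bMem_relN, Ap_toB hr ht]

theorem bval_kna (hr : ∀ p, le p p) (ht : ∀ p q r, le p q → le q r → le p r)
    {v : ℕ → BSet (RO (Fsp le))} {l S R : ℕ} (O : L × L → Set P)
    (hl : v l = chkAll (RO (Fsp le)) W) (hS : v S = chkAll (RO (Fsp le)) L)
    (hR : v R = relN (fun z : L × L => toB le O z)) (h : FKna le W L O) :
    bval (fKna l S R) v = ⊤ := by
  rw [top_iff_Ap]
  intro p
  unfold fKna
  rw [bval]
  refine (Ap_iInf hr ht _ _).2 fun f => ?_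
  rw [bval]
  refine (Ap_himp hr ht _ _ _).2 fun q _ hf => ?_
  have hf' : IsF le (nm le W L f) q :=
    (ap_fun hr ht (v := scons f v) (l := l + 1) (S := S + 1) (f := 0) hl hS q).1 hf
  rw [bval]
  refine (Ap_iSup hr ht _ _).2 fun q' hq' => ?_
  have hf'' : IsF le (nm le W L f) q' :=
    ⟨fun i => Exi_down ht hq' (hf'.1 i), fun i x y hxy => Neg_down ht hq' (hf'.2 i x y hxy)⟩
  obtain ⟨r, hrq, e, he, hK⟩ := h (nm le W L f) q' hf''
  refine ⟨r, hrq, relN (fun z : W × W => toB le e z), ?_⟩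
  rw [bval]
  refine (Ap_inf _ _ _).2 ⟨?_, ?_⟩
  · refine (ap_fun hr ht (v := scons (relN (fun z : W × W => toB le e z)) (scons f v)) (l := l + 2)
      (S := l + 2) (f := 0) hl hl r).2 ?_
    exact (IsF_congr (fun x s => mem_toB_nm hr ht e x s)).1 he
  · set w := scons (relN (fun z : W × W => toB le e z)) (scons f v) with hw
    have hwl : w (l + 2) = chkAll (RO (Fsp le)) W := hl
    rw [bAll_all hwl]
    refine (Ap_iInf hr ht _ _).2 fun i => ?_
    rw [bAll_all (I := W) (i := l + 3) (v := scons (chk (RO (Fsp le)) i) w) hl]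
    refine (Ap_iInf hr ht _ _).2 fun j => ?_
    rw [bval]
    refine (Ap_himp hr ht _ _ _).2 fun s hs hij => ?_
    have hlt : i < j := by
      by_contra hc
      have h0 : bval (.mem 1 0) (scons (chk (RO (Fsp le)) j) (scons (chk (RO (Fsp le)) i) w)) =
          (⊥ : RO (Fsp le)) := chk_mem_of_not_lt hc
      rw [h0] at hij
      exact Ap_bot s hij
    refine Ap_loc hr ht fun t ht' => ?_
    obtain ⟨t', ht'', a, b, hab, hea, heb, y, z, u, hFy, hFz, hOy, hOz⟩ :=
      hK i j hlt t (ht _ _ _ ht' hs)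
    refine ⟨t', ht'', ?_⟩
    refine ap_ex_intro (l + 4) (I := W) hl _ a ?_
    refine ap_ex_intro (l + 5) (I := W) hl _ b ?_
    rw [bval]
    refine (Ap_inf _ _ _).2 ⟨?_, ?_⟩
    · have h0 : bval (.mem 1 0) (scons (chk (RO (Fsp le)) b) (scons (chk (RO (Fsp le)) a)
          (scons (chk (RO (Fsp le)) j) (scons (chk (RO (Fsp le)) i) w)))) =
          (⊤ : RO (Fsp le)) := chk_mem_of_lt hab
      rw [h0]
      exact Ap_top _
    rw [bval]
    refine (Ap_inf _ _ _).2 ⟨?_, ?_⟩
    · rw [bval_fPin]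
      have h0 : Ap t' (bMem (opair (chk (RO (Fsp le)) i) (chk (RO (Fsp le)) a))
          (relN (fun z : W × W => toB le e z))) := by
        rw [bMem_relN, Ap_toB hr ht]
        exact hea
      exact h0
    rw [bval]
    refine (Ap_inf _ _ _).2 ⟨?_, ?_⟩
    · rw [bval_fPin]
      have h0 : Ap t' (bMem (opair (chk (RO (Fsp le)) j) (chk (RO (Fsp le)) b))
          (relN (fun z : W × W => toB le e z))) := by
        rw [bMem_relN, Ap_toB hr ht]
        exact heb
      exact h0
    refine ap_ex_intro (S + 6) (I := L) hS _ y ?_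
    refine ap_ex_intro (S + 7) (I := L) hS _ z ?_
    rw [bval]
    refine (Ap_inf _ _ _).2 ⟨?_, ?_⟩
    · rw [bval_fPin]
      have h0 : Ap t' (bMem (opair (chk (RO (Fsp le)) a) (chk (RO (Fsp le)) y)) f) :=
        (mem_nm hr ht f a y t').1 hFy
      exact h0
    rw [bval]
    refine (Ap_inf _ _ _).2 ⟨?_, ?_⟩
    · rw [bval_fPin]
      have h0 : Ap t' (bMem (opair (chk (RO (Fsp le)) b) (chk (RO (Fsp le)) z)) f) :=
        (mem_nm hr ht f b z t').1 hFz
      exact h0
    refine (ap_comp hr ht (L := L) (S := S + 8) (R := R + 8) (x := 1) (y := 0) O hS hR y z rfl rfl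
      t').2 fun t'' ht3 => ⟨t'', hr _, u, Mem_down ht ht3 hOy, Mem_down ht ht3 hOz⟩

end Pool.Agent.PCel
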