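import Pool.Agent.Lib.PCel.Cmpa

/-!
# BPr: the preorders

PROOF. `top_iff_Ap`, `Ap_inf`, `bAll_all`, `Ap_iInf`, `Ap_himp`, `ap_rel`, and `FPre` (`Mem_down` is `Ap_down` through `ap_rel`).
-/

set_option autoImplicit false

namespace Pool.Agent.PCel

open Pool.Agent.Lib.BVM Pool.Agent.Lib.BVM.BSet Pool.Agent.PolB Pool.Agent.PolF

variable {P : Type} {le : P → P → Prop} {L : Type} [LinearOrder L] [WellFoundedLT L]

private theorem bpr_and (φ ψ : Fm) (v : ℕ → BSet (RO (Fsp le))) (p : P) :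
    Ap p (bval (.and φ ψ) v) ↔ Ap p (bval φ v) ∧ Ap p (bval ψ v) := by
  rw [bval]
  exact Ap_inf p _ _

private theorem bpr_imp (hr : ∀ p, le p p) (ht : ∀ p q r, le p q → le q r → le p r)
    (φ ψ : Fm) (v : ℕ → BSet (RO (Fsp le))) (p : P) :
    Ap p (bval (.imp φ ψ) v) ↔ ∀ q, le q p → Ap q (bval φ v) → Ap q (bval ψ v) := by
  rw [bval]
  exact Ap_himp hr ht p _ _

theorem bval_pre (hr : ∀ p, le p p) (ht : ∀ p q r, le p q → le q r → le p r)
    {v : ℕ → BSet (RO (Fsp le))} {S R : ℕ} (O : L × L → Set P)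
    (hS : v S = chkAll (RO (Fsp le)) L) (hR : v R = relN (fun z : L × L => toB le O z))
    (h : FPre le O) : bval (fPre S R) v = ⊤ := by
  rw [top_iff_Ap]
  intro p
  rw [fPre, bpr_and]
  refine ⟨?_, ?_⟩
  · rw [bAll_all (I := L) hS, Ap_iInf hr ht]
    intro a
    exact (ap_rel hr ht (v := scons (chk (RO (Fsp le)) a) v) (R := R + 1) (x := 0) (y := 0)
      O hR a a rfl rfl p).2 (h.1 a p)
  · rw [bAll_all (I := L) hS, Ap_iInf hr ht]
    intro a
    rw [bAll_all (I := L) (i := S + 1) (v := scons (chk (RO (Fsp le)) a) v) hS, Ap_iInf hr ht]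
    intro b
    rw [bAll_all (I := L) (i := S + 2)
      (v := scons (chk (RO (Fsp le)) b) (scons (chk (RO (Fsp le)) a) v)) hS, Ap_iInf hr ht]
    intro c
    rw [bpr_imp hr ht]
    intro q hq h1
    rw [bpr_imp hr ht]
    intro r hrq h2
    have h1' := (ap_rel hr ht (v := scons (chk (RO (Fsp le)) c) (scons (chk (RO (Fsp le)) b)
      (scons (chk (RO (Fsp le)) a) v))) O (R := R + 3) (x := 2) (y := 1) hR a b rfl rfl r).1
      (Ap_down h1 hrq)
    have h2' := (ap_rel hr ht (v := scons (chk (RO (Fsp le)) c) (scons (chk (RO (Fsp le)) b)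
      (scons (chk (RO (Fsp le)) a) v))) O (R := R + 3) (x := 1) (y := 0) hR b c rfl rfl r).1 h2
    exact (ap_rel hr ht (v := scons (chk (RO (Fsp le)) c) (scons (chk (RO (Fsp le)) b)
      (scons (chk (RO (Fsp le)) a) v))) O (R := R + 3) (x := 2) (y := 0) hR a c rfl rfl r).2
      (h.2 a b c r h1' h2')

end Pool.Agent.PCel
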