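import Pool.Agent.Lib.PCel.Card
import Pool.Agent.Lib.PolF.Bas

/-!
# Bnd: ccc posets and bounds in a regular uncountable well order

PROOF. For `x : X` let `D x = {r | le r p ∧ ∃ b, R x r b}`; by Zorn there is a maximal antichain `A x ⊆ D x` (maximal
among the subsets of `D x` whose distinct elements have no common extension), countable by `hc`. For `r ∈ A x`
choose `β x r : K` with `R x r (β x r)`. The set `⋃ x, β x '' A x` has size `< #K` (`iUnion_lt`, `#X < #K`, each part countable,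
`ℵ₀ < #K`), so it is bounded by some `b` (`bdd`). Let `le q p`; by `h` there is `r`, `le r q`, `R x r b'`; so `r ∈ D x`. If `r` had
no common extension with any `a ∈ A x`, then `A x ∪ {r}` would be a bigger antichain (`r ∉ A x` since `le r r`). So there
are `a ∈ A x`, `s`, `le s r`, `le s a`; `R x s (β x a)` by `hd`, `R x s b` by `hu`.
-/

set_option autoImplicit false
set_option linter.unusedSectionVars false

namespace Pool.Agent.PCel

open Cardinal Pool.Agent.PolF

variable {P : Type} {le : P → P → Prop} {K : Type} [LinearOrder K] [WellFoundedLT K]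

/-- maximal antichain inside a set of conditions -/
private theorem maxAnti (le : P → P → Prop) (D : Set P) :
    ∃ A : Set P, A ⊆ D ∧ (∀ a ∈ A, ∀ b ∈ A, a ≠ b → ¬ ∃ r, le r a ∧ le r b) ∧
      ∀ r ∈ D, le r r → ∃ a ∈ A, ∃ s, le s r ∧ le s a := by
  classical
  obtain ⟨A, hA⟩ := zorn_subset
    {A : Set P | A ⊆ D ∧ ∀ a ∈ A, ∀ b ∈ A, a ≠ b → ¬ ∃ r, le r a ∧ le r b} (by
      intro c hcS hch
      refine ⟨⋃₀ c, ⟨Set.sUnion_subset fun s hs => (hcS hs).1, ?_⟩,
        fun s hs => Set.subset_sUnion_of_mem hs⟩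
      rintro a ⟨s, hs, has⟩ b ⟨t, ht, hbt⟩ hab
      rcases hch.total hs ht with h | h
      · exact (hcS ht).2 a (h has) b hbt hab
      · exact (hcS hs).2 a has b (h hbt) hab)
  refine ⟨A, hA.1.1, hA.1.2, fun r hrD hrr => ?_⟩
  by_contra hcon
  push Not at hcon
  have hin : insert r A ∈
      {A : Set P | A ⊆ D ∧ ∀ a ∈ A, ∀ b ∈ A, a ≠ b → ¬ ∃ r, le r a ∧ le r b} := by
    refine ⟨Set.insert_subset hrD hA.1.1, ?_⟩
    intro a ha b hb hab
    rcases ha with rfl | ha
    · rcases hb with rfl | hb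
      · exact absurd rfl hab
      · rintro ⟨s, hs1, hs2⟩
        exact hcon b hb s hs1 hs2
    · rcases hb with rfl | hb
      · rintro ⟨s, hs1, hs2⟩
        exact hcon a ha s hs2 hs1
      · exact hA.1.2 a ha b hb hab
  have hsub := hA.2 hin (Set.subset_insert r A)
  have hrA : r ∈ A := hsub (Set.mem_insert r A)
  exact hcon r hrA r hrr hrr

theorem bnd (hr : ∀ p, le p p) (ht : ∀ p q r, le p q → le q r → le p r) (hc : Ccc le)
    (hK : RegW K) {X : Type} (hX : #X < #K) (R : X → P → K → Prop)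
    (hd : ∀ x p q b, le q p → R x p b → R x q b) (hu : ∀ x p b b', b ≤ b' → R x p b → R x p b')
    (p : P) (h : ∀ x q, le q p → ∃ r, le r q ∧ ∃ b, R x r b) :
    ∃ b, ∀ x q, le q p → ∃ r, le r q ∧ R x r b := by
  classical
  choose A hAD hAa hAm using fun x => maxAnti le {r | le r p ∧ ∃ b, R x r b}
  have hβ : ∀ x : X, ∀ r : A x, ∃ b, R x r.1 b := fun x r => (hAD x r.2).2
  choose β hβ' using hβ
  have hcount : ∀ x, #(Set.range (β x)) < #K := by
    intro x
    have hAc : (A x).Countable := hc (A x) (hAa x)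
    have : Countable (A x) := hAc.to_subtype
    refine lt_of_le_of_lt ?_ hK.unc
    exact (Set.countable_range (β x)).le_aleph0
  have hU := hK.iUnion_lt hX (fun x => Set.range (β x)) hcount
  obtain ⟨b, hb⟩ := hK.bdd _ hU
  refine ⟨b, fun x q hq => ?_⟩
  obtain ⟨r, hrq, b', hb'⟩ := h x q hq
  obtain ⟨a, ha, s, hsr, hsa⟩ := hAm x r ⟨ht _ _ _ hrq hq, b', hb'⟩ (hr r)
  refine ⟨s, ht _ _ _ hsr hrq, ?_⟩
  refine hu x s (β x ⟨a, ha⟩) b (hb _ (Set.mem_iUnion.2 ⟨x, ⟨a, ha⟩, rfl⟩)).le ?_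
  exact hd x a s _ hsa (hβ' x ⟨a, ha⟩)

end Pool.Agent.PCel
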