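import Pool.Agent.Lib.PCel.Defs

/-!
# Card: cardinal arithmetic of regular uncountable well orders

PROOF. Compare `Lib/PolF/Crk.lean` (`InO.reg`, `InO.union_lt`, `InO.bUnion_lt`, same proofs) and
`InO_toType` of `Lib/PolF`. `fiber`: `univ = ⋃ a, {i | c i = a}`; if all fibres had size `< #K`, then
`#ι < #K` by `iUnion_lt` for a countable index set (`C` countable, `ℵ₀ < #K`; `iUnion_lt` has `ι`, `X` in
`Type`). `bddF`: `⋃ s ∈ S, ↑s` has size `< #K` (`iUnion_lt`, index type `S`, each `s` finite), then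
`bdd`. `exists_code`: `#(Finset K) = #K` (`Cardinal.mk_finset_of_infinite`), so there is a bijection.
`nomax`: `bdd {a}`. `sup`: the set of all strict upper bounds of `S` is nonempty (`bdd`), take the
least element; it is the least strict upper bound.
-/

set_option autoImplicit false
set_option linter.unusedSectionVars false

namespace Pool.Agent.PCel

open Cardinal

variable {K : Type} [LinearOrder K] [WellFoundedLT K]

private theorem card_bdd {c : Cardinal.{0}} (hc : c.IsRegular) (S : Set c.ord.ToType)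
    (hS : #S < c) : ∃ b, ∀ s ∈ S, s < b := by
  by_contra hcon
  push Not at hcon
  have h1 : IsCofinal S := fun a => by
    obtain ⟨s, hs, h⟩ := hcon a
    exact ⟨s, hs, h⟩
  have h2 := Order.cof_le h1
  rw [Ordinal.cof_toType, hc.cof_ord] at h2
  exact absurd hS (not_lt.mpr h2)

theorem regW_toType (c : Cardinal.{0}) (hc : c.IsRegular) (h : ℵ₀ < c) : RegW c.ord.ToType where
  unc := by
    rw [mk_ord_toType]
    exact h
  iio b := by simpa using mk_Iio_lt b
  bdd S hS := card_bdd hc S (by simpa using hS)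

theorem RegW.reg (hK : RegW K) : (#K).IsRegular := by
  refine ⟨hK.unc.le, ?_⟩
  have h1 : (#K).ord = Ordinal.type (α := K) (· < ·) := by
    refine le_antisymm (Cardinal.ord_le_type _) ?_
    refine le_of_forall_lt fun o ho => ?_
    obtain ⟨b, rfl⟩ := Ordinal.typein_surj (α := K) (· < ·) ho
    rw [Cardinal.lt_ord, Ordinal.card_typein]
    exact hK.iio b
  rw [h1, Ordinal.cof_type, Order.le_cof_iff]
  intro S hS
  by_contra hlt
  obtain ⟨b, hb⟩ := hK.bdd S (not_le.1 hlt)
  obtain ⟨c, hc, hbc⟩ := hS b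
  exact absurd (hb c hc) (not_lt.2 hbc)

theorem RegW.iUnion_lt (hK : RegW K) {ι X : Type} (hι : #ι < #K) (s : ι → Set X)
    (hs : ∀ i, #(s i) < #K) : #(⋃ i, s i : Set X) < #K :=
  (card_iUnion_lt_iff_forall_of_isRegular hK.reg hι).2 hs

theorem RegW.fiber (hK : RegW K) {ι : Type} (hι : #K ≤ #ι) {C : Type} [Countable C] (c : ι → C) :
    ∃ a, #K ≤ #{i // c i = a} := by
  by_contra hcon
  push Not at hcon
  have h1 : #(⋃ a : C, {i | c i = a} : Set ι) < #K := by
    refine hK.iUnion_lt ?_ _ ?_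
    · exact lt_of_le_of_lt (Cardinal.mk_le_aleph0_iff.2 inferInstance) hK.unc
    · intro a
      exact hcon a
  have h2 : (⋃ a : C, {i | c i = a} : Set ι) = Set.univ := by
    ext i
    simp
  rw [h2, Cardinal.mk_univ] at h1
  exact absurd hι (not_le.2 h1)

theorem RegW.bddF (hK : RegW K) (S : Set (Finset K)) (hS : #S < #K) :
    ∃ b, ∀ s ∈ S, ∀ x ∈ s, x < b := by
  have h1 : #(⋃ s : S, ((s : Finset K) : Set K) : Set K) < #K := by
    refine hK.iUnion_lt hS _ ?_
    intro s
    refine lt_trans ?_ hK.unc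
    exact Cardinal.lt_aleph0_of_finite _
  obtain ⟨b, hb⟩ := hK.bdd _ h1
  exact ⟨b, fun s hs x hx => hb x (Set.mem_iUnion.2 ⟨⟨s, hs⟩, hx⟩)⟩

theorem RegW.exists_code (hK : RegW K) : ∃ φ : K → Finset K, Function.Surjective φ := by
  have : Infinite K := Cardinal.infinite_iff.2 hK.unc.le
  have h1 : #K = #(Finset K) := (Cardinal.mk_finset_of_infinite K).symm
  obtain ⟨e⟩ := Cardinal.eq.1 h1
  exact ⟨e, e.surjective⟩

theorem RegW.ne (hK : RegW K) : Nonempty K := by
  rw [← Cardinal.mk_ne_zero_iff]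
  intro h0
  have h1 := hK.unc
  rw [h0] at h1
  exact absurd h1 (not_lt.2 (Cardinal.zero_le _))

theorem RegW.nomax (hK : RegW K) (a : K) : ∃ b, a < b := by
  obtain ⟨b, hb⟩ := hK.bdd {a} (by
    rw [Cardinal.mk_singleton]
    exact lt_trans Cardinal.one_lt_aleph0 hK.unc)
  exact ⟨b, hb a rfl⟩

end Pool.Agent.PCel
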