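import Pool.Agent.Lib.PCel.Defs

/-!
# Enm: increasing enumeration of a finite set
-/

set_option autoImplicit false

namespace Pool.Agent.PCel

theorem enm {X K : Type} [LinearOrder K] [Nonempty X] (A : Finset X) (g : X → K)
    (hg : ∀ x ∈ A, ∀ y ∈ A, g x = g y → x = y) :
    ∃ (n : ℕ) (e : ℕ → X), (∀ k l, k < l → l < n → g (e k) < g (e l)) ∧ (∀ k < n, e k ∈ A) ∧
      ∀ x ∈ A, ∃ k < n, e k = x := by
  classical
  let B : Finset K := A.image g
  have hsel : ∀ k : Fin B.card, ∃ x ∈ A, g x = B.orderEmbOfFin rfl k := fun k => by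
    have h1 : B.orderEmbOfFin rfl k ∈ B := Finset.orderEmbOfFin_mem B rfl k
    obtain ⟨x, hx, he⟩ := Finset.mem_image.1 h1
    exact ⟨x, hx, he⟩
  choose s hs hgs using hsel
  refine ⟨B.card, fun k => if h : k < B.card then s ⟨k, h⟩ else Classical.arbitrary X, ?_, ?_, ?_⟩
  · intro k l hkl hl
    have hk : k < B.card := hkl.trans hl
    simp only [hk, hl, dif_pos]
    rw [hgs, hgs]
    exact (B.orderEmbOfFin rfl).strictMono hkl
  · intro k hk
    simp only [hk, dif_pos]
    exact hs _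
  · intro x hx
    have h1 : g x ∈ Set.range (B.orderEmbOfFin rfl) := by
      rw [Finset.range_orderEmbOfFin]
      exact Finset.mem_coe.2 (Finset.mem_image_of_mem g hx)
    obtain ⟨k, hk⟩ := h1
    refine ⟨k.1, k.2, ?_⟩
    simp only [k.2, dif_pos]
    exact hg _ (hs _) _ hx ((hgs _).trans hk)

end Pool.Agent.PCel
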