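import Pool.Agent.Lib.PCel.Card

/-!
# Heads: heads and tails
-/

set_option autoImplicit false
set_option linter.unusedSectionVars false

namespace Pool.Agent.PCel

open Cardinal

variable {K : Type} [LinearOrder K] [WellFoundedLT K]

theorem heads (hK : RegW K) (n : ℕ) : ∀ {ι : Type}, #K ≤ #ι → ∀ e : ι → ℕ → K,
    (∀ i k l, k < l → l < n → e i k < e i l) →
    ∃ i j, i ≠ j ∧ ∃ m ≤ n, (∀ k < m, e i k = e j k) ∧
      ∀ k l, m ≤ k → k < n → m ≤ l → l < n → e i k < e j l := by
  induction n with
  | zero =>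
    intro ι hι e _
    have h1 : (1 : Cardinal) < #ι :=
      (Cardinal.one_lt_aleph0.trans hK.unc).trans_le hι
    haveI : Nontrivial ι := Cardinal.one_lt_iff_nontrivial.1 h1
    obtain ⟨i, j, hij⟩ := exists_pair_ne ι
    exact ⟨i, j, hij, 0, le_refl _, fun k hk => absurd hk (Nat.not_lt_zero _),
      fun k l _ hk => absurd hk (Nat.not_lt_zero _)⟩
  | succ n ih =>
    intro ι hι e he
    by_cases h : ∃ a, #K ≤ #{i // e i 0 = a}
    · obtain ⟨a, ha⟩ := h
      obtain ⟨i, j, hij, m, hm, h1, h2⟩ := ih ha (fun i k => e i.1 (k + 1))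
        (fun i k l hkl hl => he i.1 (k + 1) (l + 1) (Nat.succ_lt_succ hkl) (Nat.succ_lt_succ hl))
      refine ⟨i.1, j.1, fun h => hij (Subtype.ext h), m + 1, Nat.succ_le_succ hm, ?_, ?_⟩
      · intro k hk
        rcases k with _ | k
        · exact i.2.trans j.2.symm
        · exact h1 k (Nat.lt_of_succ_lt_succ hk)
      · intro k l hmk hk hml hl
        rcases k with _ | k
        · exact absurd hmk (Nat.not_succ_le_zero _)
        rcases l with _ | l
        · exact absurd hml (Nat.not_succ_le_zero _)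
        exact h2 k l (Nat.le_of_succ_le_succ hmk) (Nat.lt_of_succ_lt_succ hk)
          (Nat.le_of_succ_le_succ hml) (Nat.lt_of_succ_lt_succ hl)
    · push Not at h
      have hne : Nonempty ι := by
        have h1 : (0 : Cardinal) < #ι :=
          (Cardinal.aleph0_pos.trans hK.unc).trans_le hι
        exact Cardinal.mk_ne_zero_iff.1 h1.ne'
      obtain ⟨i⟩ := hne
      obtain ⟨b, hb⟩ := hK.nomax (e i n)
      have hex : ∃ j, e i n < e j 0 := by
        by_contra hc
        push Not at hc
        have h3 := hK.iUnion_lt (ι := Set.Iio b) (X := ι) (hK.iio b)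
          (fun a => {j | e j 0 = a.1}) (fun a => h a.1)
        have h4 : (⋃ a : Set.Iio b, {j | e j 0 = a.1}) = (Set.univ : Set ι) := by
          refine Set.eq_univ_of_forall fun j => ?_
          exact Set.mem_iUnion.2 ⟨⟨e j 0, (hc j).trans_lt hb⟩, rfl⟩
        rw [h4, Cardinal.mk_univ] at h3
        exact absurd h3 (not_lt.2 hι)
      obtain ⟨j, hj⟩ := hex
      have hmono : ∀ (i : ι) (k l : ℕ), k ≤ l → l < n + 1 → e i k ≤ e i l := fun i k l hkl hl => by
        rcases hkl.lt_or_eq with h | h
        · exact (he i k l h hl).le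
        · rw [h]
      refine ⟨i, j, ?_, 0, Nat.zero_le _, fun k hk => absurd hk (Nat.not_lt_zero _), ?_⟩
      · intro h
        rw [← h] at hj
        exact absurd hj (not_lt.2 (hmono i 0 n (Nat.zero_le _) (Nat.lt_succ_self _)))
      · intro k l _ hk _ hl
        exact (hmono i k n (Nat.le_of_lt_succ hk) (Nat.lt_succ_self _)).trans_lt
          (hj.trans_le (hmono j 0 l (Nat.zero_le _) hl))

end Pool.Agent.PCel
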