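import Pool.Agent.Lib.PCel.Defs

/-!
# Ptn: there are countably many patterns; supports are finite

PROOF. `C = Finset (ℕ × ℕ) × Finset (ℕ × ℕ) × Finset ((ℕ × Finset ℕ) × ℕ)`,
`pt n e p = (((range n) ×ˢ (range n)).filter (fun x => (e x.1, e x.2) ∈ p.c), (the same with p.z),
(((range n) ×ˢ (range n).powerset) ×ˢ (p.h.image Prod.snd)).filter
  (fun x => ((e x.1.1, x.1.2.image e), x.2) ∈ p.h))`. Equality of the three sets gives `Pat`
(`Finset.ext_iff`; for `h` use that a label `m` of a member of `p.h` is in `p.h.image Prod.snd`).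
`supp_fin`: the union of the images of `p.c`, `p.z`, `p.h` under `Prod.fst`, `fun x => x.1.1`, and
`p.h.biUnion (fun x => x.1.2)`.
-/

set_option autoImplicit false

namespace Pool.Agent.PCel

theorem exists_pt (X : Type) [LinearOrder X] :
    ∃ (C : Type) (_ : Countable C) (pt : ℕ → (ℕ → X) → Cd X → C),
      ∀ n e p f q, pt n e p = pt n f q → Pat n e p f q := by
  refine ⟨Finset (ℕ × ℕ) × Finset (ℕ × ℕ) × Finset ((ℕ × Finset ℕ) × ℕ), inferInstance,
    fun n e p =>
      (((Finset.range n) ×ˢ (Finset.range n)).filter (fun x => (e x.1, e x.2) ∈ p.c),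
       ((Finset.range n) ×ˢ (Finset.range n)).filter (fun x => (e x.1, e x.2) ∈ p.z),
       (((Finset.range n) ×ˢ (Finset.range n).powerset) ×ˢ (p.h.image Prod.snd)).filter
         (fun x => ((e x.1.1, x.1.2.image e), x.2) ∈ p.h)), ?_⟩
  intro n e p f q h
  rw [Prod.mk.injEq, Prod.mk.injEq] at h
  obtain ⟨h1, h2, h3⟩ := h
  refine ⟨?_, ?_, ?_⟩
  · intro k hk l hl
    have := Finset.ext_iff.1 h1 (k, l)
    simpa [hk, hl] using this
  · intro k hk l hl
    have := Finset.ext_iff.1 h2 (k, l)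
    simpa [hk, hl] using this
  · intro k hk s hs m
    have h4 := Finset.ext_iff.1 h3 ((k, s), m)
    have hs' : s ⊆ Finset.range n := fun l hl => Finset.mem_range.2 (hs l hl)
    simp only [Finset.mem_filter, Finset.mem_product, Finset.mem_range, Finset.mem_powerset,
      Finset.mem_image] at h4
    constructor
    · intro h5
      exact (h4.1 ⟨⟨⟨hk, hs'⟩, ⟨_, h5, rfl⟩⟩, h5⟩).2
    · intro h5
      exact (h4.2 ⟨⟨⟨hk, hs'⟩, ⟨_, h5, rfl⟩⟩, h5⟩).2

theorem supp_fin {X : Type} [LinearOrder X] (p : Cd X) : ∃ A : Finset X, p.Sub (A : Set X) := by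
  refine ⟨p.c.image Prod.fst ∪ p.z.image Prod.fst ∪ p.h.image (fun x => x.1.1) ∪
    p.h.biUnion (fun x => x.1.2), ?_, ?_, ?_, ?_⟩
  · intro x y h
    simp only [Finset.coe_union, Set.mem_union, Finset.mem_coe, Finset.mem_image,
      Finset.mem_biUnion]
    exact Or.inl (Or.inl (Or.inl ⟨_, h, rfl⟩))
  · intro x y h
    simp only [Finset.coe_union, Set.mem_union, Finset.mem_coe, Finset.mem_image,
      Finset.mem_biUnion]
    exact Or.inl (Or.inl (Or.inr ⟨_, h, rfl⟩))
  · intro d s m h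
    simp only [Finset.coe_union, Set.mem_union, Finset.mem_coe, Finset.mem_image,
      Finset.mem_biUnion]
    exact Or.inl (Or.inr ⟨_, h, rfl⟩)
  · intro d s m h x hx
    simp only [Finset.coe_union, Set.mem_union, Finset.mem_coe, Finset.mem_image,
      Finset.mem_biUnion]
    exact Or.inr ⟨_, h, hx⟩

end Pool.Agent.PCel
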