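import Pool.Agent.Lib.PCel.Card
import Pool.Agent.Lib.PCel.Heads
import Pool.Agent.Lib.PCel.Enm
import Pool.Agent.Lib.PCel.Ptn
import Pool.Agent.Lib.PCel.Amz

/-!
# Ccd: the conditions have the countable chain condition

PROOF. Let `A` be an antichain, not countable. `K = (ℵ₁).ord.ToType`, `RegW K` (`regW_toType`,
`Cardinal.isRegular_aleph_one`), `#K = ℵ₁ ≤ #A`: there is an injective `p : K → Cd X` with values in `A`. `S i`
= finite support of `p i` (`supp_fin`). `V = ⋃ i, S i ⊆ X` has `#V ≤ ℵ₁ = #K`, so there is `g : X → K` injective on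
`V` (`Cardinal.le_def`, extend by a constant). `X` is nonempty? If `X` is empty then `Cd X` is countable: all
finsets `c, z, h` are empty, so `Cd X` has at most one element. For each `i` take `n i`, `e i` from `enm (S i) g`.
`RegW.fiber` for `i ↦ (n i, pt (n i) (e i) (p i)) : ℕ × C` gives a fibre `ι` with `#K ≤ #ι`, on which `n i = n` and the
patterns agree. `heads` for `fun i k => g (e i k)` gives `i ≠ j`, `m`. `hroot` of `amz`: `e i k = e j l`, `k, l < n`: apply `g`; if
`k, l ≥ m` then `g (e i k) < g (e j l)`; if `k < m ≤ l`: `g (e i k) = g (e j k) < g (e j l)`; if `l < m ≤ k`: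
`g (e j l) = g (e i l) < g (e i k)`; if `k, l < m`: `g (e i k) = g (e j k) = g (e j l)` so `k = l` by strictness. `amz` gives a
common extension of `p i ≠ p j`, a contradiction.
-/

set_option autoImplicit false

namespace Pool.Agent.PCel

open Cardinal

private theorem sub_mono {X : Type} [LT X] {p : Cd X} {A B : Set X} (h : p.Sub A) (hAB : A ⊆ B) :
    p.Sub B :=
  ⟨fun x y hx => hAB (h.c x y hx), fun x y hx => hAB (h.z x y hx),
    fun d s m hx => hAB (h.hd d s m hx), fun d s m hx x hxs => hAB (h.hs d s m hx x hxs)⟩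

private theorem cd_subsingleton {X : Type} [LT X] [IsEmpty X] : Subsingleton (Cd X) := by
  constructor
  intro p q
  have h1 : p.c = q.c := Finset.ext fun x => (IsEmpty.false x.1).elim
  have h2 : p.z = q.z := Finset.ext fun x => (IsEmpty.false x.1).elim
  have h3 : p.h = q.h := Finset.ext fun x => (IsEmpty.false x.1.1).elim
  cases p; cases q
  simp only at h1 h2 h3
  subst h1; subst h2; subst h3
  rfl

private theorem ccd_aux {X : Type} [LinearOrder X] [Nonempty X] {K : Type} [LinearOrder K]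
    [WellFoundedLT K] (hR : RegW K) (A : Set (Cd X))
    (hA : ∀ p ∈ A, ∀ q ∈ A, p ≠ q → ¬ ∃ r, Le r p ∧ Le r q) (hAK : #K ≤ #A) : False := by
  obtain ⟨p⟩ := (Cardinal.le_def K A).1 hAK
  choose S hS using fun i : K => supp_fin (p i).1
  have hV : #(⋃ i, (S i : Set X) : Set X) ≤ #K := by
    refine le_trans (Cardinal.mk_iUnion_le _) ?_
    have h1 : (⨆ i, #((S i : Set X) : Set X)) ≤ ℵ₀ := by
      have : Nonempty K := hR.ne
      exact ciSup_le' fun i => (Cardinal.mk_le_aleph0_iff.2 (S i).countable_toSet.to_subtype)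
    refine le_trans (mul_le_mul' le_rfl (le_trans h1 hR.unc.le)) ?_
    exact (Cardinal.mul_eq_self hR.unc.le).le
  obtain ⟨g, hg⟩ : ∃ g : X → K, Set.InjOn g (⋃ i, (S i : Set X)) := by
    obtain ⟨f⟩ := (Cardinal.le_def _ _).1 hV
    have : Nonempty K := hR.ne
    classical
    refine ⟨fun x => if h : x ∈ ⋃ i, (S i : Set X) then f ⟨x, h⟩ else Classical.arbitrary K, ?_⟩
    intro x hx y hy hxy
    simp only [dif_pos hx, dif_pos hy] at hxy
    exact congrArg Subtype.val (f.injective hxy)
  have hgi : ∀ i, ∀ x ∈ S i, ∀ y ∈ S i, g x = g y → x = y := by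
    intro i x hx y hy hxy
    exact hg (Set.mem_iUnion.2 ⟨i, hx⟩) (Set.mem_iUnion.2 ⟨i, hy⟩) hxy
  choose n e he1 he2 he3 using fun i => enm (S i) g (hgi i)
  obtain ⟨C, hC, pt, hpt⟩ := exists_pt X
  obtain ⟨⟨N, c⟩, ha⟩ := RegW.fiber hR (ι := K) le_rfl (fun i => (n i, pt (n i) (e i) (p i).1))
  have hN : ∀ i : {i // (n i, pt (n i) (e i) (p i).1) = (N, c)}, n i.1 = N := fun i =>
    (Prod.mk.injEq _ _ _ _ ▸ i.2).1
  have hc : ∀ i : {i // (n i, pt (n i) (e i) (p i).1) = (N, c)}, pt N (e i.1) (p i.1).1 = c := by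
    intro i
    have h1 := hN i
    have h2 : pt (n i.1) (e i.1) (p i.1).1 = c := (Prod.mk.injEq _ _ _ _ ▸ i.2).2
    rwa [h1] at h2
  obtain ⟨i, j, hij, m, hm, h1, h2⟩ := heads hR N ha (fun i k => g (e i.1 k))
    (fun i k l hkl hl => he1 i.1 k l hkl (by rw [hN i]; exact hl))
  have hne : p i.1 ≠ p j.1 := fun h => hij (Subtype.ext (p.injective h))
  refine hA _ (p i.1).2 _ (p j.1).2 (fun h => hne (Subtype.ext h)) ?_
  have mono : ∀ i : {i // (n i, pt (n i) (e i) (p i).1) = (N, c)}, ∀ k l, k < l → l < N →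
      g (e i.1 k) < g (e i.1 l) := fun i k l hkl hl => he1 i.1 k l hkl (by rw [hN i]; exact hl)
  have inj : ∀ i : {i // (n i, pt (n i) (e i) (p i).1) = (N, c)}, ∀ k < N, ∀ l < N,
      g (e i.1 k) = g (e i.1 l) → k = l := by
    intro i k hk l hl h
    rcases lt_trichotomy k l with h3 | h3 | h3
    · exact absurd h (ne_of_lt (mono i k l h3 hl))
    · exact h3
    · exact absurd h (ne_of_gt (mono i l k h3 hk))
  refine amz N (e i.1) (e j.1) (p i.1).1 (p j.1).1 ?_ ?_ (hpt _ _ _ _ _ ?_) ?_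
  · refine sub_mono (hS i.1) fun x hx => ?_
    obtain ⟨k, hk, hkx⟩ := he3 i.1 x hx
    exact ⟨k, by rw [← hN i]; exact hk, hkx⟩
  · refine sub_mono (hS j.1) fun x hx => ?_
    obtain ⟨k, hk, hkx⟩ := he3 j.1 x hx
    exact ⟨k, by rw [← hN j]; exact hk, hkx⟩
  · rw [hc i, hc j]
  · intro k hk l hl hkl
    have hgk : g (e i.1 k) = g (e j.1 l) := by rw [hkl]
    rcases lt_or_ge k m with hkm | hkm
    · rcases lt_or_ge l m with hlm | hlm
      · exact inj i k hk l hl (by rw [hgk]; exact (h1 l hlm).symm)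
      · exfalso
        have h3 : g (e i.1 k) = g (e j.1 k) := h1 k hkm
        have h4 := mono j k l (by omega) hl
        rw [← h3, hgk] at h4
        exact lt_irrefl _ h4
    · rcases lt_or_ge l m with hlm | hlm
      · exfalso
        have h3 : g (e i.1 l) = g (e j.1 l) := h1 l hlm
        have h4 := mono i l k (by omega) hk
        rw [h3, hgk] at h4
        exact lt_irrefl _ h4
      · exfalso
        have h4 := h2 k l hkm hk hlm hl
        rw [hgk] at h4
        exact lt_irrefl _ h4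

theorem ccd (X : Type) [LinearOrder X] : Ccc (Le : Cd X → Cd X → Prop) := by
  intro A hA
  by_contra hunc
  rcases isEmpty_or_nonempty X with hX | hX
  · apply hunc
    have : Subsingleton (Cd X) := cd_subsingleton
    exact (Set.subsingleton_of_subsingleton (s := A)).countable
  · have hR : RegW (ℵ₁ : Cardinal.{0}).ord.ToType :=
      regW_toType ℵ₁ Cardinal.isRegular_aleph_one Cardinal.aleph0_lt_aleph_one
    have hKc : #((ℵ₁ : Cardinal.{0}).ord.ToType) = ℵ₁ := Cardinal.mk_ord_toType ℵ₁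
    refine ccd_aux hR A hA ?_
    rw [hKc]
    rw [Cardinal.countable_iff_lt_aleph_one, not_lt] at hunc
    exact hunc

end Pool.Agent.PCel
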