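import Pool.Agent.Lib.PCel.Card
import Pool.Agent.Lib.PCel.Heads
import Pool.Agent.Lib.PCel.Enm
import Pool.Agent.Lib.PCel.Ptn
import Pool.Agent.Lib.PCel.Amo

/-!
# Ccq: the combinatorial core of the `L`-chain condition of the second poset

PROOF. `A i` = `supp_fin (p i)` ∪ `s i`. `enm (A i) id` gives `n i`, `e i` (strictly increasing). Let
`t i = (range (n i)).filter (fun k => e i k ∈ s i)`, so `(t i).image (e i) = s i`. `RegW.fiber` for
`i ↦ (n i, pt (n i) (e i) (p i), t i) : ℕ × C × Finset ℕ` gives a fibre with `n`, `t` constant and equal patterns; `heads`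
(for `e`) gives `i ≠ j`, `m`. `amo` with `s := t`, `hc`: `e i k`, `e i l ∈ s i`, different by strictness, `hs`. The conclusion
is symmetric in `i`, `j` (`Finset.union_comm`), so `i < j` or `j < i` are both fine.
-/

set_option autoImplicit false

namespace Pool.Agent.PCel

open Cardinal

theorem ccq {L : Type} [LinearOrder L] [WellFoundedLT L] (hL : RegW L) (p : L → Cd L)
    (s : L → Finset L) (hs : ∀ i, ∀ x ∈ s i, ∀ y ∈ s i, x ≠ y → (x, y) ∈ (p i).c) :
    ∃ i j, i < j ∧ ∃ r, Le r (p i) ∧ Le r (p j) ∧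
      ∀ x ∈ s i ∪ s j, ∀ y ∈ s i ∪ s j, x ≠ y → (x, y) ∈ r.c := by
  classical
  have : Nonempty L := hL.ne
  choose B hB using fun i => supp_fin (p i)
  -- supports
  have hen : ∀ i, ∃ (n : ℕ) (e : ℕ → L), (∀ k l, k < l → l < n → e k < e l) ∧
      (∀ k < n, e k ∈ B i ∪ s i) ∧ ∀ x ∈ B i ∪ s i, ∃ k < n, e k = x := fun i =>
    enm (B i ∪ s i) (fun x => x) (fun x _ y _ h => h)
  choose n e he1 he2 he3 using hen
  have hinj : ∀ i k l, k < n i → l < n i → e i k = e i l → k = l := by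
    intro i k l hk hl hkl
    rcases lt_trichotomy k l with h | h | h
    · exact absurd hkl (ne_of_lt (he1 i k l h hl))
    · exact h
    · exact absurd hkl.symm (ne_of_lt (he1 i l k h hk))
  obtain ⟨C, hC, pt, hpt⟩ := exists_pt L
  let t : L → Finset ℕ := fun i => (Finset.range (n i)).filter (fun k => e i k ∈ s i)
  have htm : ∀ i k, k ∈ t i ↔ k < n i ∧ e i k ∈ s i := by
    intro i k
    simp [t]
  have htim : ∀ i, (t i).image (e i) = s i := by
    intro i
    ext x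
    rw [Finset.mem_image]
    constructor
    · rintro ⟨k, hk, rfl⟩
      exact ((htm i k).1 hk).2
    · intro hx
      obtain ⟨k, hk, hkx⟩ := he3 i x (Finset.mem_union_right _ hx)
      exact ⟨k, (htm i k).2 ⟨hk, hkx.symm ▸ hx⟩, hkx⟩
  obtain ⟨⟨n0, c0, t0⟩, hfib⟩ := hL.fiber (ι := L) le_rfl
    (fun i => (n i, pt (n i) (e i) (p i), t i))
  obtain ⟨i, j, hij, m, hm, hhead, htail⟩ := heads hL n0
    (ι := {i // (n i, pt (n i) (e i) (p i), t i) = (n0, c0, t0)}) hfib (fun i => e i.1)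
    (by
      rintro ⟨i, hi⟩ k l hkl hl
      have : n i = n0 := (Prod.ext_iff.1 hi).1
      exact he1 i k l hkl (this ▸ hl))
  obtain ⟨i, hi⟩ := i
  obtain ⟨j, hj⟩ := j
  have hni : n i = n0 := (Prod.ext_iff.1 hi).1
  have hnj : n j = n0 := (Prod.ext_iff.1 hj).1
  have hpi : pt (n i) (e i) (p i) = c0 := (Prod.ext_iff.1 (Prod.ext_iff.1 hi).2).1
  have hpj : pt (n j) (e j) (p j) = c0 := (Prod.ext_iff.1 (Prod.ext_iff.1 hj).2).1
  have hti : t i = t0 := (Prod.ext_iff.1 (Prod.ext_iff.1 hi).2).2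
  have htj : t j = t0 := (Prod.ext_iff.1 (Prod.ext_iff.1 hj).2).2
  have hij' : i ≠ j := fun h => hij (Subtype.ext h)
  have hpat : Pat n0 (e i) (p i) (e j) (p j) := by
    apply hpt
    rw [← hni, hpi, hni, ← hnj, hpj]
  have hsub : ∀ i, (p i).Sub {x | ∃ k < n i, e i k = x} := by
    intro i
    have hmem : ∀ x ∈ B i, x ∈ {x | ∃ k < n i, e i k = x} :=
      fun x hx => he3 i x (Finset.mem_union_left _ hx)
    exact ⟨fun x y h => hmem x ((hB i).c x y h), fun x y h => hmem x ((hB i).z x y h),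
      fun d s m h => hmem d ((hB i).hd d s m h), fun d s m h x hx =>
        hmem x ((hB i).hs d s m h x hx)⟩
  obtain ⟨r, hri, hrj, hr⟩ := amo n0 m hm (e i) (e j) (p i) (p j)
    (fun k l hkl hl => he1 i k l hkl (hni ▸ hl)) (fun k l hkl hl => he1 j k l hkl (hnj ▸ hl))
    (hni ▸ hsub i) (hnj ▸ hsub j) hpat hhead htail t0
    (fun k hk => hni ▸ ((htm i k).1 (hti ▸ hk)).1)
    (fun k hk l hl hkl => hs i _ ((htm i k).1 (hti ▸ hk)).2 _ ((htm i l).1 (hti ▸ hl)).2
      (fun h => hkl (hinj i k l ((htm i k).1 (hti ▸ hk)).1 ((htm i l).1 (hti ▸ hl)).1 h)))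
  have him : t0.image (e i) = s i := hti ▸ htim i
  have hjm : t0.image (e j) = s j := htj ▸ htim j
  rw [him, hjm] at hr
  rcases lt_or_gt_of_ne hij' with h | h
  · exact ⟨i, j, h, r, hri, hrj, hr⟩
  · refine ⟨j, i, h, r, hrj, hri, ?_⟩
    rw [Finset.union_comm]
    exact hr

end Pool.Agent.PCel
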