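import Pool.Agent.Lib.PCel.Fun

/-!
# Cmpa: compatibility

PROOF. `fComp S R a b = bEx S (.and (fPin (R + 1) 0 (a + 1)) (fPin (R + 1) 0 (b + 1)))`: `bEx_all`, `Ap_iSup`, `Ap_inf`, `bval_fPin`,
`bMem_relN` (for `v R = relN ..`), `Ap_toB`.
-/

set_option autoImplicit false

namespace Pool.Agent.PCel

open Pool.Agent.Lib.BVM Pool.Agent.Lib.BVM.BSet Pool.Agent.PolB Pool.Agent.PolF

variable {P : Type} {le : P → P → Prop} {L : Type} [LinearOrder L] [WellFoundedLT L]

theorem ap_rel (hr : ∀ p, le p p) (ht : ∀ p q r, le p q → le q r → le p r)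
    {v : ℕ → BSet (RO (Fsp le))} {R x y : ℕ} (O : L × L → Set P)
    (hR : v R = relN (fun z : L × L => toB le O z)) (a b : L) (hx : v x = chk (RO (Fsp le)) a)
    (hy : v y = chk (RO (Fsp le)) b) (p : P) :
    Ap p (bval (fPin R x y) v) ↔ Mem le O (a, b) p := by
  rw [bval_fPin, hR, hx, hy, bMem_relN]
  exact Ap_toB hr ht O (a, b) p

theorem ap_comp (hr : ∀ p, le p p) (ht : ∀ p q r, le p q → le q r → le p r)
    {v : ℕ → BSet (RO (Fsp le))} {S R x y : ℕ} (O : L × L → Set P)
    (hS : v S = chkAll (RO (Fsp le)) L) (hR : v R = relN (fun z : L × L => toB le O z)) (a b : L)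
    (hx : v x = chk (RO (Fsp le)) a) (hy : v y = chk (RO (Fsp le)) b) (p : P) :
    Ap p (bval (fComp S R x y) v) ↔
      ∀ q, le q p → ∃ r, le r q ∧ ∃ u : L, Mem le O (u, a) r ∧ Mem le O (u, b) r := by
  rw [fComp, bEx_all hS, Ap_iSup hr ht]
  refine forall_congr' fun q => forall_congr' fun _ => exists_congr fun r =>
    and_congr_right fun _ => exists_congr fun u => ?_
  rw [bval]
  refine (Ap_inf r _ _).trans (and_congr ?_ ?_)
  · exact ap_rel hr ht (v := scons (chk (RO (Fsp le)) u) v) (R := R + 1) (x := 0) (y := x + 1)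
      O hR u a rfl hx r
  · exact ap_rel hr ht (v := scons (chk (RO (Fsp le)) u) v) (R := R + 1) (x := 0) (y := y + 1)
      O hR u b rfl hy r

end Pool.Agent.PCel
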