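import Pool.Agent.Lib.PCel.Fml
import Pool.Agent.Lib.BVM.ZFCDef

/-!
# Comp: composition of relations in a model of ZFC; Knaster's property gives the spectrum

PROOF. `comp_exists`: let `V = l ∪ T` (pairing, union), `D = power (power V)`. A pair `(i, u) = {{i}, {i, u}}` with
`i ∈ l`, `u ∈ T` exists (pairing) and is in `D`. Separation for the formula `φ` (variables: `0` is the element `p`, then the
parameters `l, T, e, g` as `v 0 .. v 3`): `∃ i ∈ l, ∃ u ∈ T, p = (i, u) ∧ ∃ a ∈ l, (i, a) ∈ e ∧ (a, u) ∈ g`, written with `bEx`, `fPair`,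
`fPin` of `PolB/Fml`; `sat` of it unfolds by `Iff.rfl`. Uniqueness: `IsPair p i u` and `IsPair p i' u'` imply
`i = i'`, `u = u'` (elementary; `IsPair p a b` says that the elements of `p` are the sets `{a}` and `{a, b}`; these exist by
pairing).
`inSpec_of_kna`: let `(T, Q)` be a preorder with `CC l T Q`, `f`, `g` functions from `l` to `S`, `T`; `e` from `Kna` for `f`; `h` from
`comp_exists l T e g`: `(i, u) ∈ h ↔ ∃ a ∈ l, (i, a) ∈ e ∧ (a, u) ∈ g`. `IsFun l T h`: totality from that of `e`, `g`; uniqueness from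
that of `e`, `g`. `CC` for `h`: `i ∈ j` in `l`, `y'`, `z'` with `(i, y'), (j, z') ∈ h`, `Comp T Q y' z'`. `Kna` at `i`, `j`: `a ∈ b`, `y`, `z`. As
`(i, a) ∈ e` and `(i, a') ∈ e` with `(a', y') ∈ g`, `a' = a`; so `(a, y') ∈ g`, `(b, z') ∈ g`. Take `a`, `b` for `i`, `j` in `ProdCC`.
-/

set_option autoImplicit false
universe u

namespace Pool.Agent.PCel

open Pool.Agent.Lib.BVM Pool.Agent.PolB

variable {M : Type u} {E : M → M → Prop}

private theorem pair_ex (h : IsZFC E) (a b : M) : ∃ s, ∀ t, E t s ↔ (t = a ∨ t = b) := h.pairing a b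

private theorem sing_ex (h : IsZFC E) (a : M) : ∃ s, ∀ t, E t s ↔ t = a := by
  obtain ⟨s, hs⟩ := h.pairing a a
  exact ⟨s, fun t => by rw [hs, or_self]⟩

private theorem kpair_ex (h : IsZFC E) (a b : M) : ∃ p s t, IsPair E p a b ∧ (∀ x, E x s ↔ x = a) ∧
    (∀ x, E x t ↔ (x = a ∨ x = b)) ∧ ∀ z, E z p ↔ (z = s ∨ z = t) := by
  obtain ⟨s, hs⟩ := sing_ex h a
  obtain ⟨t, ht⟩ := pair_ex h a b
  obtain ⟨p, hp⟩ := h.pairing s t
  refine ⟨p, s, t, ?_, hs, ht, hp⟩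
  intro z
  rw [hp]
  constructor
  · rintro (rfl | rfl)
    · exact Or.inl hs
    · exact Or.inr ht
  · rintro (hz | hz)
    · exact Or.inl (h.extensionality _ _ fun x => by rw [hz, hs])
    · exact Or.inr (h.extensionality _ _ fun x => by rw [hz, ht])

private theorem pair_inj (h : IsZFC E) {p a b a' b' : M} (h1 : IsPair E p a b) (h2 : IsPair E p a' b') :
    a = a' ∧ b = b' := by
  obtain ⟨s, hs⟩ := sing_ex h a
  obtain ⟨t, ht⟩ := pair_ex h a b
  obtain ⟨s', hs'⟩ := sing_ex h a'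
  obtain ⟨t', ht'⟩ := pair_ex h a' b'
  have ha : a = a' := by
    rcases (h2 s).1 ((h1 s).2 (Or.inl hs)) with h3 | h3
    · exact (h3 a).1 ((hs a).2 rfl)
    · exact ((hs a').1 ((h3 a').2 (Or.inl rfl))).symm
  subst ha
  refine ⟨rfl, ?_⟩
  have e1 : b = a ∨ b = b' := by
    rcases (h2 t).1 ((h1 t).2 (Or.inr ht)) with h3 | h3
    · exact Or.inl ((h3 b).1 ((ht b).2 (Or.inr rfl)))
    · exact (h3 b).1 ((ht b).2 (Or.inr rfl))
  have e2 : b' = a ∨ b' = b := by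
    rcases (h1 t').1 ((h2 t').2 (Or.inr ht')) with h3 | h3
    · exact Or.inl ((h3 b').1 ((ht' b').2 (Or.inr rfl)))
    · exact (h3 b').1 ((ht' b').2 (Or.inr rfl))
  rcases e1 with e1 | e1
  · rcases e2 with e2 | e2
    · rw [e1, e2]
    · exact e2.symm
  · exact e1

theorem comp_exists (h : IsZFC E) (l T e g : M) : ∃ c, ∀ i, E i l → ∀ u, E u T →
    (PairIn E c i u ↔ ∃ a, E a l ∧ (PairIn E e i a ∧ PairIn E g a u)) := by
  obtain ⟨lT, hlT⟩ := h.pairing l T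
  obtain ⟨V, hV⟩ := h.union lT
  obtain ⟨PV, hPV⟩ := h.power V
  obtain ⟨D, hD⟩ := h.power PV
  have hVl : ∀ x, E x l → E x V := fun x hx => (hV x).2 ⟨l, (hlT l).2 (Or.inl rfl), hx⟩
  have hVT : ∀ x, E x T → E x V := fun x hx => (hV x).2 ⟨T, (hlT T).2 (Or.inr rfl), hx⟩
  obtain ⟨c, hc⟩ := h.separation
    (bEx 1 (bEx 3 (.and (fPair 2 1 0) (bEx 3 (.and (fPin 6 2 0) (fPin 7 0 1))))))
    (scons l (scons T (scons e (scons g fun _ => l)))) D
  have hc' : ∀ z, E z c ↔ E z D ∧ ∃ i, E i l ∧ ∃ u, E u T ∧ (IsPair E z i u ∧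
      ∃ a, E a l ∧ (PairIn E e i a ∧ PairIn E g a u)) := hc
  refine ⟨c, fun i hi u hu => ?_⟩
  constructor
  · rintro ⟨p, hp, hpc⟩
    obtain ⟨-, i', hi', u', hu', hp', a, ha, h1, h2⟩ := (hc' p).1 hpc
    obtain ⟨rfl, rfl⟩ := pair_inj h hp hp'
    exact ⟨a, ha, h1, h2⟩
  · rintro ⟨a, ha, h1, h2⟩
    obtain ⟨p, s, t, hp, hs, ht, hpe⟩ := kpair_ex h i u
    refine ⟨p, hp, (hc' p).2 ⟨?_, i, hi, u, hu, hp, a, ha, h1, h2⟩⟩
    rw [hD]
    intro z hz
    rw [hPV]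
    intro x hx
    rcases (hpe z).1 hz with rfl | rfl
    · rw [(hs x).1 hx]
      exact hVl _ hi
    · rcases (ht x).1 hx with rfl | rfl
      · exact hVl _ hi
      · exact hVT _ hu

theorem inSpec_of_kna (h : IsZFC E) {l S R : M} (hk : Kna E l S R) : InSpec E l S R := by
  intro T Q hQ hCC f g hf hg
  obtain ⟨e, he, hke⟩ := hk f hf
  obtain ⟨c, hc⟩ := comp_exists h l T e g
  have hcf : IsFun E l T c := by
    refine ⟨?_, ?_⟩
    · intro i hi
      obtain ⟨a, ha, hia⟩ := he.1 i hi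
      obtain ⟨u, hu, hau⟩ := hg.1 a ha
      exact ⟨u, hu, (hc i hi u hu).2 ⟨a, ha, hia, hau⟩⟩
    · intro i hi y hy z hz hiy hiz
      obtain ⟨a, ha, hia, hay⟩ := (hc i hi y hy).1 hiy
      obtain ⟨b, hb, hib, hbz⟩ := (hc i hi z hz).1 hiz
      have hab := he.2 i hi a ha b hb hia hib
      subst hab
      exact hg.2 a ha y hy z hz hay hbz
  obtain ⟨i, hi, j, hj, hij, y', hy', z', hz', hiy, hjz, hcomp⟩ := hCC c hcf
  obtain ⟨a, ha, b, hb, hab, hia, hjb, y, hy, z, hz, hay, hbz, hyz⟩ := hke i hi j hj hij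
  obtain ⟨a', ha', hia', hay'⟩ := (hc i hi y' hy').1 hiy
  obtain ⟨b', hb', hjb', hbz'⟩ := (hc j hj z' hz').1 hjz
  have e1 := he.2 i hi a ha a' ha' hia hia'
  have e2 := he.2 j hj b hb b' hb' hjb hjb'
  subst e1
  subst e2
  exact ⟨a, ha, b, hb, hab, y, hy, z, hz, y', hy', z', hz', hay, hbz, hay', hbz', hyz, hcomp⟩

end Pool.Agent.PCel
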