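import Pool.Agent.Lib.PCel.Defs
import Pool.Agent.Lib.PolF.Bas

/-!
# Dec: deciding the colours, labels, the order

PROOF. `exists_dcd`: put `Z = {(x, y) ∈ s × s | (x, y) ∉ p.c}` and `q = (p.c, p.z ∪ Z, p.h)`.
`exists_label`: if `((d, s), m) ∈ p.h` for some `m`, take `q = p`. Otherwise let `m` be bigger than all labels occurring in
`p.h` and `q.h = p.h ∪ {((d, s), m)}`; `hom` for two copies of `s` is `hh` (`Col false` is membership in `z`), and `m` is not
the label of anything else.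
`mem_ord`: `←`: `Ord` is closed under extension (`Bad_mono`, `Hom_mono`): for `q ≤ p` take `r = q`, `a = q`, `Le_refl`. `→`: apply
`Mem` at `q = p`: there are `r ≤ p` and `a' ∈ Ord φ i (a, b)` with `Le r a'`; so `r ∈ Ord φ i (a, b)` (closed under extension); since
`p` decides all pairs of `φ a ∪ φ b`, `Bad i r (φ b)` implies `Bad i p (φ b)` (the pair has a colour in `p`, which is its
colour in `r`, `r.disj`) and `Hom i r (φ a)` implies `Hom i p (φ a)`.
-/

set_option autoImplicit false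
set_option linter.unusedSectionVars false

namespace Pool.Agent.PCel

open Pool.Agent.PolF

variable {X : Type} [LinearOrder X]

theorem exists_dcd (p : Cd X) (s : Finset X) : ∃ q, Le q p ∧ Dcd q s := by
  classical
  refine ⟨⟨p.c, p.z ∪ (s ×ˢ s).filter (fun xy => xy ∉ p.c), p.h, p.csym, ?_, ?_, p.hfun, p.hlt, ?_⟩,
    ⟨fun _ h => h, fun _ h => Finset.mem_union_left _ h, fun _ h => h⟩, ?_⟩
  · intro x y hxy
    rcases Finset.mem_union.1 hxy with h | h
    · exact Finset.mem_union_left _ (p.zsym x y h)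
    · rw [Finset.mem_filter, Finset.mem_product] at h
      refine Finset.mem_union_right _ (Finset.mem_filter.2 ⟨Finset.mem_product.2 ⟨h.1.2, h.1.1⟩, ?_⟩)
      exact fun h' => h.2 (p.csym y x h')
  · intro x y hxy hz
    rcases Finset.mem_union.1 hz with h | h
    · exact p.disj x y hxy h
    · exact (Finset.mem_filter.1 h).2 hxy
  · intro d s' t m h1 h2 x hx y hy hxy
    exact Finset.mem_union_left _ (p.hom d s' t m h1 h2 x hx y hy hxy)
  · intro x hx y hy hxy
    by_cases h : (x, y) ∈ p.c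
    · exact Or.inl h
    · exact Or.inr (Finset.mem_union_right _ (Finset.mem_filter.2 ⟨Finset.mem_product.2 ⟨hx, hy⟩, h⟩))

theorem Dcd_mono {p q : Cd X} {s : Finset X} (h : Le q p) (hs : Dcd p s) : Dcd q s :=
  fun x hx y hy hxy => (hs x hx y hy hxy).imp (fun h' => h.1 h') (fun h' => h.2.1 h')

theorem Dcd_sub {p : Cd X} {s t : Finset X} (h : t ⊆ s) (hs : Dcd p s) : Dcd p t :=
  fun x hx y hy hxy => hs x (h hx) y (h hy) hxy

private theorem Col_mono {i : Bool} {p q : Cd X} {x y : X} (h : Le q p) (hc : Col i p x y) :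
    Col i q x y := by
  cases i
  · exact h.2.1 hc
  · exact h.1 hc

private theorem Col_back {i : Bool} {p q : Cd X} {x y : X} (h : Le q p)
    (hd : (x, y) ∈ p.c ∨ (x, y) ∈ p.z) (hc : Col i q x y) : Col i p x y := by
  cases i
  · rcases hd with h' | h'
    · exact absurd hc (q.disj x y (h.1 h'))
    · exact h'
  · rcases hd with h' | h'
    · exact h'
    · exact absurd (h.2.1 h') (q.disj x y hc)

private theorem Col_or (i : Bool) {p : Cd X} {x y : X} (hd : (x, y) ∈ p.c ∨ (x, y) ∈ p.z) :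
    Col i p x y ∨ Col (!i) p x y := by
  cases i
  · exact hd.symm
  · exact hd

private theorem Col_not {i : Bool} {p : Cd X} {x y : X} (h : Col i p x y) (h' : Col (!i) p x y) :
    False := by
  cases i
  · exact p.disj x y h' h
  · exact p.disj x y h h'

theorem Hom_mono {i : Bool} {p q : Cd X} {s : Finset X} (h : Le q p) (hs : Hom i p s) :
    Hom i q s := fun x hx y hy hxy => Col_mono h (hs x hx y hy hxy)

theorem Bad_mono {i : Bool} {p q : Cd X} {s : Finset X} (h : Le q p) (hs : Bad i p s) :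
    Bad i q s := by
  obtain ⟨x, hx, y, hy, hxy, hc⟩ := hs
  exact ⟨x, hx, y, hy, hxy, Col_mono h hc⟩

theorem Hom_sub {i : Bool} {p : Cd X} {s t : Finset X} (h : t ⊆ s) (hs : Hom i p s) :
    Hom i p t := fun x hx y hy hxy => hs x (h hx) y (h hy) hxy

theorem Bad_sub {i : Bool} {p : Cd X} {s t : Finset X} (h : t ⊆ s) (ht : Bad i p t) :
    Bad i p s := by
  obtain ⟨x, hx, y, hy, hxy, hc⟩ := ht
  exact ⟨x, h hx, y, h hy, hxy, hc⟩

theorem Hom_or_Bad (i : Bool) {p : Cd X} {s : Finset X} (h : Dcd p s) : Hom i p s ∨ Bad i p s := by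
  by_cases hb : Bad i p s
  · exact Or.inr hb
  · refine Or.inl fun x hx y hy hxy => ?_
    rcases Col_or i (h x hx y hy hxy) with h' | h'
    · exact h'
    · exact absurd ⟨x, hx, y, hy, hxy, h'⟩ hb

theorem not_Hom_Bad {i : Bool} {p : Cd X} {s : Finset X} (h : Hom i p s) (h' : Bad i p s) :
    False := by
  obtain ⟨x, hx, y, hy, hxy, hc⟩ := h'
  exact Col_not (h x hx y hy hxy) hc

theorem exists_label (p : Cd X) (d : X) (s : Finset X) (hs : ∀ x ∈ s, x < d)
    (hh : Hom false p s) : ∃ q, Le q p ∧ ∃ m, ((d, s), m) ∈ q.h := by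
  classical
  by_cases hex : ∃ m, ((d, s), m) ∈ p.h
  · exact ⟨p, Le_refl p, hex⟩
  · obtain ⟨N, hN⟩ : ∃ N : ℕ, ∀ u ∈ p.h, u.2 < N := by
      refine ⟨p.h.sup (fun u => u.2) + 1, fun u hu => Nat.lt_succ_of_le ?_⟩
      exact Finset.le_sup (f := fun u : (X × Finset X) × ℕ => u.2) hu
    have hmem : ∀ d' s' m, ((d', s'), m) ∈ insert ((d, s), N) p.h →
        (((d', s'), m) ∈ p.h ∧ m < N) ∨ (d' = d ∧ s' = s ∧ m = N) := by
      intro d' s' m h
      rcases Finset.mem_insert.1 h with h | h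
      · refine Or.inr ?_
        simp only [Prod.mk.injEq] at h
        exact ⟨h.1.1, h.1.2, h.2⟩
      · exact Or.inl ⟨h, hN _ h⟩
    refine ⟨⟨p.c, p.z, insert ((d, s), N) p.h, p.csym, p.zsym, p.disj, ?_, ?_, ?_⟩,
      ⟨fun _ h => h, fun _ h => h, fun _ h => Finset.mem_insert_of_mem h⟩, N,
      Finset.mem_insert_self _ _⟩
    · intro d' s' m m' h1 h2
      rcases hmem _ _ _ h1 with ⟨h1, h1'⟩ | ⟨e1, e2, e3⟩
      · rcases hmem _ _ _ h2 with ⟨h2, h2'⟩ | ⟨f1, f2, f3⟩
        · exact p.hfun d' s' m m' h1 h2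
        · rw [f1, f2] at h1
          exact absurd ⟨m, h1⟩ hex
      · rcases hmem _ _ _ h2 with ⟨h2, h2'⟩ | ⟨f1, f2, f3⟩
        · rw [e1, e2] at h2
          exact absurd ⟨m', h2⟩ hex
        · rw [e3, f3]
    · intro d' s' m h x hx
      rcases hmem _ _ _ h with ⟨h, h'⟩ | ⟨e1, e2, e3⟩
      · exact p.hlt d' s' m h x hx
      · rw [e1]
        rw [e2] at hx
        exact hs x hx
    · intro d' s' t m h1 h2 x hx y hy hxy
      rcases hmem _ _ _ h1 with ⟨h1, h1'⟩ | ⟨e1, e2, e3⟩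
      · rcases hmem _ _ _ h2 with ⟨h2, h2'⟩ | ⟨f1, f2, f3⟩
        · exact p.hom d' s' t m h1 h2 x hx y hy hxy
        · omega
      · rcases hmem _ _ _ h2 with ⟨h2, h2'⟩ | ⟨f1, f2, f3⟩
        · omega
        · rw [e2, f2, or_self] at hx hy
          exact hh x hx y hy hxy

private theorem Ord_mono {φ : X → Finset X} {i : Bool} {ab : X × X} {p q : Cd X} (h : Le q p)
    (hp : p ∈ Ord φ i ab) : q ∈ Ord φ i ab := by
  rcases hp with h' | ⟨h1, h2⟩
  · exact Or.inl (Bad_mono h h')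
  · exact Or.inr ⟨h1, Hom_mono h h2⟩

/-- the conditions in `Ord` force the order relation -/
theorem mem_ord_of (φ : X → Finset X) (i : Bool) {a b : X} {p : Cd X}
    (h : p ∈ Ord φ i (a, b)) : Mem Le (Ord φ i) (a, b) p :=
  fun q hq => ⟨q, Le_refl q, p, h, hq⟩

theorem mem_ord (φ : X → Finset X) (i : Bool) {a b : X} {p : Cd X} (h : Dcd p (φ a ∪ φ b)) :
    Mem Le (Ord φ i) (a, b) p ↔ p ∈ Ord φ i (a, b) := by
  constructor
  · intro hm
    obtain ⟨r, hrp, a', ha', hra'⟩ := hm p (Le_refl p)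
    rcases Ord_mono hra' ha' with ⟨x, hx, y, hy, hxy, hc⟩ | ⟨h1, h2⟩
    · refine Or.inl ⟨x, hx, y, hy, hxy, Col_back hrp (h x ?_ y ?_ hxy) hc⟩
      · exact Finset.mem_union_right _ hx
      · exact Finset.mem_union_right _ hy
    · refine Or.inr ⟨h1, fun x hx y hy hxy => Col_back hrp (h x ?_ y ?_ hxy) (h2 x hx y hy hxy)⟩
      · exact Finset.mem_union_left _ hx
      · exact Finset.mem_union_left _ hy
  · exact mem_ord_of φ i

end Pool.Agent.PCel
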