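import Pool.Agent.Lib.PolF.Frc

/-!
# Definitions of the forcing side

`P` is a set of conditions, `le q p`: `q` is stronger. Names of relations between ground model sets
are functions `X × Y → Set P`; `Mem le A x p` is `p ⊩ x ∈ A` (file `PolF/Frc`).
-/

set_option autoImplicit false

namespace Pool.Agent.PCel

open Cardinal Pool.Agent.PolF

/-- `K` is a well order of regular uncountable type -/
structure RegW (K : Type) [LinearOrder K] [WellFoundedLT K] : Prop where
  unc : ℵ₀ < #K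
  iio : ∀ b : K, #(Set.Iio b) < #K
  bdd : ∀ S : Set K, #S < #K → ∃ b, ∀ s ∈ S, s < b

/-- countable chain condition -/
def Ccc {P : Type} (le : P → P → Prop) : Prop :=
  ∀ A : Set P, (∀ p ∈ A, ∀ q ∈ A, p ≠ q → ¬ ∃ r, le r p ∧ le r q) → A.Countable

/-! ### conditions -/

/-- conditions over a linear order `X`: `c`, `z` are the (symmetric) sets of pairs of colour `1`
and `0`; `((d, s), m) ∈ h` means that `m` is the label of the finite set `s` of elements `< d` at `d`;
two sets with the same label at `d` have a union all of whose pairs have colour `0` -/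
structure Cd (X : Type) [LT X] where
  c : Finset (X × X)
  z : Finset (X × X)
  h : Finset ((X × Finset X) × ℕ)
  csym : ∀ x y, (x, y) ∈ c → (y, x) ∈ c
  zsym : ∀ x y, (x, y) ∈ z → (y, x) ∈ z
  disj : ∀ x y, (x, y) ∈ c → (x, y) ∉ z
  hfun : ∀ d s m m', ((d, s), m) ∈ h → ((d, s), m') ∈ h → m = m'
  hlt : ∀ d s m, ((d, s), m) ∈ h → ∀ x ∈ s, x < d
  hom : ∀ d s t m, ((d, s), m) ∈ h → ((d, t), m) ∈ h →
    ∀ x, (x ∈ s ∨ x ∈ t) → ∀ y, (y ∈ s ∨ y ∈ t) → x ≠ y → (x, y) ∈ z

variable {X : Type} [LT X]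

/-- extension -/
def Le (q p : Cd X) : Prop := p.c ⊆ q.c ∧ p.z ⊆ q.z ∧ p.h ⊆ q.h

theorem Le_refl (p : Cd X) : Le p p := ⟨fun _ h => h, fun _ h => h, fun _ h => h⟩

theorem Le_trans (p q r : Cd X) (h : Le p q) (h' : Le q r) : Le p r :=
  ⟨fun _ hx => h.1 (h'.1 hx), fun _ hx => h.2.1 (h'.2.1 hx), fun _ hx => h.2.2 (h'.2.2 hx)⟩

/-- all elements mentioned in `p` are in `A` -/
structure Cd.Sub (p : Cd X) (A : Set X) : Prop where
  c : ∀ x y, (x, y) ∈ p.c → x ∈ A
  z : ∀ x y, (x, y) ∈ p.z → x ∈ A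
  hd : ∀ d s m, ((d, s), m) ∈ p.h → d ∈ A
  hs : ∀ d s m, ((d, s), m) ∈ p.h → ∀ x ∈ s, x ∈ A

/-- `p` with the enumeration `e 0, …, e (n - 1)` looks like `q` with the enumeration
`f 0, …, f (n - 1)` -/
structure Pat {X : Type} [LinearOrder X] (n : ℕ) (e : ℕ → X) (p : Cd X) (f : ℕ → X) (q : Cd X) :
    Prop where
  c : ∀ k < n, ∀ l < n, (e k, e l) ∈ p.c ↔ (f k, f l) ∈ q.c
  z : ∀ k < n, ∀ l < n, (e k, e l) ∈ p.z ↔ (f k, f l) ∈ q.z
  h : ∀ k < n, ∀ s : Finset ℕ, (∀ l ∈ s, l < n) → ∀ m,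
    ((e k, s.image e), m) ∈ p.h ↔ ((f k, s.image f), m) ∈ q.h

/-- colour `i` of a pair (`true` is `1`, `false` is `0`) -/
def Col (i : Bool) (p : Cd X) (x y : X) : Prop := if i then (x, y) ∈ p.c else (x, y) ∈ p.z

/-- all pairs of `s` have colour `i` -/
def Hom (i : Bool) (p : Cd X) (s : Finset X) : Prop := ∀ x ∈ s, ∀ y ∈ s, x ≠ y → Col i p x y

/-- all pairs of `s` are coloured by `p` -/
def Dcd (p : Cd X) (s : Finset X) : Prop := ∀ x ∈ s, ∀ y ∈ s, x ≠ y → (x, y) ∈ p.c ∨ (x, y) ∈ p.z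

/-- some pair of `s` has the colour different from `i` -/
def Bad (i : Bool) (p : Cd X) (s : Finset X) : Prop := ∃ x ∈ s, ∃ y ∈ s, x ≠ y ∧ Col (!i) p x y

/-- name of the order `a ≤ b` on the codes `a : L` of finite sets `φ a`: a code of a set which is
not homogeneous of colour `i` is read as a code of the empty set; the order is reverse inclusion -/
def Ord {L : Type} [LT L] (φ : L → Finset L) (i : Bool) (ab : L × L) : Set (Cd L) :=
  {p | Bad i p (φ ab.2) ∨ (φ ab.2 ⊆ φ ab.1 ∧ Hom i p (φ ab.1))}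

/-! ### forced statements -/

section forced
variable {P : Type} (le : P → P → Prop)

/-- `p ⊩ F is a function from I to J` -/
def IsF {I J : Type} (F : I × J → Set P) (p : P) : Prop :=
  (∀ i, Exi le (fun x => Mem le F (i, x)) p) ∧
  ∀ i x y, x ≠ y → Neg le (fun q => Mem le F (i, x) q ∧ Mem le F (i, y) q) p

/-- `⊩ O is a preorder` -/
def FPre {L : Type} (O : L × L → Set P) : Prop :=
  (∀ a p, Mem le O (a, a) p) ∧
  ∀ a b c p, Mem le O (a, b) p → Mem le O (b, c) p → Mem le O (a, c) p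

/-- `⊩` every function `F` from `W` to the preorder `O` on `L` is, on the range of some strictly
increasing function `e` from `W` to `W`, a function with pairwise compatible values -/
def FKna (W L : Type) [LT W] (O : L × L → Set P) : Prop :=
  ∀ (F : W × L → Set P) (p : P), IsF le F p →
    ∃ q, le q p ∧ ∃ e : W × W → Set P, IsF le e q ∧
      ∀ i j, i < j → ∀ r, le r q → ∃ s, le s r ∧ ∃ a b : W, a < b ∧ Mem le e (i, a) s ∧
        Mem le e (j, b) s ∧ ∃ y z u : L, Mem le F (a, y) s ∧ Mem le F (b, z) s ∧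
          Mem le O (u, y) s ∧ Mem le O (u, z) s

/-- `⊩` the preorder `O` on `L` has the `L`-chain condition -/
def FCC (L : Type) [LT L] (O : L × L → Set P) : Prop :=
  ∀ (F : L × L → Set P) (p : P), IsF le F p →
    ∃ q, le q p ∧ ∃ i j : L, i < j ∧ ∃ y z u : L, Mem le F (i, y) q ∧ Mem le F (j, z) q ∧
      Mem le O (u, y) q ∧ Mem le O (u, z) q

/-- `⊩` for `i < j`, `σ i` and `σ j` are not compatible both in `O` and in `O'` -/
def FInc {L : Type} [LT L] (O O' : L × L → Set P) (σ : L → L) : Prop :=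
  ∀ i j : L, i < j → ∀ p, ∀ u u' : L, Mem le O (u, σ i) p → Mem le O (u, σ j) p →
    Mem le O' (u', σ i) p → Mem le O' (u', σ j) p → False

/-- `⊩` the range of a function from `W` to `L` is not dense in the preorder `O` -/
def FDen (W L : Type) (O : L × L → Set P) : Prop :=
  ∀ (F : W × L → Set P) (p : P), IsF le F p →
    ∃ a : L, ∀ (i : W) (y : L) (r : P), le r p → Mem le F (i, y) r → Mem le O (y, a) r → False

end forced

end Pool.Agent.PCel
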