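import Pool.Agent.Lib.PCel.Bnd

/-!
# Enu: a name of an increasing enumeration of an unbounded set

PROOF. (1) For every `b : W` there is `b' > b` such that for all `r ≤ q` there are `s ≤ r`, `i` with `b < i < b'`,
`s ∈ A i`: `bnd` with `K = W`, `X = Unit`, `R _ r b' = (∃ i, b < i ∧ i < b' ∧ r ∈ A i)` (closed under extension by `hA`; take the maximum of
the bound and `b`, or note `b < i < b'`). Let `g b = b'`. (2) By well-founded recursion on `i : W` choose `γ i` with `g (γ j) ≤ γ i` for all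
`j < i`: the set `{g (γ j) | j < i}` has size `≤ #(Iio i) < #W`, so it has a strict upper bound (`bdd`). So the intervals
`I i = {a | γ i < a ∧ a < g (γ i)}` satisfy: `i < j`, `a ∈ I i`, `b ∈ I j` implies `a < b` (`a < g (γ i) ≤ γ j < b`).
(3) `e (i, a) = {r | a ∈ I i ∧ r ∈ A a ∧ ∀ a', a' ∈ I i → a' < a → ∀ s, le s r → s ∉ A a'}`, closed under extension. If
`Mem le e (i, a) r` then `a ∈ I i` and `Mem le A a r` (unfold `Mem`).
Totality: let `r ≤ q`. There are `s ≤ r`, `a ∈ I i` with `s ∈ A a`. Choose the least `a ∈ I i` such that some `s ≤ r` is in `A a`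
(well-foundedness), and such an `s`: then `s ∈ e (i, a)`, since for `a' < a` in `I i` no extension of `r` is in `A a'`; `Mem le e (i, a) s`
because `e (i, a)` is closed under extension. Functionality: `Mem le e (i, x) s`, `Mem le e (i, y) s`, `x ≠ y`, say `x < y`: some
`t ≤ s` is in `e (i, x)` and some `t' ≤ t` is in `e (i, y)` (closed under extension); `t' ∈ A x` and `t' ∉ A x` (`le t' t'`).
-/

set_option autoImplicit false
set_option linter.unusedSectionVars false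

namespace Pool.Agent.PCel

open Cardinal Pool.Agent.PolF

variable {P : Type} {le : P → P → Prop} {W : Type} [LinearOrder W] [WellFoundedLT W]

private theorem enu_seq (hW : RegW W) (g : W → W) : ∃ γ : W → W, ∀ i j, j < i → g (γ j) ≤ γ i := by
  classical
  have hstep : ∀ (i : W) (f : (j : W) → j < i → W), ∃ b : W, ∀ j (h : j < i), g (f j h) ≤ b := by
    intro i f
    have hS : #(Set.range fun j : Set.Iio i => g (f j.1 j.2)) < #W :=
      lt_of_le_of_lt mk_range_le (hW.iio i)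
    obtain ⟨b, hb⟩ := hW.bdd _ hS
    exact ⟨b, fun j h => (hb _ ⟨⟨j, h⟩, rfl⟩).le⟩
  choose G hG using hstep
  have wf : WellFounded (fun a b : W => a < b) := wellFounded_lt
  refine ⟨wf.fix G, fun i j hj => ?_⟩
  rw [wf.fix_eq G i]
  exact hG i (fun y _ => wf.fix G y) j hj

private theorem mem_of_mem (hr : ∀ p, le p p) (ht : ∀ p q r, le p q → le q r → le p r)
    {X : Type} {A : X → Set P} (hA : ∀ i p q, le q p → p ∈ A i → q ∈ A i) {x : X} {p : P}
    (h : p ∈ A x) : Mem le A x p := fun q hq => ⟨q, hr q, q, hA x p q hq h, hr q⟩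

private theorem ex_of_mem (hr : ∀ p, le p p)
    {X : Type} {A : X → Set P} (hA : ∀ i p q, le q p → p ∈ A i → q ∈ A i) {x : X} {p : P}
    (h : Mem le A x p) : ∀ q, le q p → ∃ r, le r q ∧ r ∈ A x := by
  intro q hq
  obtain ⟨r, hrq, a, ha, hra⟩ := h q hq
  exact ⟨r, hrq, hA x a r hra ha⟩

theorem enu (hr : ∀ p, le p p) (ht : ∀ p q r, le p q → le q r → le p r) (hc : Ccc le)
    (hW : RegW W) (A : W → Set P) (hA : ∀ i p q, le q p → p ∈ A i → q ∈ A i) (q : P)
    (hunb : ∀ b r, le r q → ∃ s, le s r ∧ ∃ i, b < i ∧ s ∈ A i) :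
    ∃ e : W × W → Set P, IsF le e q ∧
      (∀ i a r, Mem le e (i, a) r → Mem le A a r) ∧
      ∀ i j, i < j → ∀ a b r, Mem le e (i, a) r → Mem le e (j, b) r → a < b := by
  classical
  -- step 1
  have h1 : ∀ b : W, ∃ b' : W, ∀ r, le r q → ∃ s, le s r ∧ ∃ i, b < i ∧ i < b' ∧ s ∈ A i := by
    intro b
    have hX : #Unit < #W := by
      refine lt_of_lt_of_le ?_ hW.unc.le
      simpa using one_lt_aleph0
    have hno : ∀ i : W, ∃ i', i < i' := by
      intro i
      obtain ⟨i', hi'⟩ := hW.bdd {i} (by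
        rw [mk_singleton]
        exact lt_of_lt_of_le one_lt_aleph0 hW.unc.le)
      exact ⟨i', hi' i rfl⟩
    obtain ⟨b', hb'⟩ := bnd hr ht hc hW hX (fun _ r b' => ∃ i, b < i ∧ i < b' ∧ r ∈ A i)
      (fun _ p q' b' hq ⟨i, h1, h2, h3⟩ => ⟨i, h1, h2, hA i p q' hq h3⟩)
      (fun _ p b₁ b₂ hb ⟨i, h1, h2, h3⟩ => ⟨i, h1, lt_of_lt_of_le h2 hb, h3⟩) q
      (fun _ r hrq => by
        obtain ⟨s, hs, i, hi, hsi⟩ := hunb b r hrq
        obtain ⟨i', hi'⟩ := hno i
        exact ⟨s, hs, i', i, hi, hi', hsi⟩)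
    exact ⟨b', fun r hrq => hb' () r hrq⟩
  choose g hg using h1
  obtain ⟨γ, hγ⟩ := enu_seq hW g
  set e : W × W → Set P := fun x => {r | (γ x.1 < x.2 ∧ x.2 < g (γ x.1)) ∧ r ∈ A x.2 ∧
    ∀ a', γ x.1 < a' → a' < g (γ x.1) → a' < x.2 → ∀ s, le s r → s ∉ A a'} with he
  have hed : ∀ x p q', le q' p → p ∈ e x → q' ∈ e x := by
    rintro x p q' hq ⟨h1, h2, h3⟩
    exact ⟨h1, hA _ _ _ hq h2, fun a' ha ha' hlt s hs => h3 a' ha ha' hlt s (ht _ _ _ hs hq)⟩
  have hI : ∀ i a r, Mem le e (i, a) r → γ i < a ∧ a < g (γ i) := by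
    intro i a r h
    obtain ⟨s, _, hs⟩ := ex_of_mem hr hed h r (hr r)
    exact hs.1
  refine ⟨e, ⟨?_, ?_⟩, ?_, ?_⟩
  · -- totality
    intro i r hrq
    obtain ⟨s, hs, a, ha1, ha2, hsa⟩ := hg (γ i) r hrq
    have wf : WellFounded (fun a b : W => a < b) := wellFounded_lt
    let T : Set W := {a | (γ i < a ∧ a < g (γ i)) ∧ ∃ s, le s r ∧ s ∈ A a}
    have hT : T.Nonempty := ⟨a, ⟨ha1, ha2⟩, s, hs, hsa⟩
    obtain ⟨hm, s₀, hs₀, hs₀A⟩ := wf.min_mem T hT
    have hmin : ∀ a' ∈ T, ¬ a' < wf.min T hT := fun a' ha' => wf.not_lt_min T ha'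
    refine ⟨s₀, hs₀, wf.min T hT, ?_⟩
    refine mem_of_mem hr ht hed (x := (i, wf.min T hT)) ⟨hm, hs₀A, ?_⟩
    intro a' h1 h2 h3 t hts htA
    exact hmin a' ⟨⟨h1, h2⟩, t, ht _ _ _ hts hs₀, htA⟩ h3
  · -- functionality
    have key : ∀ i x y p, x < y → Mem le e (i, x) p → Mem le e (i, y) p → False := by
      intro i x y p hxy hx hy
      obtain ⟨t, ht1, ht2⟩ := ex_of_mem hr hed hx p (hr p)
      obtain ⟨t', ht1', ht2'⟩ := ex_of_mem hr hed hy t ht1
      have hx' : t' ∈ e (i, x) := hed _ _ _ ht1' ht2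
      exact ht2'.2.2 x hx'.1.1 hx'.1.2 hxy t' (hr t') hx'.2.1
    intro i x y hxy p _ hm
    rcases lt_or_gt_of_ne hxy with h | h
    · exact key i x y p h hm.1 hm.2
    · exact key i y x p h hm.2 hm.1
  · intro i a r h s hs
    obtain ⟨t, hts, htm⟩ := ex_of_mem hr hed h s hs
    exact ⟨t, hts, t, htm.2.1, hr t⟩
  · intro i j hij a b r ha hb
    exact lt_of_lt_of_le (hI i a r ha).2 ((hγ j i hij).trans (hI j b r hb).1.le) 

end Pool.Agent.PCel
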