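import Pool.Agent.Lib.PCel.Ccq
import Pool.Agent.Lib.PCel.Dec

/-!
# FCc: the second poset is forced to have the `L`-chain condition

PROOF. Let `F`, `p`, `IsF Le F p`. For `i : L` there are `p' ≤ p` and `y i` with `Mem Le F (i, y i) p'`; let `P i ≤ p'` decide
`φ (y i)` (`exists_dcd`). Put `s i = φ (y i)` if `Hom true (P i) (φ (y i))`, and `s i = ∅` otherwise (then `Bad true (P i) (φ (y i))` by
`Hom_or_Bad`). `ccq` gives `i < j`, `r ≤ P i, P j`, with all pairs of `s i ∪ s j` in `r.c`, i.e. `Hom true r (s i ∪ s j)`. Take `u` with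
`φ u = s i ∪ s j`. `r ∈ Ord φ true (u, y i)`: if `s i = φ (y i)`: `φ (y i) ⊆ φ u`; otherwise `Bad true r (φ (y i))` (`Bad_mono`). The
same for `j`. `mem_ord_of`, `Mem_down`; `q = r`.
-/

set_option autoImplicit false

namespace Pool.Agent.PCel

open Cardinal Pool.Agent.PolF

variable {L : Type} [LinearOrder L] [WellFoundedLT L]

theorem fcc (hL : RegW L) (φ : L → Finset L) (hφ : Function.Surjective φ) :
    FCC (Le : Cd L → Cd L → Prop) L (Ord φ true) := by
  classical
  intro F p hF
  have h1 : ∀ i : L, ∃ (q : Cd L) (y : L), Le q p ∧ Mem Le F (i, y) q ∧ Dcd q (φ y) := by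
    intro i
    obtain ⟨p', hp', y, hy⟩ := hF.1 i p (Le_refl p)
    obtain ⟨q, hq, hd⟩ := exists_dcd p' (φ y)
    exact ⟨q, y, Le_trans _ _ _ hq hp', PolF.Mem_down Le_trans hq hy, hd⟩
  choose P y hP hM hD using h1
  obtain ⟨i, j, hij, r, hri, hrj, hr⟩ := ccq hL P
    (fun i => if Hom true (P i) (φ (y i)) then φ (y i) else ∅) (by
      intro i x hx z hz hxz
      by_cases h : Hom true (P i) (φ (y i))
      · simp only [h, if_true] at hx hz
        have := h x hx z hz hxz
        simpa [Col] using this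
      · simp [h] at hx)
  obtain ⟨u, hu⟩ := hφ ((if Hom true (P i) (φ (y i)) then φ (y i) else ∅) ∪
    (if Hom true (P j) (φ (y j)) then φ (y j) else ∅))
  have hH : Hom true r (φ u) := by
    intro a ha b hb hab
    rw [hu] at ha hb
    have := hr a ha b hb hab
    simpa [Col] using this
  have key : ∀ k, Le r (P k) → (if Hom true (P k) (φ (y k)) then φ (y k) else ∅) ⊆ φ u →
      Mem Le (Ord φ true) (u, y k) r := by
    intro k hk hs
    apply mem_ord_of
    by_cases h : Hom true (P k) (φ (y k))
    · right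
      simp only [h, if_true] at hs
      exact ⟨hs, hH⟩
    · left
      rcases Hom_or_Bad true (hD k) with h' | h'
      · exact absurd h' h
      · exact Bad_mono hk h'
  refine ⟨r, Le_trans _ _ _ hri (hP i), i, j, hij, y i, y j, u, PolF.Mem_down Le_trans hri (hM i),
    PolF.Mem_down Le_trans hrj (hM j), key i hri ?_, key j hrj ?_⟩
  · rw [hu]; exact Finset.subset_union_left
  · rw [hu]; exact Finset.subset_union_right

end Pool.Agent.PCel
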