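import Pool.Agent.Lib.PCel.Lab
import Pool.Agent.Lib.PCel.Enu
import Pool.Agent.Lib.PolF.Bas

/-!
# FKn: the first poset is forced to be Knaster
-/

set_option autoImplicit false

namespace Pool.Agent.PCel

open Cardinal Pool.Agent.PolF

variable {W L : Type} [LinearOrder W] [WellFoundedLT W] [LinearOrder L] [WellFoundedLT L]

theorem fkna (hW : RegW W) (hL : RegW L) (hWL : #W < #L) (φ : L → Finset L)
    (hφ : Function.Surjective φ) : FKna (Le : Cd L → Cd L → Prop) W L (Ord φ false) := by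
  intro F p hF
  obtain ⟨d, hd⟩ := vals hL hWL φ F p hF
  obtain ⟨q, hq, n, hn⟩ := lab_unb hW hF hd
  obtain ⟨e, he, hmem, hinc⟩ := enu Le_refl Le_trans (ccd L) hW (Lab φ F d n)
    (fun i p q h hp => lab_down h hp) q hn
  refine ⟨q, hq, e, he, fun i j hij r hr => ?_⟩
  obtain ⟨s1, hs1, a, ha⟩ := he.1 i r hr
  obtain ⟨s2, hs2, b, hb⟩ := he.1 j s1 (Le_trans _ _ _ hs1 hr)
  have ha2 := Mem_down Le_trans hs2 ha
  have hab := hinc i j hij a b s2 ha2 hb
  have hA := hmem i a s2 ha2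
  have hB := hmem j b s2 hb
  obtain ⟨t1, ht1, a1, ha1, hta1⟩ := hA s2 (Le_refl _)
  have h1 : t1 ∈ Lab φ F d n a := lab_down hta1 ha1
  obtain ⟨t2, ht2, b1, hb1, htb1⟩ := hB t1 ht1
  have h2 : t2 ∈ Lab φ F d n b := lab_down htb1 hb1
  have h1' : t2 ∈ Lab φ F d n a := lab_down ht2 h1
  obtain ⟨y, z, u, hy, hz, hu1, hu2⟩ := lab_comp hφ h1' h2
  have hts : Le t2 s2 := Le_trans _ _ _ ht2 ht1
  exact ⟨t2, Le_trans _ _ _ hts (Le_trans _ _ _ hs2 hs1), a, b, hab, Mem_down Le_trans hts ha2,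
    Mem_down Le_trans hts hb, y, z, u, hy, hz, hu1, hu2⟩

end Pool.Agent.PCel
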