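import Pool.Agent.Lib.PCel.Fml
import Pool.Agent.Lib.PolB.Prs

/-!
# Iso: check names of isomorphic initial segments are equal

PROOF. `chk_iso`: well-founded induction on `i`. `bEq_mk` after `chk_def`: `chk B i = mk {i' // i' < i} ..`,
`chk B (f i) = mk {j // j < f i} ..`, all weights `⊤`. For `i' < i`: `f i' < f i` (`hf`), and `bEq (chk i') (chk (f i')) = ⊤` by
induction, so the supremum over `{j // j < f i}` is `⊤`. Conversely for `j < f i` there is `i' < i` with `f i' = j`.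
`chkAll_iso`: the same computation with `chkAll B I = mk I ..`, using `chk_iso` and `ht`.
-/

set_option autoImplicit false

namespace Pool.Agent.PCel

open Pool.Agent.Lib.BVM Pool.Agent.Lib.BVM.BSet Pool.Agent.PolB

variable {B : Type} [CompleteBooleanAlgebra B] {I J : Type} [LinearOrder I] [WellFoundedLT I]
  [LinearOrder J] [WellFoundedLT J]

theorem chk_iso (f : I → J) (hf : ∀ i j, j < f i ↔ ∃ i', i' < i ∧ f i' = j) (i : I) :
    bEq (chk B i) (chk B (f i)) = ⊤ := by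
  induction i using WellFoundedLT.induction with
  | ind i ih =>
  rw [chk_def i, chk_def (f i), bEq_mk, eq_top_iff]
  refine le_inf (le_iInf fun i' => ?_) (le_iInf fun j => ?_)
  · rw [le_himp_iff]
    have hlt : f i'.1 < f i := (hf i (f i'.1)).2 ⟨i'.1, i'.2, rfl⟩
    refine le_trans ?_ (le_iSup _ (⟨f i'.1, hlt⟩ : {j : J // j < f i}))
    show _ ≤ ⊤ ⊓ bEq (chk B i'.1) (chk B (f i'.1))
    rw [ih i'.1 i'.2, inf_top_eq]
  · rw [le_himp_iff]
    obtain ⟨i', hi', hj⟩ := (hf i j.1).1 j.2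
    refine le_trans ?_ (le_iSup _ (⟨i', hi'⟩ : {k : I // k < i}))
    show _ ≤ ⊤ ⊓ bEq (chk B i') (chk B j.1)
    rw [← hj, ih i' hi', inf_top_eq]

theorem chkAll_iso (f : I → J) (t : J) (hf : ∀ i j, j < f i ↔ ∃ i', i' < i ∧ f i' = j)
    (ht : ∀ j, j < t ↔ ∃ i, f i = j) : bEq (chkAll B I) (chk B t) = ⊤ := by
  rw [chkAll, chk_def t, bEq_mk, eq_top_iff]
  refine le_inf (le_iInf fun i => ?_) (le_iInf fun j => ?_)
  · rw [le_himp_iff]
    have hlt : f i < t := (ht (f i)).2 ⟨i, rfl⟩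
    refine le_trans ?_ (le_iSup _ (⟨f i, hlt⟩ : {j : J // j < t}))
    show _ ≤ ⊤ ⊓ bEq (chk B i) (chk B (f i))
    rw [chk_iso f hf i, inf_top_eq]
  · rw [le_himp_iff]
    obtain ⟨i, hj⟩ := (ht j.1).1 j.2
    refine le_trans ?_ (le_iSup _ i)
    show _ ≤ ⊤ ⊓ bEq (chk B i) (chk B j.1)
    rw [← hj, chk_iso f hf i, inf_top_eq]

theorem chkAll_mem (f : I → J) (t : J) (hf : ∀ i j, j < f i ↔ ∃ i', i' < i ∧ f i' = j)
    (ht : ∀ j, j < t ↔ ∃ i, f i = j) : bMem (chkAll B I) (chkAll B J) = ⊤ := by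
  rw [eq_top_iff, bMem_chkAll]
  refine le_trans ?_ (le_iSup _ t)
  rw [chkAll_iso f t hf ht]

end Pool.Agent.PCel
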