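import Pool.Agent.Lib.PCel.Fml
import Pool.Agent.Lib.PolB.Lio

/-!
# Omg: `chkAll ℕ` is `ω`

PROOF. `fOmega x = .and (fLim x) (bAll x (.neg (fLim 0)))`. First part: `bval_lim_all`. Second: `bAll_all h`; for
`n : ℕ`, `bval (fLim 0) (scons (chk B n) v) = ⊥`: `fLim 0 = .and (fOrd 0) (.and (.ex (.mem 0 1)) (bAll 0 (bEx 1 (.mem 1 0))))`; if
`n = 0` the middle part is `⨆ z, bMem z (chk B 0) = ⊥` (`bMem_chk_zero`); if `n = k + 1` the last part is, by `bAll_chk` and
`bEx_chk` (bound variable `1` has value `chk B n`), the infimum over `a < k + 1` of the supremum over `b < k + 1` of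
`bMem (chk a) (chk b)`; for `a = k` every term is `⊥` (`chk_mem_of_not_lt`).
-/

set_option autoImplicit false

namespace Pool.Agent.PCel

open Pool.Agent.Lib.BVM Pool.Agent.Lib.BVM.BSet Pool.Agent.PolB

theorem bval_omega {B : Type} [CompleteBooleanAlgebra B] {v : ℕ → BSet B} {x : ℕ}
    (h : v x = chkAll B ℕ) : bval (fOmega x) v = ⊤ := by
  have e1 : bval (fLim x) v = ⊤ := bval_lim_all h ⟨0⟩ (fun a => ⟨a + 1, Nat.lt_succ_self a⟩)
  have e2 : bval (bAll x (.neg (fLim 0))) v = ⊤ := by
    rw [bAll_all h, iInf_eq_top]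
    intro n
    have h3 : bval (fLim 0) (scons (chk B n) v) = ⊥ := by
      show (bval (bAll 0 (bAll 0 (.mem 0 2))) (scons (chk B n) v) ⊓
        bval (bAll 0 (bAll 1 (.or (.mem 1 0) (.or (.eq 1 0) (.mem 0 1))))) (scons (chk B n) v)) ⊓
        (bval (.ex (.mem 0 1)) (scons (chk B n) v) ⊓
          bval (bAll 0 (bEx 1 (.mem 1 0))) (scons (chk B n) v)) = ⊥
      rcases n with _ | k
      · have h4 : bval (.ex (.mem 0 1)) (scons (chk B 0) v) = ⊥ := by
          simp only [bval, scons_zero, scons_succ]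
          rw [iSup_eq_bot]
          intro z
          exact bMem_chk_zero z
        rw [h4]
        simp
      · have h4 : bval (bAll 0 (bEx 1 (.mem 1 0))) (scons (chk B (k + 1)) v) = ⊥ := by
          rw [bAll_chk (t := k + 1) (scons_zero _ _)]
          rw [eq_bot_iff]
          refine (iInf_le _ ⟨k, Nat.lt_succ_self k⟩).trans ?_
          rw [bEx_chk (t := k + 1) (by rw [scons_succ, scons_zero])]
          refine iSup_le ?_
          rintro ⟨b, hb⟩
          simp only [bval, scons_zero, scons_succ]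
          rw [chk_mem_of_not_lt (by omega)]
        rw [h4]
        simp
    show (bval (fLim 0) (scons (chk B n) v))ᶜ = ⊤
    rw [h3, compl_bot]
  show bval (fLim x) v ⊓ bval (bAll x (.neg (fLim 0))) v = ⊤
  rw [e1, e2, inf_top_eq]

end Pool.Agent.PCel
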