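import Pool.Agent.Lib.PCel.Fun

/-!
# Ont: surjections of the ground model

PROOF. The witness is `gr B g` (`le_iSup`). `bAll_all` for `k`, `bAll_chk` / `bEx_all` for `x`, `mem_gr`: the functionality part has
value `⊤` since two pairs `(i, y)`, `(i, z)` of non-zero value have `y = g i = z`; the surjectivity part has value `⊤` by `hg`. In the
bounded quantifiers `bAll (x + 2)`, `bAll (x + 3)`, `bAll (x + 1)` the bound has value `chk B t`.
-/

set_option autoImplicit false

namespace Pool.Agent.PCel

open Pool.Agent.Lib.BVM Pool.Agent.Lib.BVM.BSet Pool.Agent.PolB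

variable {B : Type} [CompleteBooleanAlgebra B] {I J : Type} [LinearOrder I] [WellFoundedLT I]
  [LinearOrder J] [WellFoundedLT J]

theorem bval_onto {v : ℕ → BSet B} {k x : ℕ} {t : J} (hk : v k = chkAll B I)
    (hx : v x = chk B t) (g : I → J) (hg : ∀ y, y < t → ∃ i, g i = y) :
    bval (fOnto k x) v = ⊤ := by
  classical
  refine top_le_iff.1 (le_trans ?_ (le_iSup (fun f : BSet B => bval _ (scons f v)) (gr B g)))
  rw [bval]
  refine le_inf ?_ ?_
  · have h1 : (scons (gr B g) v) (k + 1) = chkAll B I := hk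
    rw [bAll_all h1]
    refine le_iInf fun i => ?_
    have h2 : (scons (chk B i) (scons (gr B g) v)) (x + 2) = chk B t := hx
    rw [bAll_chk h2]
    refine le_iInf fun y => ?_
    have h3 : (scons (chk B y.1) (scons (chk B i) (scons (gr B g) v))) (x + 3) = chk B t := hx
    rw [bAll_chk h3]
    refine le_iInf fun z => ?_
    rw [bval, bval_fPin, bval, bval_fPin]
    show ⊤ ≤ bMem (opair (chk B i) (chk B y.1)) (gr B g) ⇨
      (bMem (opair (chk B i) (chk B z.1)) (gr B g) ⇨ bEq (chk B y.1) (chk B z.1))
    rw [mem_gr, mem_gr, chk_eq, le_himp_iff, le_himp_iff]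
    by_cases hy : y.1 = g i
    · by_cases hz : z.1 = g i
      · rw [if_pos (hy.trans hz.symm)]
        exact le_top
      · rw [if_neg hz, inf_bot_eq]
        exact bot_le
    · rw [if_neg hy, inf_bot_eq, bot_inf_eq]
      exact bot_le
  · have h1 : (scons (gr B g) v) (x + 1) = chk B t := hx
    rw [bAll_chk h1]
    refine le_iInf fun y => ?_
    have h2 : (scons (chk B y.1) (scons (gr B g) v)) (k + 2) = chkAll B I := hk
    rw [bEx_all h2]
    obtain ⟨i, hi⟩ := hg y.1 y.2
    refine le_trans ?_ (le_iSup _ i)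
    rw [bval_fPin]
    show ⊤ ≤ bMem (opair (chk B i) (chk B y.1)) (gr B g)
    rw [mem_gr, if_pos hi.symm]

end Pool.Agent.PCel
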