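import Pool.Agent.Lib.PCel.Card

/-!
# Seg: a smaller well order is a proper initial segment

PROOF. `InitialSeg.total (· < ·) (· < ·)` (or `InitialSeg.total`, or `Ordinal.type_lt_type_iff`-type lemmas): there is an
initial segment embedding of `I` into `J` or of `J` into `I`; the second is impossible since `#I < #J`
(`Cardinal.mk_le_of_injective`). For an initial segment embedding `f : I → J` which is not surjective (`#I < #J`) let
`t` be the least element not in its range; the range is a lower set, so it is `Iio t`.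
`seg_onto`: if all `#(Iio t) ≤ #I`, there is `g : I → J` whose range contains `Iio t`.
-/

set_option autoImplicit false

namespace Pool.Agent.PCel

open Cardinal

theorem seg {I J : Type} [LinearOrder I] [WellFoundedLT I] [LinearOrder J] [WellFoundedLT J]
    (h : #I < #J) : ∃ (f : I → J) (t : J), (∀ i j, j < f i ↔ ∃ i', i' < i ∧ f i' = j) ∧
      ∀ j, j < t ↔ ∃ i, f i = j := by
  rcases InitialSeg.total ((· < ·) : I → I → Prop) ((· < ·) : J → J → Prop) with f | f
  · have hns : ∃ t : J, ∀ i, f i ≠ t := by
      by_contra hcon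
      push Not at hcon
      exact absurd h (not_lt.2 (Cardinal.mk_le_of_surjective (f := f) hcon))
    let t : J := WellFounded.min (wellFounded_lt (α := J)) {t | ∀ i, f i ≠ t} hns
    have ht : ∀ i, f i ≠ t := WellFounded.min_mem (wellFounded_lt (α := J)) {t | ∀ i, f i ≠ t} hns
    have hmin : ∀ j, j < t → ∃ i, f i = j := by
      intro j hj
      by_contra hcon
      push Not at hcon
      exact WellFounded.not_lt_min (wellFounded_lt (α := J)) (s := {t | ∀ i, f i ≠ t}) hcon hj
    refine ⟨f, t, ?_, ?_⟩
    · intro i j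
      constructor
      · intro hj
        obtain ⟨i', hi'⟩ := f.mem_range_of_rel hj
        refine ⟨i', ?_, hi'⟩
        rw [← hi'] at hj
        exact f.map_rel_iff.1 hj
      · rintro ⟨i', hi', rfl⟩
        exact f.map_rel_iff.2 hi'
    · intro j
      refine ⟨hmin j, ?_⟩
      rintro ⟨i, rfl⟩
      rcases lt_trichotomy (f i) t with h1 | h1 | h1
      · exact h1
      · exact absurd h1 (ht i)
      · obtain ⟨i', hi'⟩ := f.mem_range_of_rel h1
        exact absurd hi' (ht i')
  · exact absurd h (not_lt.2 (Cardinal.mk_le_of_injective f.injective))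

theorem seg_onto {I J : Type} [Nonempty I] [LinearOrder J] (t : J) (h : #(Set.Iio t) ≤ #I) :
    ∃ g : I → J, ∀ y, y < t → ∃ i, g i = y := by
  classical
  obtain ⟨φ⟩ := Cardinal.le_def (Set.Iio t) I |>.1 h
  by_cases hne : Nonempty (Set.Iio t)
  · obtain ⟨y0⟩ := hne
    refine ⟨fun i => if hi : ∃ y : Set.Iio t, φ y = i then (hi.choose : J) else y0, ?_⟩
    intro y hy
    refine ⟨φ ⟨y, hy⟩, ?_⟩
    have hi : ∃ y' : Set.Iio t, φ y' = φ ⟨y, hy⟩ := ⟨⟨y, hy⟩, rfl⟩
    simp only [hi, dif_pos]
    have h1 := hi.choose_spec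
    have h2 := φ.injective h1
    rw [h2]
  · refine ⟨fun _ => t, ?_⟩
    intro y hy
    exact absurd ⟨⟨y, hy⟩⟩ hne

end Pool.Agent.PCel
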