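import Pool.Agent.Lib.PCel.Main
import Pool.Agent.Lib.PCel.Seg
import Pool.Agent.Lib.PCel.Iso
import Pool.Agent.Lib.PCel.Omg
import Pool.Agent.Lib.PCel.Ont
import Pool.Agent.Lib.PCel.BPr
import Pool.Agent.Lib.PCel.BKn
import Pool.Agent.Lib.PCel.BCc
import Pool.Agent.Lib.PCel.BIn
import Pool.Agent.Lib.PCel.BDe
import Pool.Agent.Lib.PCel.Comp
import Pool.Agent.Lib.PolB.Reg
import Pool.Agent.Lib.BVM.ZFC3

/-!
# Fin: the model
-/

set_option autoImplicit false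

namespace Pool.Agent.PCel

open Cardinal Pool.Agent.Lib.BVM Pool.Agent.Lib.BVM.BSet Pool.Agent.PolB Pool.Agent.PolF

/-- the uncountable cardinals, counted from the first one -/
noncomputable def al : ℕ → Cardinal.{0}
  | 0 => ℵ₁
  | k + 1 => Order.succ (al k)

theorem al_reg : ∀ k, (al k).IsRegular
  | 0 => Cardinal.isRegular_aleph_one
  | k + 1 => Cardinal.isRegular_succ (al_reg k).1

theorem al_unc : ∀ k, ℵ₀ < al k
  | 0 => Cardinal.aleph0_lt_aleph_one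
  | k + 1 => (al_unc k).trans (Order.lt_succ _)

theorem al_mono {j k : ℕ} (h : j < k) : al j < al k := by
  induction k with
  | zero => exact absurd h (Nat.not_lt_zero _)
  | succ k ih =>
    rcases Nat.lt_succ_iff_lt_or_eq.1 h with h | h
    · exact (ih h).trans (Order.lt_succ _)
    · rw [h]
      exact Order.lt_succ _

/-- the well order of type `al k` -/
abbrev Wo (k : ℕ) : Type := (al k).ord.ToType

theorem mk_Wo (k : ℕ) : #(Wo k) = al k := Cardinal.mk_ord_toType _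

theorem regW_Wo (k : ℕ) : RegW (Wo k) := regW_toType _ (al_reg k) (al_unc k)

noncomputable def ck (B : Type) [CompleteBooleanAlgebra B] : ℕ → BSet B
  | 0 => chkAll B ℕ
  | k + 1 => chkAll B (Wo k)

theorem bval_succ0 {P : Type} {le : P → P → Prop} (hr : ∀ p, le p p)
    (ht : ∀ p q r, le p q → le q r → le p r)
    (hR : ∀ (W : Type) [LinearOrder W] [WellFoundedLT W], RegW W → FReg le W)
    {v : ℕ → BSet (RO (Fsp le))} {k l : ℕ} (hk : v k = chkAll (RO (Fsp le)) ℕ)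
    (hl : v l = chkAll (RO (Fsp le)) (Wo 0)) : bval (fSucc k l) v = ⊤ := by
  have hW := regW_Wo 0
  have h0 : #ℕ < #(Wo 0) := by rw [mk_Wo, Cardinal.mk_nat]; exact al_unc 0
  obtain ⟨f, t, hf, ht'⟩ := seg h0
  have e1 : bval (fReg l) v = ⊤ := bval_reg hr ht hl hW.ne hW.nomax (hR _ hW)
  have e2 : bval (.mem k l) v = ⊤ := by
    show bMem (v k) (v l) = ⊤
    rw [hk, hl]
    exact chkAll_mem f t hf ht'
  have e3 : bval (bAll l (fOnto (k + 1) 0)) v = ⊤ := by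
    rw [bAll_all hl, iInf_eq_top]
    intro a
    obtain ⟨g, hg⟩ := seg_onto (I := ℕ) a (by
      rw [Cardinal.mk_nat]
      exact Order.lt_succ_iff.1 ((hW.iio a).trans_eq ((mk_Wo 0).trans Cardinal.succ_aleph0.symm)))
    exact bval_onto (k := k + 1) (x := 0) (t := a) hk rfl g hg
  show bval (fReg l) v ⊓ (bval (.mem k l) v ⊓ bval (bAll l (fOnto (k + 1) 0)) v) = ⊤
  rw [e1, e2, e3]
  simp

theorem bval_succ1 {P : Type} {le : P → P → Prop} (hr : ∀ p, le p p)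
    (ht : ∀ p q r, le p q → le q r → le p r)
    (hR : ∀ (W : Type) [LinearOrder W] [WellFoundedLT W], RegW W → FReg le W)
    {v : ℕ → BSet (RO (Fsp le))} {k l : ℕ} (m : ℕ) (hk : v k = chkAll (RO (Fsp le)) (Wo m))
    (hl : v l = chkAll (RO (Fsp le)) (Wo (m + 1))) : bval (fSucc k l) v = ⊤ := by
  have hW := regW_Wo m
  have hL := regW_Wo (m + 1)
  have : Nonempty (Wo m) := hW.ne
  have h0 : #(Wo m) < #(Wo (m + 1)) := by rw [mk_Wo, mk_Wo]; exact al_mono (Nat.lt_succ_self m)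
  obtain ⟨f, t, hf, ht'⟩ := seg h0
  have e1 : bval (fReg l) v = ⊤ := bval_reg hr ht hl hL.ne hL.nomax (hR _ hL)
  have e2 : bval (.mem k l) v = ⊤ := by
    show bMem (v k) (v l) = ⊤
    rw [hk, hl]
    exact chkAll_mem f t hf ht'
  have e3 : bval (bAll l (fOnto (k + 1) 0)) v = ⊤ := by
    rw [bAll_all hl, iInf_eq_top]
    intro a
    obtain ⟨g, hg⟩ := seg_onto (I := Wo m) a
      ((Order.lt_succ_iff.1 ((hL.iio a).trans_eq (mk_Wo (m + 1)))).trans_eq (mk_Wo m).symm)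
    exact bval_onto (k := k + 1) (x := 0) (t := a) hk rfl g hg
  show bval (fReg l) v ⊓ (bval (.mem k l) v ⊓ bval (bAll l (fOnto (k + 1) 0)) v) = ⊤
  rw [e1, e2, e3]
  simp

theorem model_pcel (n : ℕ) (hn : 1 ≤ n) : ∃ (M : Type 1) (E : M → M → Prop), IsZFC E ∧
    ∃ (w : ℕ → M) (R Q : M), IsOmega E (w 0) ∧ (∀ k, IsSucc E (w k) (w (k + 1))) ∧
    IsPre E (w (n + 1)) R ∧ (∀ k < n, InSpec E (w (k + 1)) (w (n + 1)) R) ∧
    ¬ DensLe E (w n) (w (n + 1)) R ∧ IsPre E (w (n + 1)) Q ∧ CC E (w (n + 1)) (w (n + 1)) Q ∧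
    ¬ ProdCC E (w (n + 1)) (w (n + 1)) R (w (n + 1)) Q := by
  obtain ⟨m, rfl⟩ : ∃ m, n = m + 1 := ⟨n - 1, by omega⟩
  obtain ⟨P, le, O, O', σ, ⟨p0⟩, hr, ht, hR, hO, hO', hK, hCC, hIn⟩ :=
    main_pcel (Wo (m + 1)) (regW_Wo (m + 1))
  let B := RO (Fsp le)
  have hB : (⊤ : B) ≠ ⊥ := by
    intro e
    have h1 : Ap p0 (⊤ : RO (Fsp le)) := Ap_top p0
    rw [show (⊤ : RO (Fsp le)) = ⊥ from e] at h1
    exact Ap_bot p0 h1
  obtain ⟨U, -⟩ := exists_ult hB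
  let v : ℕ → BSet B := scons (relN (fun z : Wo (m + 1) × Wo (m + 1) => toB le O z))
    (scons (relN (fun z : Wo (m + 1) × Wo (m + 1) => toB le O' z)) (ck B))
  have hvR : v 0 = relN (fun z : Wo (m + 1) × Wo (m + 1) => toB le O z) := rfl
  have hvQ : v 1 = relN (fun z : Wo (m + 1) × Wo (m + 1) => toB le O' z) := rfl
  have hv0 : v 2 = chkAll B ℕ := rfl
  have hvk : ∀ k, v (k + 3) = chkAll B (Wo k) := fun k => rfl
  have hvL : v (m + 1 + 1 + 2) = chkAll B (Wo (m + 1)) := rfl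
  have tr : ∀ φ : Fm, bval φ v = ⊤ → sat U.E φ (fun i => U.cls (v i)) := fun φ hφ => by
    rw [U.los, hφ]; exact U.top'
  have trn : ∀ φ : Fm, bval φ v = ⊥ → ¬ sat U.E φ (fun i => U.cls (v i)) := fun φ hφ => by
    rw [U.los, hφ]; exact U.bot'
  refine ⟨U.Mod, U.E, U.isZFC, fun k => U.cls (v (k + 2)), U.cls (v 0), U.cls (v 1),
    tr (fOmega 2) (bval_omega hv0), fun k => tr (fSucc (k + 2) (k + 3)) ?_,
    tr (fPre (m + 1 + 1 + 2) 0) (bval_pre hr ht O hvL hvR hO), fun k hk => ?_,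
    trn (fDen (m + 1 + 2) (m + 1 + 1 + 2) 0) (bval_den hr ht O (hvk m) hvL hvR
      (hK (Wo m) (regW_Wo m) (by rw [mk_Wo, mk_Wo]; exact al_mono (Nat.lt_succ_self m))).2),
    tr (fPre (m + 1 + 1 + 2) 1) (bval_pre hr ht O' hvL hvQ hO'),
    tr (fCC (m + 1 + 1 + 2) (m + 1 + 1 + 2) 1) (bval_cc hr ht O' hvL hvL hvQ hCC),
    trn (fPCC (m + 1 + 1 + 2) (m + 1 + 1 + 2) 0 (m + 1 + 1 + 2) 1)
      (bval_pcc hr ht O O' σ hvL hvL hvR hvL hvQ hIn)⟩
  · rcases k with _ | k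
    · exact bval_succ0 hr ht hR hv0 (hvk 0)
    · exact bval_succ1 hr ht hR k (hvk k) (hvk (k + 1))
  · exact inSpec_of_kna U.isZFC (tr (fKna (k + 1 + 2) (m + 1 + 1 + 2) 0)
      (bval_kna hr ht O (hvk k) hvL hvR
        (hK (Wo k) (regW_Wo k) (by rw [mk_Wo, mk_Wo]; exact al_mono hk)).1))

end Pool.Agent.PCel
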