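import Pool.Agent.Lib.PCel.Mdl
import Pool.Agent.Lib.PolB.Fml

/-!
# The formulas expressing the definitions of `Mdl`
-/

set_option autoImplicit false

namespace Pool.Agent.PCel

open Pool.Agent.Lib.BVM Pool.Agent.PolB

def fOmega (x : ℕ) : Fm := .and (fLim x) (bAll x (.neg (fLim 0)))

def fFun (l S f : ℕ) : Fm :=
  .and (bAll l (bEx (S + 1) (fPin (f + 2) 1 0)))
    (bAll l (bAll (S + 1) (bAll (S + 2) (.imp (fPin (f + 3) 2 1) (.imp (fPin (f + 3) 2 0)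
      (.eq 1 0))))))

def fOnto (k x : ℕ) : Fm :=
  .ex (.and (bAll (k + 1) (bAll (x + 2) (bAll (x + 3) (.imp (fPin 3 2 1) (.imp (fPin 3 2 0)
    (.eq 1 0)))))) (bAll (x + 1) (bEx (k + 2) (fPin 2 0 1))))

def fSucc (k l : ℕ) : Fm := .and (fReg l) (.and (.mem k l) (bAll l (fOnto (k + 1) 0)))

def fPre (S R : ℕ) : Fm :=
  .and (bAll S (fPin (R + 1) 0 0))
    (bAll S (bAll (S + 1) (bAll (S + 2) (.imp (fPin (R + 3) 2 1) (.imp (fPin (R + 3) 1 0)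
      (fPin (R + 3) 2 0))))))

def fComp (S R a b : ℕ) : Fm := bEx S (.and (fPin (R + 1) 0 (a + 1)) (fPin (R + 1) 0 (b + 1)))

def fCC (l S R : ℕ) : Fm :=
  .all (.imp (fFun (l + 1) (S + 1) 0) (bEx (l + 1) (bEx (l + 2) (.and (.mem 1 0)
    (bEx (S + 3) (bEx (S + 4) (.and (fPin 4 3 1) (.and (fPin 4 2 0)
      (fComp (S + 5) (R + 5) 1 0)))))))))

def fPCC (l S R T Q : ℕ) : Fm :=
  .all (.all (.imp (fFun (l + 2) (S + 2) 1) (.imp (fFun (l + 2) (T + 2) 0)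
    (bEx (l + 2) (bEx (l + 3) (.and (.mem 1 0)
      (bEx (S + 4) (bEx (S + 5) (bEx (T + 6) (bEx (T + 7) (.and (fPin 7 5 3) (.and (fPin 7 4 2)
        (.and (fPin 6 5 1) (.and (fPin 6 4 0) (.and (fComp (S + 8) (R + 8) 3 2)
          (fComp (T + 8) (Q + 8) 1 0))))))))))))))))

def fDen (k S R : ℕ) : Fm :=
  .ex (.and (fFun (k + 1) (S + 1) 0) (bAll (S + 1) (bEx (k + 2) (bEx (S + 3)
    (.and (fPin 3 1 0) (fPin (R + 4) 0 2))))))

def fKna (l S R : ℕ) : Fm :=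
  .all (.imp (fFun (l + 1) (S + 1) 0) (.ex (.and (fFun (l + 2) (l + 2) 0)
    (bAll (l + 2) (bAll (l + 3) (.imp (.mem 1 0) (bEx (l + 4) (bEx (l + 5) (.and (.mem 1 0)
      (.and (fPin 4 3 1) (.and (fPin 4 2 0) (bEx (S + 6) (bEx (S + 7) (.and (fPin 7 3 1)
        (.and (fPin 7 2 0) (fComp (S + 8) (R + 8) 1 0))))))))))))))))

variable {M : Type*} (E : M → M → Prop) (v : ℕ → M)

theorem sat_fOmega (x : ℕ) : sat E (fOmega x) v ↔ IsOmega E (v x) := Iff.rfl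

theorem sat_fFun (l S f : ℕ) : sat E (fFun l S f) v ↔ IsFun E (v l) (v S) (v f) := Iff.rfl

theorem sat_fOnto (k x : ℕ) : sat E (fOnto k x) v ↔ Onto E (v k) (v x) := Iff.rfl

theorem sat_fSucc (k l : ℕ) : sat E (fSucc k l) v ↔ IsSucc E (v k) (v l) := Iff.rfl

theorem sat_fPre (S R : ℕ) : sat E (fPre S R) v ↔ IsPre E (v S) (v R) := Iff.rfl

theorem sat_fComp (S R a b : ℕ) : sat E (fComp S R a b) v ↔ Comp E (v S) (v R) (v a) (v b) :=
  Iff.rfl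

theorem sat_fCC (l S R : ℕ) : sat E (fCC l S R) v ↔ CC E (v l) (v S) (v R) := Iff.rfl

theorem sat_fPCC (l S R T Q : ℕ) :
    sat E (fPCC l S R T Q) v ↔ ProdCC E (v l) (v S) (v R) (v T) (v Q) := Iff.rfl

theorem sat_fDen (k S R : ℕ) : sat E (fDen k S R) v ↔ DensLe E (v k) (v S) (v R) := Iff.rfl

theorem sat_fKna (l S R : ℕ) : sat E (fKna l S R) v ↔ Kna E (v l) (v S) (v R) := Iff.rfl

end Pool.Agent.PCel
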