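import Pool.Agent.Lib.PCel.Bnd

/-!
# Frg: ccc posets preserve regularity

PROOF. `FReg le K`: let `t`, `f`, `p`, totality `h1` and functionality `h2` below `t`. Apply `bnd` with
`X = {i // i < t}` (`#X = #(Iio t) < #K`), `R i r b = ∀ x, b ≤ x → Neg le (Mem le f (i, x)) r`, to `p`: given `q ≤ p` (`le q p`),
`h1 i` gives `r`, `le r q`, `x` with `Mem le f (i, x) r`; with `b` such that `x < b` (`RegW.nomax`), `R i r b` holds: if `b ≤ y` then
`x ≠ y`, and for `s ≤ r`, `Mem le f (i, y) s` would contradict `h2` (`Mem_down`). One gets `b`. Conclusion: for `q ≤ p` take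
`r = q` and this `b`: if `s ≤ q`, `i < t`, `b ≤ x`, `Mem le f (i, x) s`, then `bnd` gives `r' ≤ s` with
`Neg le (Mem le f (i, x)) r'`, but `Mem le f (i, x) r'` (`Mem_down`) and `le r' r'`.
-/

set_option autoImplicit false
set_option linter.unusedSectionVars false

namespace Pool.Agent.PCel

open Cardinal Pool.Agent.PolF

variable {P : Type} {le : P → P → Prop} {K : Type} [LinearOrder K] [WellFoundedLT K]

theorem freg (hr : ∀ p, le p p) (ht : ∀ p q r, le p q → le q r → le p r) (hc : Ccc le)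
    (hK : RegW K) : FReg le K := by
  intro t f p h1 h2
  have hX : #{i : K // i < t} < #K := hK.iio t
  obtain ⟨b, hb⟩ := bnd hr ht hc hK hX
    (fun i r b => ∀ x, b ≤ x → Neg le (Mem le f (i.1, x)) r)
    (fun i p q b hqp h x hx => Neg_down ht hqp (h x hx))
    (fun i p b b' hbb h x hx => h x (hbb.trans hx)) p (by
      intro i q hq
      obtain ⟨r, hrq, x, hx⟩ := h1 i.1 i.2 q hq
      obtain ⟨b, hb⟩ := hK.nomax x
      refine ⟨r, hrq, b, fun y hy s hs hm => ?_⟩
      exact h2 i.1 i.2 x y (ne_of_lt (hb.trans_le hy)) s (ht _ _ _ hs (ht _ _ _ hrq hq))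
        ⟨Mem_down ht hs hx, hm⟩)
  intro q hq
  refine ⟨q, hr q, b, fun i hi x hx s hs hm => ?_⟩
  obtain ⟨r, hrs, hR⟩ := hb ⟨i, hi⟩ s (ht _ _ _ hs hq)
  exact hR x hx r (hr r) (Mem_down ht hrs hm)

end Pool.Agent.PCel
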