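import Pool.Agent.Lib.PCel.Fml
import Pool.Agent.Lib.PCel.Defs
import Pool.Agent.Lib.PolB.Rob
import Pool.Agent.Lib.PolB.Prs

/-!
# Fun: functions between check sets

`nm f` is the name (in the sense of `PolF`) of the restriction of `f` to `I × J`.

PROOF. `mem_nm` is `Mem_toS`. `ap_fun`: unfold `fFun`, `Ap_inf`, `bAll_all`, `bEx_all`, `Ap_iInf`, `Ap_iSup`, `Ap_himp`, `bval_fPin`; the
atomic formula `.eq 1 0` has value `bEq (chk y) (chk z)`, `⊤` or `⊥` (`chk_eq`). First conjunct: for all `i`, for all `q ≤ p` there is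
`r ≤ q` and `y` with `Ap r (bMem (opair (chk i) (chk y)) (v f))`. Second: for all `i`, `y`, `z`: for `q ≤ p` with
`Ap q (.. y)`, `r ≤ q` with `Ap r (.. z)`, `Ap r (bEq (chk y) (chk z))`; it holds iff for `y ≠ z` no `q ≤ p` has both
(`Ap_down`, `Ap_bot`). Compare `PolB/Reg.lean`.
-/

set_option autoImplicit false

namespace Pool.Agent.PCel

open Pool.Agent.Lib.BVM Pool.Agent.Lib.BVM.BSet Pool.Agent.PolB Pool.Agent.PolF

variable {P : Type} {le : P → P → Prop} {I J : Type} [LinearOrder I] [WellFoundedLT I]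
  [LinearOrder J] [WellFoundedLT J]

noncomputable def nm (le : P → P → Prop) (I J : Type) [LinearOrder I] [WellFoundedLT I]
    [LinearOrder J] [WellFoundedLT J] (f : BSet (RO (Fsp le))) : I × J → Set P :=
  toS (fun z : I × J => bMem (opair (chk (RO (Fsp le)) z.1) (chk (RO (Fsp le)) z.2)) f)

theorem mem_nm (hr : ∀ p, le p p) (ht : ∀ p q r, le p q → le q r → le p r)
    (f : BSet (RO (Fsp le))) (i : I) (j : J) (p : P) : Mem le (nm le I J f) (i, j) p ↔
      Ap p (bMem (opair (chk (RO (Fsp le)) i) (chk (RO (Fsp le)) j)) f) :=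
  Mem_toS hr ht _ _ _

theorem ap_fun (hr : ∀ p, le p p) (ht : ∀ p q r, le p q → le q r → le p r)
    {v : ℕ → BSet (RO (Fsp le))} {l S f : ℕ} (hl : v l = chkAll (RO (Fsp le)) I)
    (hS : v S = chkAll (RO (Fsp le)) J) (p : P) :
    Ap p (bval (fFun l S f) v) ↔ IsF le (nm le I J (v f)) p := by
  have e0 : bval (fFun l S f) v = bval (bAll l (bEx (S + 1) (fPin (f + 2) 1 0))) v ⊓
      bval (bAll l (bAll (S + 1) (bAll (S + 2) (.imp (fPin (f + 3) 2 1) (.imp (fPin (f + 3) 2 0)
        (.eq 1 0)))))) v := rfl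
  rw [e0, Ap_inf]
  unfold IsF
  refine and_congr ?_ ?_
  · rw [bAll_all hl, Ap_iInf hr ht]
    refine forall_congr' fun i => ?_
    have hS1 : (scons (chk (RO (Fsp le)) i) v) (S + 1) = chkAll (RO (Fsp le)) J := hS
    rw [bEx_all hS1, Ap_iSup hr ht]
    refine forall_congr' fun q => forall_congr' fun _ => exists_congr fun r =>
      and_congr_right fun _ => exists_congr fun y => ?_
    rw [bval_fPin]
    exact (mem_nm hr ht (v f) i y r).symm
  · rw [bAll_all hl, Ap_iInf hr ht]
    refine forall_congr' fun i => ?_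
    have hS1 : (scons (chk (RO (Fsp le)) i) v) (S + 1) = chkAll (RO (Fsp le)) J := hS
    rw [bAll_all hS1, Ap_iInf hr ht]
    refine forall_congr' fun x => ?_
    have hS2 : (scons (chk (RO (Fsp le)) x) (scons (chk (RO (Fsp le)) i) v)) (S + 2) =
        chkAll (RO (Fsp le)) J := hS
    rw [bAll_all hS2, Ap_iInf hr ht]
    refine forall_congr' fun y => ?_
    have e1 : bval (.imp (fPin (f + 3) 2 1) (.imp (fPin (f + 3) 2 0) (.eq 1 0)))
        (scons (chk (RO (Fsp le)) y) (scons (chk (RO (Fsp le)) x)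
          (scons (chk (RO (Fsp le)) i) v))) =
        (bMem (opair (chk (RO (Fsp le)) i) (chk (RO (Fsp le)) x)) (v f) ⇨
          (bMem (opair (chk (RO (Fsp le)) i) (chk (RO (Fsp le)) y)) (v f) ⇨
            bEq (chk (RO (Fsp le)) x) (chk (RO (Fsp le)) y))) := by
      rw [bval, bval, bval_fPin, bval_fPin]
      rfl
    rw [e1, Ap_himp hr ht]
    constructor
    · intro h hxy q hq hm
      have h1 := h q hq ((mem_nm hr ht _ _ _ _).1 hm.1)
      rw [Ap_himp hr ht] at h1
      have h2 := h1 q (hr q) ((mem_nm hr ht _ _ _ _).1 hm.2)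
      rw [chk_eq_of_ne hxy] at h2
      exact Ap_bot q h2
    · intro h q hq h1
      rw [Ap_himp hr ht]
      intro r hrq h2
      by_cases hxy : x = y
      · rw [hxy, bEq_refl]
        exact Ap_top r
      · exact absurd ⟨(mem_nm hr ht _ _ _ _).2 (Ap_down h1 hrq), (mem_nm hr ht _ _ _ _).2 h2⟩
          (h hxy r (ht _ _ _ hrq hq))

/-- `IsF` depends only on the forced membership -/
theorem IsF_congr {F G : I × J → Set P} {p : P} (h : ∀ x q, Mem le F x q ↔ Mem le G x q) :
    IsF le F p ↔ IsF le G p := by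
  unfold IsF Exi Pool.Agent.PolF.Neg
  simp only [h]

/-- the name of a ground model function -/
noncomputable def gr (B : Type) [CompleteBooleanAlgebra B] {I J : Type} [LinearOrder I]
    [WellFoundedLT I] [LinearOrder J] [WellFoundedLT J] (g : I → J) : BSet B :=
  open Classical in relN (fun z : I × J => if z.2 = g z.1 then ⊤ else ⊥)

theorem mem_gr {B : Type} [CompleteBooleanAlgebra B] (g : I → J) (i : I) (j : J) :
    bMem (opair (chk B i) (chk B j)) (gr B g) = open Classical in if j = g i then ⊤ else ⊥ := by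
  classical
  unfold gr
  rw [bMem_relN]

theorem ap_fun_gr (hr : ∀ p, le p p) (ht : ∀ p q r, le p q → le q r → le p r)
    {v : ℕ → BSet (RO (Fsp le))} {l S f : ℕ} (hl : v l = chkAll (RO (Fsp le)) I)
    (hS : v S = chkAll (RO (Fsp le)) J) (g : I → J) (hf : v f = gr (RO (Fsp le)) g) (p : P) :
    Ap p (bval (fFun l S f) v) := by
  classical
  rw [ap_fun (I := I) (J := J) hr ht hl hS, hf]
  refine ⟨fun i q hq => ⟨q, hr q, g i, ?_⟩, fun i x y hxy q hq hm => ?_⟩
  · show Mem le (nm le I J (gr (RO (Fsp le)) g)) (i, g i) q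
    rw [mem_nm hr ht, mem_gr, if_pos rfl]
    exact Ap_top q
  · have h1 := (mem_nm hr ht _ _ _ _).1 hm.1
    have h2 := (mem_nm hr ht _ _ _ _).1 hm.2
    rw [mem_gr] at h1 h2
    by_cases hx : x = g i
    · by_cases hy : y = g i
      · exact hxy (hx.trans hy.symm)
      · rw [if_neg hy] at h2
        exact Ap_bot q h2
    · rw [if_neg hx] at h1
      exact Ap_bot q h1

end Pool.Agent.PCel
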