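import Pool.Agent.Lib.PCel.Val

/-!
# Lab: the labels of the values of a function

`Lab φ F d n i` is the set of conditions forcing that the value of `F` at `i` (read as a homogeneous set of
colour `0`: the empty set if it is not homogeneous) has the label `n` at `d`.

PROOF. `lab_down`: `Mem_down`, `Bad_mono`, `Hom_mono`, `r.h ⊆ s.h`.
`lab_comp`: let `y`, `z` be the values from the two memberships; let `y' = φ y` or `∅` in the two cases (`Hom`, `Bad`),
`z'` similarly; `((d, y'), n), ((d, z'), n) ∈ r.h`, so `r.hom` gives that all pairs of `y' ∪ z'` are in `r.z`,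
i.e. `Hom false r (y' ∪ z')`; take `u` with `φ u = y' ∪ z'` (`hφ`). `r ∈ Ord φ false (u, y)`: if `Bad false r (φ y)` clear;
otherwise `y' = φ y ⊆ φ u`. Similarly for `z`. `mem_ord_of`.
`lab_dense`: for each `i` and `q ≤ p` there are `r ≤ q` and `n` with `r ∈ Lab φ F d n i`: `hF.1 i`: `q1 ≤ q` with
`Mem Le F (i, y) q1`; `q2 ≤ q1` deciding `φ y`; if `Hom false q2 (φ y)`, `exists_label q2 d (φ y)` (`hd`); if `Bad`,
`exists_label q2 d ∅`.
`lab_unb`: suppose not: for all `q ≤ p` and `n` there are `b : W` and `r ≤ q` with: for all `s ≤ r`, `i > b`, `s ∉ Lab φ F d n i`. Apply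
`bnd` with `K = W`, `X = ℕ`, `R n r b = ∀ i, b < i → ∀ s, Le s r → s ∉ Lab φ F d n i` to `p`: it gives `b` such that for all `n`, `q ≤ p` there
is `r ≤ q` with `R n r b`. Take `i > b` (`RegW.nomax`), by `lab_dense` `r ≤ p`, `n` with `r ∈ Lab φ F d n i`; then `r' ≤ r` with
`R n r' b`, but `r' ∈ Lab φ F d n i` (`lab_down`), a contradiction.
-/

set_option autoImplicit false

namespace Pool.Agent.PCel

open Cardinal Pool.Agent.PolF

variable {W L : Type} [LinearOrder W] [WellFoundedLT W] [LinearOrder L] [WellFoundedLT L]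

def Lab {W L : Type} [LT L] (φ : L → Finset L) (F : W × L → Set (Cd L)) (d : L) (n : ℕ) (i : W) :
    Set (Cd L) :=
  {r | ∃ y, Mem Le F (i, y) r ∧
    ((Bad false r (φ y) ∧ ((d, ∅), n) ∈ r.h) ∨ (Hom false r (φ y) ∧ ((d, φ y), n) ∈ r.h))}

theorem lab_down {φ : L → Finset L} {F : W × L → Set (Cd L)} {d : L} {n : ℕ} {i : W} {r s : Cd L}
    (h : Le s r) (hr : r ∈ Lab φ F d n i) : s ∈ Lab φ F d n i := by
  obtain ⟨y, hy, hor⟩ := hr
  refine ⟨y, Mem_down Le_trans h hy, ?_⟩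
  rcases hor with ⟨h1, h2⟩ | ⟨h1, h2⟩
  · exact Or.inl ⟨Bad_mono h h1, h.2.2 h2⟩
  · exact Or.inr ⟨Hom_mono h h1, h.2.2 h2⟩

private theorem lab_aux {φ : L → Finset L} {F : W × L → Set (Cd L)} {d : L} {n : ℕ} {i : W}
    {r : Cd L} (hi : r ∈ Lab φ F d n i) : ∃ (y : L) (y' : Finset L), Mem Le F (i, y) r ∧
      ((d, y'), n) ∈ r.h ∧ (Bad false r (φ y) ∨ φ y ⊆ y') := by
  obtain ⟨y, hy, ⟨h1, h2⟩ | ⟨h1, h2⟩⟩ := hi
  · exact ⟨y, ∅, hy, h2, Or.inl h1⟩
  · exact ⟨y, φ y, hy, h2, Or.inr fun _ h => h⟩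

theorem lab_comp {φ : L → Finset L} (hφ : Function.Surjective φ) {F : W × L → Set (Cd L)} {d : L}
    {n : ℕ} {i j : W} {r : Cd L} (hi : r ∈ Lab φ F d n i) (hj : r ∈ Lab φ F d n j) :
    ∃ y z u : L, Mem Le F (i, y) r ∧ Mem Le F (j, z) r ∧ Mem Le (Ord φ false) (u, y) r ∧
      Mem Le (Ord φ false) (u, z) r := by
  classical
  obtain ⟨y, y', hy, hly, hoy⟩ := lab_aux hi
  obtain ⟨z, z', hz, hlz, hoz⟩ := lab_aux hj
  obtain ⟨u, hu⟩ := hφ (y' ∪ z')
  have hom : Hom false r (φ u) := by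
    intro a ha b hb hab
    rw [hu, Finset.mem_union] at ha hb
    exact r.hom d y' z' n hly hlz a ha b hb hab
  refine ⟨y, z, u, hy, hz, mem_ord_of φ false ?_, mem_ord_of φ false ?_⟩
  · rcases hoy with h | h
    · exact Or.inl h
    · refine Or.inr ⟨fun a ha => ?_, hom⟩
      change a ∈ φ u
      rw [hu]
      exact Finset.mem_union_left _ (h ha)
  · rcases hoz with h | h
    · exact Or.inl h
    · refine Or.inr ⟨fun a ha => ?_, hom⟩
      change a ∈ φ u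
      rw [hu]
      exact Finset.mem_union_right _ (h ha)

theorem lab_dense {φ : L → Finset L} {F : W × L → Set (Cd L)} {d : L} {p : Cd L}
    (hF : IsF Le F p)
    (hd : ∀ (i : W) (y : L) (r : Cd L), Le r p → Mem Le F (i, y) r → ∀ x ∈ φ y, x < d)
    (i : W) (q : Cd L) (hq : Le q p) : ∃ r, Le r q ∧ ∃ n, r ∈ Lab φ F d n i := by
  obtain ⟨q1, hq1, y, hy⟩ := hF.1 i q hq
  obtain ⟨q2, hq2, hdc⟩ := exists_dcd q1 (φ y)
  have h2q : Le q2 q := Le_trans _ _ _ hq2 hq1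
  have hy2 : Mem Le F (i, y) q2 := Mem_down Le_trans hq2 hy
  rcases Hom_or_Bad false hdc with h | h
  · obtain ⟨q3, hq3, n, hn⟩ := exists_label q2 d (φ y) (hd i y q2 (Le_trans _ _ _ h2q hq) hy2) h
    exact ⟨q3, Le_trans _ _ _ hq3 h2q, n, y, Mem_down Le_trans hq3 hy2,
      Or.inr ⟨Hom_mono hq3 h, hn⟩⟩
  · obtain ⟨q3, hq3, n, hn⟩ := exists_label q2 d ∅ (fun x hx => absurd hx (Finset.notMem_empty x))
      (fun x hx => absurd hx (Finset.notMem_empty x))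
    exact ⟨q3, Le_trans _ _ _ hq3 h2q, n, y, Mem_down Le_trans hq3 hy2,
      Or.inl ⟨Bad_mono hq3 h, hn⟩⟩

theorem lab_unb (hW : RegW W) {φ : L → Finset L} {F : W × L → Set (Cd L)} {d : L} {p : Cd L}
    (hF : IsF Le F p)
    (hd : ∀ (i : W) (y : L) (r : Cd L), Le r p → Mem Le F (i, y) r → ∀ x ∈ φ y, x < d) :
    ∃ q, Le q p ∧ ∃ n, ∀ (b : W) (r : Cd L), Le r q → ∃ s, Le s r ∧ ∃ i, b < i ∧
      s ∈ Lab φ F d n i := by
  by_contra hcon
  push Not at hcon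
  obtain ⟨b, hb⟩ := bnd (le := (Le : Cd L → Cd L → Prop)) Le_refl Le_trans (ccd L) hW (X := ℕ)
    (by rw [Cardinal.mk_nat]; exact hW.unc)
    (fun n r b => ∀ i, b < i → ∀ s, Le s r → s ∉ Lab φ F d n i)
    (fun n p q b h hR i hi s hs => hR i hi s (Le_trans _ _ _ hs h))
    (fun n p b b' h hR i hi s hs => hR i (lt_of_le_of_lt h hi) s hs) p (by
      intro n q hq
      obtain ⟨b, r, hr, h⟩ := hcon q hq n
      exact ⟨r, hr, b, fun i hi s hs => h s hs i hi⟩)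
  obtain ⟨i, hi⟩ := hW.nomax b
  obtain ⟨r, hr, n, hn⟩ := lab_dense hF hd i p (Le_refl p)
  obtain ⟨r', hr', h'⟩ := hb n r hr
  exact h' i hi r' (Le_refl r') (lab_down hr' hn)

end Pool.Agent.PCel
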