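import Pool.Agent.Lib.PCel.Dec

/-!
# Pre: `Ord φ i` is forced to be a preorder; the two orders are incompatible on singletons
-/

set_option autoImplicit false

namespace Pool.Agent.PCel

open Pool.Agent.PolF

variable {X : Type} [LinearOrder X]

theorem fpre (φ : X → Finset X) (i : Bool) : FPre (Le : Cd X → Cd X → Prop) (Ord φ i) := by
  constructor
  · intro a p
    apply Mem_loc Le_trans Le_refl
    intro q _
    obtain ⟨r, hr, hd⟩ := exists_dcd q (φ a)
    refine ⟨r, hr, ?_⟩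
    apply mem_ord_of
    rcases Hom_or_Bad i hd with h | h
    · exact Or.inr ⟨fun _ hx => hx, h⟩
    · exact Or.inl h
  · intro a b c p hab hbc
    apply Mem_loc Le_trans Le_refl
    intro q hq
    obtain ⟨r, hr, hd⟩ := exists_dcd q (φ a ∪ φ b ∪ φ c)
    refine ⟨r, hr, ?_⟩
    have hrp : Le r p := Le_trans _ _ _ hr hq
    have h1 := (mem_ord φ i (Dcd_sub (fun x hx => Finset.mem_union_left _ hx) hd)).1
      (Mem_down Le_trans hrp hab)
    have hs : φ b ∪ φ c ⊆ φ a ∪ φ b ∪ φ c := by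
      intro x hx
      rcases Finset.mem_union.1 hx with hx | hx
      · exact Finset.mem_union_left _ (Finset.mem_union_right _ hx)
      · exact Finset.mem_union_right _ hx
    have h2 := (mem_ord φ i (Dcd_sub hs hd)).1 (Mem_down Le_trans hrp hbc)
    apply mem_ord_of
    rcases h2 with h2 | ⟨h2, h2'⟩
    · exact Or.inl h2
    · rcases h1 with h1 | ⟨h1, h1'⟩
      · exact absurd h1 (fun h => not_Hom_Bad h2' h)
      · exact Or.inr ⟨fun x hx => h1 (h2 hx), h1'⟩

private theorem single {φ : X → Finset X} {σ : X → X} (hσ : ∀ x, φ (σ x) = {x}) {i : Bool}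
    {u x : X} {r : Cd X} (hd : Dcd r (φ u ∪ {x})) (h : Mem Le (Ord φ i) (u, σ x) r) :
    x ∈ φ u ∧ Hom i r (φ u) := by
  have h1 := (mem_ord φ i (by rw [hσ]; exact hd)).1 h
  rcases h1 with ⟨y, hy, z, hz, hne, -⟩ | ⟨h1, h2⟩
  · exfalso
    simp only [hσ, Finset.mem_singleton] at hy hz
    exact hne (hy.trans hz.symm)
  · refine ⟨h1 ?_, h2⟩
    simp only [hσ, Finset.mem_singleton]

theorem finc (φ : X → Finset X) (σ : X → X) (hσ : ∀ x, φ (σ x) = {x}) :
    FInc (Le : Cd X → Cd X → Prop) (Ord φ false) (Ord φ true) σ := by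
  intro i j hij p u u' h1 h2 h3 h4
  obtain ⟨r, hr, hd⟩ := exists_dcd p (φ u ∪ φ u' ∪ {i, j})
  have s1 : φ u ∪ {i} ⊆ φ u ∪ φ u' ∪ {i, j} := by
    intro x hx
    simp only [Finset.mem_union, Finset.mem_singleton, Finset.mem_insert] at hx ⊢
    tauto
  have s2 : φ u ∪ {j} ⊆ φ u ∪ φ u' ∪ {i, j} := by
    intro x hx
    simp only [Finset.mem_union, Finset.mem_singleton, Finset.mem_insert] at hx ⊢
    tauto
  have s3 : φ u' ∪ {i} ⊆ φ u ∪ φ u' ∪ {i, j} := by
    intro x hx
    simp only [Finset.mem_union, Finset.mem_singleton, Finset.mem_insert] at hx ⊢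
    tauto
  have s4 : φ u' ∪ {j} ⊆ φ u ∪ φ u' ∪ {i, j} := by
    intro x hx
    simp only [Finset.mem_union, Finset.mem_singleton, Finset.mem_insert] at hx ⊢
    tauto
  obtain ⟨a1, a2⟩ := single hσ (Dcd_sub s1 hd) (Mem_down Le_trans hr h1)
  obtain ⟨b1, b2⟩ := single hσ (Dcd_sub s2 hd) (Mem_down Le_trans hr h2)
  obtain ⟨c1, c2⟩ := single hσ (Dcd_sub s3 hd) (Mem_down Le_trans hr h3)
  obtain ⟨d1, d2⟩ := single hσ (Dcd_sub s4 hd) (Mem_down Le_trans hr h4)
  have e1 := a2 i a1 j b1 hij.ne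
  have e2 := c2 i c1 j d1 hij.ne
  have e1' : (i, j) ∈ r.z := by simpa only [Col, Bool.false_eq_true, if_false] using e1
  have e2' : (i, j) ∈ r.c := by simpa only [Col, if_true] using e2
  exact r.disj i j e2' e1'

end Pool.Agent.PCel
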