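import Pool.Agent.Lib.PCel.Frg
import Pool.Agent.Lib.PCel.Pre
import Pool.Agent.Lib.PCel.FKn
import Pool.Agent.Lib.PCel.FCc

/-!
# Main: the forcing theorem
-/

set_option autoImplicit false

namespace Pool.Agent.PCel

open Cardinal Pool.Agent.PolF

theorem main_pcel (L : Type) [LinearOrder L] [WellFoundedLT L] (hL : RegW L) :
    ∃ (P : Type) (le : P → P → Prop) (O O' : L × L → Set P) (σ : L → L), Nonempty P ∧
      (∀ p, le p p) ∧ (∀ p q r, le p q → le q r → le p r) ∧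
      (∀ (W : Type) [LinearOrder W] [WellFoundedLT W], RegW W → FReg le W) ∧
      FPre le O ∧ FPre le O' ∧
      (∀ (W : Type) [LinearOrder W] [WellFoundedLT W], RegW W → #W < #L →
        FKna le W L O ∧ FDen le W L O) ∧ FCC le L O' ∧ FInc le O O' σ := by
  obtain ⟨φ, hφ⟩ := hL.exists_code
  have hσ : ∀ x, φ (Function.surjInv hφ {x}) = {x} := fun x => Function.surjInv_eq hφ _
  refine ⟨Cd L, Le, Ord φ false, Ord φ true, fun x => Function.surjInv hφ {x}, ⟨⟨∅, ∅, ∅, ?_, ?_,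
    ?_, ?_, ?_, ?_⟩⟩, Le_refl, Le_trans, fun W _ _ hW => freg Le_refl Le_trans (ccd L) hW,
    fpre φ false, fpre φ true,
    fun W _ _ hW hWL => ⟨fkna hW hL hWL φ hφ, fden hL hWL φ _ hσ⟩,
    fcc hL φ hφ, finc φ _ hσ⟩
  all_goals simp

end Pool.Agent.PCel
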