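import Pool.Agent.Lib.PolB.Mdl

/-!
# The statement, for a structure `(M, E)`

`E x y` is read as `x ∈ y`. The definitions are the usual ones, written out in the language of set
theory. A preorder is given by its underlying set `S` and its order `R`, a set of ordered pairs
(`(a, b) ∈ R` is `a ≤ b`). If `l` is the successor cardinal of `k`, a preorder has cellularity at most
`k` if and only if there is no function from `l` to it with pairwise incompatible values.
-/

set_option autoImplicit false

namespace Pool.Agent.PCel

open Pool.Agent.PolB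

variable {M : Type*} (E : M → M → Prop)

/-- `x` is the ordinal `ω`: the least limit ordinal -/
def IsOmega (x : M) : Prop := IsLim E x ∧ ∀ y, E y x → ¬ IsLim E y

/-- `f`, restricted to `l × S`, is a function from `l` to `S` -/
def IsFun (l S f : M) : Prop :=
  (∀ i, E i l → ∃ y, E y S ∧ PairIn E f i y) ∧
  ∀ i, E i l → ∀ y, E y S → ∀ z, E z S → PairIn E f i y → PairIn E f i z → y = z

/-- some partial function from `k` to `x` is onto -/
def Onto (k x : M) : Prop :=
  ∃ f, (∀ i, E i k → ∀ y, E y x → ∀ z, E z x → PairIn E f i y → PairIn E f i z → y = z) ∧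
    ∀ y, E y x → ∃ i, E i k ∧ PairIn E f i y

/-- `l` is the successor cardinal of the infinite cardinal `k`: `l` is a regular cardinal, `k ∈ l`, and
every element of `l` is the image of `k` under a partial function -/
def IsSucc (k l : M) : Prop := IsReg E l ∧ (E k l ∧ ∀ x, E x l → Onto E k x)

/-- `R` is a preorder (a reflexive transitive relation) on `S` -/
def IsPre (S R : M) : Prop :=
  (∀ a, E a S → PairIn E R a a) ∧
  ∀ a, E a S → ∀ b, E b S → ∀ c, E c S → PairIn E R a b → PairIn E R b c → PairIn E R a c

/-- `a` and `b` are compatible in the preorder `(S, R)`: some `c` is below both -/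
def Comp (S R a b : M) : Prop := ∃ c, E c S ∧ (PairIn E R c a ∧ PairIn E R c b)

/-- the preorder `(S, R)` has the `l`-chain condition: no function from `l` to `S` has pairwise
incompatible values. If `l = k⁺` this is `c(S, R) ≤ k` -/
def CC (l S R : M) : Prop :=
  ∀ f, IsFun E l S f → ∃ i, E i l ∧ ∃ j, E j l ∧ (E i j ∧
    ∃ y, E y S ∧ ∃ z, E z S ∧ (PairIn E f i y ∧ (PairIn E f j z ∧ Comp E S R y z)))

/-- the product of the preorders `(S, R)` and `(T, Q)` has the `l`-chain condition: no function
`i ↦ (f i, g i)` from `l` to `S × T` has pairwise incompatible values (two elements of the product are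
compatible if and only if their coordinates are). If `l = k⁺` this is `c((S, R) × (T, Q)) ≤ k` -/
def ProdCC (l S R T Q : M) : Prop :=
  ∀ f, ∀ g, IsFun E l S f → IsFun E l T g → ∃ i, E i l ∧ ∃ j, E j l ∧ (E i j ∧
    ∃ y, E y S ∧ ∃ z, E z S ∧ ∃ u, E u T ∧ ∃ w, E w T ∧ (PairIn E f i y ∧ (PairIn E f j z ∧
      (PairIn E g i u ∧ (PairIn E g j w ∧ (Comp E S R y z ∧ Comp E T Q u w))))))

/-- for `l = k⁺`: `k` is in the cellular spectrum of the preorder `(S, R)`, i.e. for every preorder
`(T, Q)` of cellularity at most `k`, the product has cellularity at most `k` -/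
def InSpec (l S R : M) : Prop := ∀ T Q, IsPre E T Q → CC E l T Q → ProdCC E l S R T Q

/-- the preorder `(S, R)` has a dense subset which is the range of a function from `k`, i.e. it has
density at most `k` -/
def DensLe (k S R : M) : Prop :=
  ∃ f, IsFun E k S f ∧ ∀ a, E a S → ∃ i, E i k ∧ ∃ y, E y S ∧ (PairIn E f i y ∧ PairIn E R y a)

/-- every function from `l` to the preorder `(S, R)` has pairwise compatible values on the range of
some strictly increasing function from `l` to `l` (Knaster's property; used in proofs only) -/
def Kna (l S R : M) : Prop :=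
  ∀ f, IsFun E l S f → ∃ e, IsFun E l l e ∧ ∀ i, E i l → ∀ j, E j l → E i j →
    ∃ a, E a l ∧ ∃ b, E b l ∧ (E a b ∧ (PairIn E e i a ∧ (PairIn E e j b ∧
      ∃ y, E y S ∧ ∃ z, E z S ∧ (PairIn E f a y ∧ (PairIn E f b z ∧ Comp E S R y z)))))

end Pool.Agent.PCel
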