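import Pool.Agent.Lib.PCel.Bnd
import Pool.Agent.Lib.PCel.Ccd
import Pool.Agent.Lib.PCel.Dec

/-!
# Val: the values of a function from `W` to `L` are bounded; no small dense set
-/

set_option autoImplicit false

namespace Pool.Agent.PCel

open Cardinal Pool.Agent.PolF

variable {W L : Type} [LinearOrder L] [WellFoundedLT L]

theorem vals (hL : RegW L) (hWL : #W < #L) (φ : L → Finset L) (F : W × L → Set (Cd L))
    (p : Cd L) (hF : IsF Le F p) :
    ∃ d : L, ∀ (i : W) (y : L) (r : Cd L), Le r p → Mem Le F (i, y) r → ∀ x ∈ φ y, x < d := by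
  obtain ⟨d, hd⟩ := bnd (le := (Le : Cd L → Cd L → Prop)) Le_refl Le_trans (ccd L) hL hWL
    (fun (i : W) (r : Cd L) (d : L) =>
      ∀ y, (∃ s, Le s r ∧ Mem Le F (i, y) s) → ∀ x ∈ φ y, x < d)
    (fun i p q b hq h y hs => h y ⟨hs.choose, Le_trans _ _ _ hs.choose_spec.1 hq, hs.choose_spec.2⟩)
    (fun i p b b' hb h y hs x hx => (h y hs x hx).trans_le hb) p (by
      intro i q hq
      obtain ⟨r, hr, y, hy⟩ := hF.1 i q hq
      obtain ⟨d, hd⟩ := hL.bdd (φ y : Set L) ((Cardinal.lt_aleph0_of_finite _).trans hL.unc)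
      refine ⟨r, hr, d, ?_⟩
      rintro y' ⟨s, hs, hy'⟩ x hx
      have e : y' = y := by
        by_contra hne
        exact hF.2 i y' y hne s (Le_trans _ _ _ hs (Le_trans _ _ _ hr hq)) ⟨hy', Mem_down Le_trans hs hy⟩
      rw [e] at hx
      exact hd x hx)
  refine ⟨d, ?_⟩
  intro i y r hr hy x hx
  obtain ⟨r', hr', h⟩ := hd i r hr
  exact h y ⟨r', Le_refl _, Mem_down Le_trans hr' hy⟩ x hx

theorem fden (hL : RegW L) (hWL : #W < #L) (φ : L → Finset L) (σ : L → L)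
    (hσ : ∀ x, φ (σ x) = {x}) : FDen (Le : Cd L → Cd L → Prop) W L (Ord φ false) := by
  intro F p hF
  obtain ⟨d, hd⟩ := vals hL hWL φ F p hF
  refine ⟨σ d, ?_⟩
  intro i y r hr hy ho
  obtain ⟨s, hs, hdc⟩ := exists_dcd r (φ y ∪ φ (σ d))
  have h1 := (mem_ord φ false hdc).1 (Mem_down Le_trans hs ho)
  rcases h1 with ⟨u, hu, v, hv, hne, -⟩ | ⟨h1, -⟩
  · simp only [hσ, Finset.mem_singleton] at hu hv
    exact hne (hu.trans hv.symm)
  · have h2 : d ∈ φ y := h1 (by simp only [hσ, Finset.mem_singleton])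
    exact absurd (hd i y r hr hy d h2) (lt_irrefl d)

end Pool.Agent.PCel
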